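import Mathlib

set_option autoImplicit false

/-!
# The product of an even entire function with zeros on the imaginary axis, with multiplicities
-/

namespace Pool.Agent.Helper61.XL

open Complex Filter Topology Set Metric

namespace EP

/-- division by a zero of full order -/
theorem div_out {G : ℂ → ℂ} (hG : Differentiable ℂ G) (a : ℂ) (hne : analyticOrderAt G a ≠ ⊤) :
    ∃ q : ℂ → ℂ, Differentiable ℂ q ∧ (∀ z, G z = (z - a) ^ analyticOrderNatAt G a * q z) ∧
      q a ≠ 0 := by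
  have ha : AnalyticAt ℂ G a := hG.analyticAt a
  obtain ⟨g, hg, hga, hev⟩ := (ha.analyticOrderNatAt_eq_iff hne).1 rfl
  set n := analyticOrderNatAt G a with hn
  classical
  refine ⟨Function.update (fun z => G z / (z - a) ^ n) a (g a), ?_, ?_, ?_⟩
  · intro z
    by_cases hz : z = a
    · subst hz
      refine hg.differentiableAt.congr_of_eventuallyEq ?_
      filter_upwards [hev] with w hw
      by_cases hwz : w = z
      · subst hwz; simp
      · rw [Function.update_of_ne hwz, hw, smul_eq_mul]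
        exact mul_div_cancel_left₀ _ (pow_ne_zero _ (sub_ne_zero.2 hwz))
    · have h1 : DifferentiableAt ℂ (fun z => G z / (z - a) ^ n) z :=
        (hG z).div ((differentiableAt_id.sub_const a).pow n) (pow_ne_zero _ (sub_ne_zero.2 hz))
      refine h1.congr_of_eventuallyEq ?_
      filter_upwards [isOpen_ne.mem_nhds hz] with w hw
      rw [Function.update_of_ne hw]
  · intro z
    by_cases hz : z = a
    · subst hz
      simpa using hev.self_of_nhds
    · rw [Function.update_of_ne hz]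
      field_simp [sub_ne_zero.2 hz]
  · simpa using hga

theorem order_factor {G p q : ℂ → ℂ} {b : ℂ} (h : ∀ z, G z = p z * q z) (hp : AnalyticAt ℂ p b)
    (hq : AnalyticAt ℂ q b) (hb : p b ≠ 0) : analyticOrderAt G b = analyticOrderAt q b := by
  have e : G = p * q := by ext z; exact h z
  rw [e, analyticOrderAt_mul hp hq, (hp.analyticOrderAt_eq_zero).2 hb, zero_add]

theorem pair_out {G : ℂ → ℂ} (hG : Differentiable ℂ G) {a : ℂ} (ha : a ≠ 0)
    (hne : analyticOrderAt G a ≠ ⊤) (hs : analyticOrderAt G (-a) = analyticOrderAt G a) :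
    ∃ q : ℂ → ℂ, Differentiable ℂ q ∧ (∀ z, G z = (z ^ 2 - a ^ 2) ^ analyticOrderNatAt G a * q z) ∧
      q a ≠ 0 ∧ q (-a) ≠ 0 := by
  obtain ⟨q1, hq1, e1, h1⟩ := div_out hG a hne
  have hna : -a ≠ a := by
    intro h
    apply ha
    have : (2:ℂ) * a = 0 := by linear_combination -h
    simpa using this
  have o1 : analyticOrderAt q1 (-a) = analyticOrderAt G a := by
    rw [← hs]
    refine (order_factor e1 ?_ (hq1.analyticAt _) ?_).symm
    · fun_prop
    · exact pow_ne_zero _ (sub_ne_zero.2 hna)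
  obtain ⟨q2, hq2, e2, h2⟩ := div_out hq1 (-a) (by rw [o1]; exact hne)
  have on : analyticOrderNatAt q1 (-a) = analyticOrderNatAt G a := by
    unfold analyticOrderNatAt; rw [o1]
  refine ⟨q2, hq2, ?_, ?_, h2⟩
  · intro z
    rw [e1 z, e2 z, on]
    have : z ^ 2 - a ^ 2 = (z - a) * (z - -a) := by ring
    rw [this, mul_pow, mul_assoc]
  · intro h
    apply h1
    rw [e2 a, h, mul_zero]

theorem fac_ne {s t : ℝ} (hs : 0 < s) (ht : 0 < t) (hst : s ≠ t) (w : ℂ)
    (hw : w = (s : ℂ) * I ∨ w = -((s : ℂ) * I)) : (1 + w ^ 2 / (t : ℂ) ^ 2) ≠ 0 := by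
  have h2 : w ^ 2 = -(s : ℂ) ^ 2 := by
    rcases hw with rfl | rfl
    · rw [mul_pow, I_sq]; ring
    · rw [neg_sq, mul_pow, I_sq]; ring
  have ht0 : (t : ℂ) ≠ 0 := by exact_mod_cast ht.ne'
  intro h
  rw [h2] at h
  field_simp at h
  have h3 : (t : ℂ) ^ 2 = (s : ℂ) ^ 2 := by linear_combination h
  have h4 : t ^ 2 = s ^ 2 := by exact_mod_cast h3
  have : t = s := by
    nlinarith [sq_nonneg (t - s), mul_pos hs ht]
  exact hst this.symm

theorem quot {F : ℂ → ℂ} (hF : Differentiable ℂ F) (h0 : F 0 = 1) (heven : ∀ z, F (-z) = F z)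
    {S : Set ℝ} (hS : ∀ σ ∈ S, 0 < σ) (T : Finset ℝ) (hT : ∀ σ ∈ T, σ ∈ S) :
    ∃ q : ℂ → ℂ, Differentiable ℂ q ∧
      (∀ z, F z = (∏ σ ∈ T, (1 + z ^ 2 / (σ : ℂ) ^ 2) ^ analyticOrderNatAt F ((σ : ℂ) * I)) * q z) ∧
      ∀ σ ∈ T, q ((σ : ℂ) * I) ≠ 0 ∧ q (-((σ : ℂ) * I)) ≠ 0 := by
  classical
  have hnt : ∀ z, analyticOrderAt F z ≠ ⊤ := by
    intro z h
    have han : AnalyticOnNhd ℂ F univ := fun w _ => hF.analyticAt w
    have h1 : ∀ᶠ w in 𝓝 z, F w = 0 := analyticOrderAt_eq_top.1 h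
    have h2 := han.eqOn_zero_of_preconnected_of_eventuallyEq_zero isPreconnected_univ (mem_univ z) h1
    have h3 : F 0 = 0 := h2 (mem_univ 0)
    rw [h0] at h3
    exact one_ne_zero h3
  induction T using Finset.induction_on with
  | empty => exact ⟨F, hF, by simp, by simp⟩
  | insert s T hs ih =>
    obtain ⟨q, hq, e, hne⟩ := ih (fun σ hσ => hT σ (Finset.mem_insert_of_mem hσ))
    have hsS := hS s (hT s (Finset.mem_insert_self s T))
    set p : ℂ → ℂ := fun z => ∏ σ ∈ T, (1 + z ^ 2 / (σ : ℂ) ^ 2) ^ analyticOrderNatAt F ((σ : ℂ) * I)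
      with hp
    have hpd : Differentiable ℂ p := by
      rw [hp]
      fun_prop
    have hpne : ∀ w : ℂ, (w = (s : ℂ) * I ∨ w = -((s : ℂ) * I)) → p w ≠ 0 := by
      intro w hw
      rw [hp]
      refine Finset.prod_ne_zero_iff.2 fun σ hσ => pow_ne_zero _ ?_
      exact fac_ne hsS (hS σ (hT σ (Finset.mem_insert_of_mem hσ))) (fun h => hs (h ▸ hσ)) w hw
    have o1 : analyticOrderAt F ((s : ℂ) * I) = analyticOrderAt q ((s : ℂ) * I) :=
      order_factor e (hpd.analyticAt _) (hq.analyticAt _) (hpne _ (Or.inl rfl))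
    have o2 : analyticOrderAt F (-((s : ℂ) * I)) = analyticOrderAt q (-((s : ℂ) * I)) :=
      order_factor e (hpd.analyticAt _) (hq.analyticAt _) (hpne _ (Or.inr rfl))
    have o3 : analyticOrderAt F (-((s : ℂ) * I)) = analyticOrderAt F ((s : ℂ) * I) := by
      have h1 : analyticOrderAt (F ∘ fun z => -z) ((s : ℂ) * I) = analyticOrderAt F (-((s : ℂ) * I)) := by
        refine analyticOrderAt_comp_of_deriv_ne_zero (by fun_prop) ?_
        simp
      rw [← h1]
      congr 1
      ext z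
      exact heven z
    have ha0 : (s : ℂ) * I ≠ 0 := mul_ne_zero (by exact_mod_cast hsS.ne') I_ne_zero
    obtain ⟨q2, hq2, e2, n1, n2⟩ := pair_out hq ha0 (by rw [← o1]; exact hnt _) (by rw [← o2, o3, o1])
    have on : analyticOrderNatAt q ((s : ℂ) * I) = analyticOrderNatAt F ((s : ℂ) * I) := by
      unfold analyticOrderNatAt; rw [o1]
    set n := analyticOrderNatAt F ((s : ℂ) * I) with hn
    have hs0 : (s : ℂ) ≠ 0 := by exact_mod_cast hsS.ne'
    have e3 : ∀ z, q z = (1 + z ^ 2 / (s : ℂ) ^ 2) ^ n * (((s : ℂ) ^ 2) ^ n * q2 z) := by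
      intro z
      rw [e2 z, on, ← mul_assoc, ← mul_pow]
      congr 2
      have : ((s : ℂ) * I) ^ 2 = -(s : ℂ) ^ 2 := by rw [mul_pow, I_sq]; ring
      rw [this]
      field_simp
      ring
    refine ⟨fun z => ((s : ℂ) ^ 2) ^ n * q2 z, by fun_prop, ?_, ?_⟩
    · intro z
      rw [Finset.prod_insert hs, e z, e3 z]
      ring
    · intro σ hσ
      have hsn : ((s : ℂ) ^ 2) ^ n ≠ 0 := pow_ne_zero _ (pow_ne_zero _ hs0)
      rcases Finset.mem_insert.1 hσ with rfl | hσ'
      · exact ⟨mul_ne_zero hsn n1, mul_ne_zero hsn n2⟩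
      · obtain ⟨k1, k2⟩ := hne σ hσ'
        constructor
        · intro h
          apply k1
          rw [e3]
          simp only at h
          rw [h, mul_zero]
        · intro h
          apply k2
          rw [e3]
          simp only at h
          rw [h, mul_zero]

/-- analytic estimate: a zero-free even function of bounded growth on a disc is close to one -/
theorem near_one {q : ℂ → ℂ} (hq : Differentiable ℂ q) (h0 : q 0 = 1) (heven : ∀ z, q (-z) = q z)
    {R M : ℝ} (hR : 0 < R) (hM : 0 < M) (hne : ∀ z, ‖z‖ < R → q z ≠ 0)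
    (hb : ∀ z, ‖z‖ < R → ‖q z‖ ≤ Real.exp M) {z : ℂ} (hz : ‖z‖ < R / 2) :
    ∃ w : ℂ, q z = cexp w ∧ ‖w‖ ≤ 8 * M * ‖z‖ ^ 2 / R ^ 2 := by
  -- logarithm
  have hd : DifferentiableOn ℂ (fun z => deriv q z / q z) (ball 0 R) := by
    intro w hw
    rw [mem_ball_zero_iff] at hw
    exact ((hq.deriv w).div (hq w) (hne w hw)).differentiableWithinAt
  obtain ⟨g, hg0, hg⟩ := hd.isExactOn_ball.with_val_at 0 0
  have hgd : DifferentiableOn ℂ g (ball 0 R) := fun w hw =>
    (hg w hw).differentiableAt.differentiableWithinAt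
  have hexp : ∀ w ∈ ball (0:ℂ) R, q w = cexp (g w) := by
    have hc : ∀ w ∈ ball (0:ℂ) R, HasDerivAt (fun z => q z * cexp (-g z)) 0 w := by
      intro w hw
      have h1 := (hq w).hasDerivAt.fun_mul ((hg w hw).fun_neg.cexp)
      have h2 : q w ≠ 0 := hne w (mem_ball_zero_iff.1 hw)
      refine h1.congr_deriv ?_
      have h3 : q w * (deriv q w / q w) = deriv q w := by field_simp
      linear_combination -cexp (-g w) * h3
    intro w hw
    have h1 : (fun z => q z * cexp (-g z)) w = (fun z => q z * cexp (-g z)) 0 := by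
      refine (convex_ball (0:ℂ) R).is_const_of_fderivWithin_eq_zero (𝕜 := ℂ)
        (fun z hz => (hc z hz).differentiableAt.differentiableWithinAt) ?_ hw (mem_ball_self hR)
      intro z hz
      rw [fderivWithin_of_isOpen isOpen_ball hz]
      ext
      simp [(hc z hz).hasFDerivAt.fderiv]
    simp only [hg0, h0, neg_zero, Complex.exp_zero, mul_one] at h1
    rw [Complex.exp_neg] at h1
    have h3 := Complex.exp_ne_zero (g w)
    field_simp at h1
    exact h1
  have hre : ∀ w ∈ ball (0:ℂ) R, (g w).re ≤ M := by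
    intro w hw
    have h1 := hb w (mem_ball_zero_iff.1 hw)
    rw [hexp w hw, Complex.norm_exp] at h1
    exact Real.exp_le_exp.1 h1
  -- evenness of g
  have hge : ∀ w ∈ ball (0:ℂ) R, g (-w) = g w := by
    have hneg : ∀ w ∈ ball (0:ℂ) R, -w ∈ ball (0:ℂ) R := by
      intro w hw
      simpa using hw
    have hqd : ∀ w, deriv q (-w) = - deriv q w := by
      intro w
      have h1 : HasDerivAt (fun z => q (-z)) (deriv q (-w) * (-1)) w :=
        (hq (-w)).hasDerivAt.comp_of_eq w (hasDerivAt_neg w) rfl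
      have h2 : (fun z => q (-z)) = q := by ext z; exact heven z
      rw [h2] at h1
      rw [h1.deriv]; ring
    have hc : ∀ w ∈ ball (0:ℂ) R, HasDerivAt (fun z => g (-z) - g z) 0 w := by
      intro w hw
      have h1 : HasDerivAt (fun z => g (-z)) (deriv q (-w) / q (-w) * (-1)) w :=
        (hg (-w) (hneg w hw)).comp_of_eq w (hasDerivAt_neg w) rfl
      have h2 := h1.fun_sub (hg w hw)
      refine h2.congr_deriv ?_
      rw [hqd, heven]
      ring
    intro w hw
    have h1 : (fun z => g (-z) - g z) w = (fun z => g (-z) - g z) 0 := by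
      refine (convex_ball (0:ℂ) R).is_const_of_fderivWithin_eq_zero (𝕜 := ℂ)
        (fun z hz => (hc z hz).differentiableAt.differentiableWithinAt) ?_ hw (mem_ball_self hR)
      intro z hz
      rw [fderivWithin_of_isOpen isOpen_ball hz]
      ext
      simp [(hc z hz).hasFDerivAt.fderiv]
    simp only [hg0, neg_zero, sub_self] at h1
    exact sub_eq_zero.1 h1
  -- Borel-Caratheodory
  have hbc : ∀ w ∈ ball (0:ℂ) (R / 2), ‖g w‖ ≤ 2 * M := by
    intro w hw
    rw [mem_ball_zero_iff] at hw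
    have h1 := borelCaratheodory_zero hM hgd (fun z hz => hre z hz) hR
      (mem_ball_zero_iff.2 (by linarith : ‖w‖ < R)) hg0
    refine h1.trans ?_
    rw [div_le_iff₀ (by linarith)]
    nlinarith [norm_nonneg w]
  have hR2 : 0 < R / 2 := by positivity
  have hsub : ball (0:ℂ) (R / 2) ⊆ ball 0 R := ball_subset_ball (by linarith)
  have hgd2 : DifferentiableOn ℂ g (ball 0 (R / 2)) := hgd.mono hsub
  have s1 : ∀ w ∈ ball (0:ℂ) (R / 2), ‖dslope g 0 w‖ ≤ 2 * M / (R / 2) := by
    intro w hw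
    refine norm_dslope_le_div_of_mapsTo_ball hgd2 ?_ hw
    intro z hz
    rw [hg0, mem_closedBall_zero_iff]
    exact hbc z hz
  have hd0 : dslope g 0 0 = 0 := by
    rw [dslope_same]
    have h1 := (hg 0 (mem_ball_self hR)).deriv
    rw [h1]
    have h2 : deriv q 0 = 0 := by
      have h3 : HasDerivAt (fun z => q (-z)) (deriv q (-0) * (-1)) 0 :=
        (hq (-0)).hasDerivAt.comp_of_eq 0 (hasDerivAt_neg 0) rfl
      have h4 : (fun z => q (-z)) = q := by ext z; exact heven z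
      rw [h4] at h3
      have h5 := h3.deriv
      rw [neg_zero] at h5
      have h6 : (2:ℂ) * deriv q 0 = 0 := by linear_combination h5
      simpa using h6
    rw [h2, zero_div]
  have hdd : DifferentiableOn ℂ (dslope g 0) (ball 0 (R / 2)) :=
    (differentiableOn_dslope (isOpen_ball.mem_nhds (mem_ball_self hR2))).2 hgd2
  have s2 : ∀ w ∈ ball (0:ℂ) (R / 2), ‖dslope (dslope g 0) 0 w‖ ≤ (2 * M / (R / 2)) / (R / 2) := by
    intro w hw
    refine norm_dslope_le_div_of_mapsTo_ball hdd ?_ hw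
    intro z hz
    rw [hd0, mem_closedBall_zero_iff]
    exact s1 z hz
  refine ⟨g z, hexp z (mem_ball_zero_iff.2 (by linarith)), ?_⟩
  have hzb : z ∈ ball (0:ℂ) (R / 2) := mem_ball_zero_iff.2 hz
  have e1 : g z = z * dslope g 0 z := by
    have := sub_smul_dslope g 0 z
    rw [hg0] at this
    simpa using this.symm
  have e2 : dslope g 0 z = z * dslope (dslope g 0) 0 z := by
    have := sub_smul_dslope (dslope g 0) 0 z
    rw [hd0] at this
    simpa using this.symm
  rw [e1, e2, norm_mul, norm_mul]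
  have h3 := s2 z hzb
  calc ‖z‖ * (‖z‖ * ‖dslope (dslope g 0) 0 z‖) ≤ ‖z‖ * (‖z‖ * ((2 * M / (R / 2)) / (R / 2))) := by
        gcongr
    _ = 8 * M * ‖z‖ ^ 2 / R ^ 2 := by
        field_simp
        ring

end EP

open EP in
theorem even_product_mult {F : ℂ → ℂ} (hF : Differentiable ℂ F) (h0 : F 0 = 1) (heven : ∀ z, F (-z) = F z) {C : ℝ}
    (hg : ∀ z, ‖F z‖ ≤ Real.exp (C * (1 + ‖z‖) ^ (3 / 2 : ℝ))) {S : Set ℝ} (hS : ∀ σ ∈ S, 0 < σ)
    (hz : ∀ z, F z = 0 ↔ ∃ σ ∈ S, z = (σ : ℂ) * I ∨ z = -((σ : ℂ) * I)) :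
    ∃ hfin : ∀ R : ℝ, (S ∩ Set.Iio R).Finite, ∀ z : ℂ,
      Tendsto (fun R : ℝ => ∏ σ ∈ (hfin R).toFinset, (1 + z ^ 2 / (σ : ℂ) ^ 2) ^ analyticOrderNatAt F ((σ : ℂ) * I))
        atTop (𝓝 (F z)) := by
  have hfin : ∀ R : ℝ, (S ∩ Set.Iio R).Finite := by
    intro R
    have han : AnalyticOnNhd ℂ F univ := fun w _ => hF.analyticAt w
    have hf : (closedBall (0:ℂ) R ∩ F ⁻¹' {0}).Finite := by
      by_contra hinf
      obtain ⟨x, -, hx⟩ := Set.Infinite.exists_accPt_of_subset_isCompact hinf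
        (isCompact_closedBall (0:ℂ) R) inter_subset_left
      have h1 : ∃ᶠ w in 𝓝[≠] x, F w = 0 :=
        (accPt_iff_frequently_nhdsNE.1 hx).mono fun w hw => hw.2
      have h2 := han.eqOn_zero_of_preconnected_of_frequently_eq_zero isPreconnected_univ
        (mem_univ x) h1
      have h3 : F 0 = 0 := h2 (mem_univ 0)
      rw [h0] at h3
      exact one_ne_zero h3
    have himg : ((fun σ : ℝ => (σ : ℂ) * I) '' (S ∩ Set.Iio R)) ⊆ closedBall (0:ℂ) R ∩ F ⁻¹' {0} := by
      rintro _ ⟨σ, ⟨h1, h2⟩, rfl⟩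
      refine ⟨?_, ?_⟩
      · rw [mem_closedBall_zero_iff]
        simp only [norm_mul, norm_real, norm_I, mul_one, Real.norm_eq_abs]
        rw [abs_of_pos (hS σ h1)]
        exact (mem_Iio.1 h2).le
      · exact (hz _).2 ⟨σ, h1, Or.inl rfl⟩
    refine Set.Finite.of_finite_image (hf.subset himg) ?_
    intro a _ b _ h
    have := mul_right_cancel₀ I_ne_zero h
    exact_mod_cast this
  refine ⟨hfin, fun z => ?_⟩
  set P : ℝ → ℂ → ℂ := fun R z => ∏ σ ∈ (hfin R).toFinset,
    (1 + z ^ 2 / (σ : ℂ) ^ 2) ^ analyticOrderNatAt F ((σ : ℂ) * I) with hP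
  -- the quotient
  have key : ∀ R : ℝ, 0 < R → 2 * ‖z‖ < R → ∃ w : ℂ, F z = P R z * cexp w ∧
      ‖w‖ ≤ 8 * ((|C| + 1) * (1 + 2 * R) ^ (3 / 2 : ℝ)) * ‖z‖ ^ 2 / R ^ 2 := by
    intro R hR hzR
    obtain ⟨q, hq, e, hne⟩ := quot hF h0 heven hS (hfin R).toFinset (by
      intro σ hσ
      exact ((hfin R).mem_toFinset.1 hσ).1)
    have hPd : Differentiable ℂ (P R) := by
      rw [hP]
      fun_prop
    have hP0 : P R 0 = 1 := by simp [hP]
    have hPe : ∀ w, P R (-w) = P R w := by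
      intro w
      simp [hP]
    have hq0 : q 0 = 1 := by
      have := e 0
      rw [h0] at this
      have h1 : (∏ σ ∈ (hfin R).toFinset, (1 + (0:ℂ) ^ 2 / (σ : ℂ) ^ 2) ^
        analyticOrderNatAt F ((σ : ℂ) * I)) = 1 := hP0
      rw [h1, one_mul] at this
      exact this.symm
    have hqe : ∀ w, q (-w) = q w := by
      have h1 : ∀ w, P R w * (q (-w) - q w) = 0 := by
        intro w
        have a1 := e w
        have a2 := e (-w)
        have a3 := hPe w
        have a1' : F w = P R w * q w := a1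
        have a2' : F (-w) = P R (-w) * q (-w) := a2
        rw [a3, heven] at a2'
        linear_combination a1' - a2'
      have hden : ∀ᶠ w in 𝓝 (0:ℂ), P R w ≠ 0 :=
        hPd.continuous.continuousAt.eventually_ne (by rw [hP0]; exact one_ne_zero)
      have h2 : ∀ᶠ w in 𝓝 (0:ℂ), (fun w => q (-w) - q w) w = 0 := by
        filter_upwards [hden] with w hw
        exact (mul_eq_zero.1 (h1 w)).resolve_left hw
      have han : AnalyticOnNhd ℂ (fun w => q (-w) - q w) univ := by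
        intro w _
        have : Differentiable ℂ (fun w => q (-w) - q w) := by fun_prop
        exact this.analyticAt w
      have h3 := han.eqOn_zero_of_preconnected_of_eventuallyEq_zero isPreconnected_univ (mem_univ 0) h2
      intro w
      exact sub_eq_zero.1 (h3 (mem_univ w))
    have hqn : ∀ w, ‖w‖ < R → q w ≠ 0 := by
      intro w hw h
      have h1 : F w = 0 := by rw [e w, h, mul_zero]
      obtain ⟨σ, hσ, h2⟩ := (hz w).1 h1
      have h3 : ‖w‖ = σ := by
        rcases h2 with rfl | rfl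
        · simp [abs_of_pos (hS σ hσ)]
        · simp [abs_of_pos (hS σ hσ)]
      have h4 : σ ∈ (hfin R).toFinset := by
        rw [Set.Finite.mem_toFinset]
        exact ⟨hσ, by rw [mem_Iio, ← h3]; exact hw⟩
      rcases h2 with rfl | rfl
      · exact (hne σ h4).1 h
      · exact (hne σ h4).2 h
    set M : ℝ := (|C| + 1) * (1 + 2 * R) ^ (3 / 2 : ℝ) with hM
    have hMp : 0 < M := by positivity
    have hqb : ∀ w, ‖w‖ < R → ‖q w‖ ≤ Real.exp M := by
      intro w hw
      refine norm_le_of_forall_mem_frontier_norm_le (U := ball (0:ℂ) (2 * R)) isBounded_ball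
        hq.diffContOnCl ?_ (subset_closure (mem_ball_zero_iff.2 (by linarith)))
      intro v hv
      rw [frontier_ball _ (by positivity), mem_sphere_zero_iff_norm] at hv
      have hPv : 1 ≤ ‖P R v‖ := by
        rw [hP]
        simp only [norm_prod, norm_pow]
        calc (1:ℝ) = ∏ σ ∈ (hfin R).toFinset, (1:ℝ) := by simp
          _ ≤ _ := by
            refine Finset.prod_le_prod (fun _ _ => zero_le_one) fun σ hσ => one_le_pow₀ ?_
            obtain ⟨h1, h2⟩ := (hfin R).mem_toFinset.1 hσ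
            have hσ0 := hS σ h1
            have hσR : σ < R := h2
            have h3 : ‖v ^ 2 / (σ : ℂ) ^ 2‖ = (2 * R) ^ 2 / σ ^ 2 := by
              rw [norm_div, norm_pow, norm_pow, hv, norm_real, Real.norm_eq_abs, abs_of_pos hσ0]
            have h4 : 2 ≤ (2 * R) ^ 2 / σ ^ 2 := by
              rw [le_div_iff₀ (by positivity)]
              nlinarith
            have h5 : ‖v ^ 2 / (σ : ℂ) ^ 2‖ ≤ ‖1 + v ^ 2 / (σ : ℂ) ^ 2‖ + 1 := by
              calc ‖v ^ 2 / (σ : ℂ) ^ 2‖ = ‖(1 + v ^ 2 / (σ : ℂ) ^ 2) - 1‖ := by congr 1; ring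
                _ ≤ ‖1 + v ^ 2 / (σ : ℂ) ^ 2‖ + ‖(1:ℂ)‖ := norm_sub_le _ _
                _ = _ := by rw [norm_one]
            linarith
      have h1 : ‖F v‖ = ‖P R v‖ * ‖q v‖ := by rw [← norm_mul]; exact congrArg _ (e v)
      have h2 : ‖q v‖ ≤ ‖F v‖ := by
        rw [h1]
        nlinarith [norm_nonneg (q v)]
      refine h2.trans ((hg v).trans (Real.exp_le_exp.2 ?_))
      rw [hv, hM]
      have : C ≤ |C| + 1 := by linarith [le_abs_self C]
      gcongr
    obtain ⟨w, hw1, hw2⟩ := near_one hq hq0 hqe hR hMp hqn hqb (z := z) (by linarith)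
    exact ⟨w, by rw [← hw1]; exact e z, hw2⟩
  -- the bound tends to zero
  have hlim : Tendsto (fun R : ℝ => 8 * ((|C| + 1) * (1 + 2 * R) ^ (3 / 2 : ℝ)) * ‖z‖ ^ 2 / R ^ 2)
      atTop (𝓝 0) := by
    have h1 : Tendsto (fun R : ℝ => R ^ (-(1 / 2 : ℝ))) atTop (𝓝 0) :=
      tendsto_rpow_neg_atTop (by norm_num)
    have h2 := h1.const_mul (8 * (|C| + 1) * (3 : ℝ) ^ (3 / 2 : ℝ) * ‖z‖ ^ 2)
    rw [mul_zero] at h2
    refine squeeze_zero' ?_ ?_ h2
    · filter_upwards [eventually_gt_atTop 0] with R hR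
      positivity
    · filter_upwards [eventually_gt_atTop 1] with R hR
      have hR0 : 0 < R := by linarith
      have h3 : (1 + 2 * R) ^ (3 / 2 : ℝ) ≤ (3 : ℝ) ^ (3 / 2 : ℝ) * R ^ (3 / 2 : ℝ) := by
        rw [← Real.mul_rpow (by norm_num) hR0.le]
        exact Real.rpow_le_rpow (by positivity) (by linarith) (by norm_num)
      have h4 : R ^ (3 / 2 : ℝ) / R ^ 2 = R ^ (-(1 / 2 : ℝ)) := by
        rw [← Real.rpow_natCast, ← Real.rpow_sub hR0]
        norm_num
      calc 8 * ((|C| + 1) * (1 + 2 * R) ^ (3 / 2 : ℝ)) * ‖z‖ ^ 2 / R ^ 2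
          ≤ 8 * ((|C| + 1) * ((3 : ℝ) ^ (3 / 2 : ℝ) * R ^ (3 / 2 : ℝ))) * ‖z‖ ^ 2 / R ^ 2 := by
            gcongr
        _ = 8 * (|C| + 1) * (3 : ℝ) ^ (3 / 2 : ℝ) * ‖z‖ ^ 2 * (R ^ (3 / 2 : ℝ) / R ^ 2) := by ring
        _ = _ := by rw [h4]
  have hev : ∀ᶠ R : ℝ in atTop, ‖P R z - F z‖ ≤ ‖F z‖ * (2 *
      (8 * ((|C| + 1) * (1 + 2 * R) ^ (3 / 2 : ℝ)) * ‖z‖ ^ 2 / R ^ 2)) := by
    filter_upwards [eventually_gt_atTop 0, eventually_gt_atTop (2 * ‖z‖),
      hlim.eventually (gt_mem_nhds (show (0:ℝ) < 1 by norm_num))] with R hR hR2 hR3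
    obtain ⟨w, hw1, hw2⟩ := key R hR hR2
    have h1 : P R z = F z * cexp (-w) := by
      rw [hw1, mul_assoc, ← Complex.exp_add]
      simp
    have h2 : P R z - F z = F z * (cexp (-w) - 1) := by rw [h1]; ring
    rw [h2, norm_mul]
    gcongr
    have h3 : ‖cexp (-w) - 1‖ ≤ 2 * ‖-w‖ := Complex.norm_exp_sub_one_le (by rw [norm_neg]; linarith)
    rw [norm_neg] at h3
    linarith
  have h5 : Tendsto (fun R : ℝ => ‖F z‖ * (2 *
      (8 * ((|C| + 1) * (1 + 2 * R) ^ (3 / 2 : ℝ)) * ‖z‖ ^ 2 / R ^ 2))) atTop (𝓝 0) := by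
    have := (hlim.const_mul 2).const_mul ‖F z‖
    simpa using this
  have h6 : Tendsto (fun R : ℝ => P R z - F z) atTop (𝓝 0) := squeeze_zero_norm' hev h5
  have h7 := h6.add_const (F z)
  simpa using h7

end Pool.Agent.Helper61.XL
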