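import Pool.Agent.Helper61.XL.Cv
import Pool.Agent.Helper61.XL.Hm
import Pool.Agent.Helper61.GA.Zt
import Pool.Agent.Helper61.W.Xi1
import Pool.Graph.R_seed8.Helper242.KK.Kernel

set_option autoImplicit false

/-!
# The limit function and the function xi
-/

namespace Pool.Agent.Helper61.XL

open Complex Filter Topology Set MeasureTheory
open Pool.Agent.Helper61.W Pool.Agent.Helper61.W.GS Pool.Agent.Helper61.GA
open scoped ComplexConjugate ContDiff Polynomial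
open Pool.Agent.Helper242
open Pool.Agent.V11271.LI (Zr mm cfg_zeta zz mm_one_le reflE zz_refl mm_refl zeta_anal Zr.im_ne)

/-! ### the symmetry `s ↦ 1 - s` -/

lemma Xi_order_symm (s : ℂ) : analyticOrderAt Xi (1 - s) = analyticOrderAt Xi s := by
  have hg : AnalyticAt ℂ (fun s : ℂ => 1 - s) s := by fun_prop
  have hd : deriv (fun s : ℂ => 1 - s) s ≠ 0 := by
    have : HasDerivAt (fun s : ℂ => 1 - s) (-1) s := (hasDerivAt_id s).const_sub 1
    rw [this.deriv]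
    norm_num
  have h := analyticOrderAt_comp_of_deriv_ne_zero (f := Xi) hg hd
  have e : Xi ∘ (fun s : ℂ => 1 - s) = Xi := by
    funext t
    exact Xi_symm t
  rw [e] at h
  exact h.symm

lemma one_sub_mem (ρ : Zr) : riemannZeta (1 - (ρ : ℂ)) = 0 ∧ 0 < (1 - (ρ : ℂ)).re ∧ (1 - (ρ : ℂ)).re < 1 := by
  rw [← Xi_eq_zero_iff, Xi_symm, Xi_eq_zero_iff]
  exact ρ.2

/-- the symmetry -/
noncomputable def sg0 (ρ : Zr) : Zr := ⟨1 - (ρ : ℂ), one_sub_mem ρ⟩

lemma sg0_sg0 (ρ : Zr) : sg0 (sg0 ρ) = ρ := by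
  apply Subtype.ext
  simp [sg0]

noncomputable def sgE : Zr ≃ Zr := ⟨sg0, sg0, sg0_sg0, sg0_sg0⟩

lemma zz_sg (ρ : Zr) : zz (sgE ρ) = -zz ρ := by
  show (1 - (ρ : ℂ)) - 1 / 2 = -((ρ : ℂ) - 1 / 2)
  ring

lemma mm_sg (ρ : Zr) : mm (sgE ρ) = mm ρ := by
  unfold mm analyticOrderNatAt
  rw [show ((sgE ρ : Zr) : ℂ) = 1 - (ρ : ℂ) from rfl]
  obtain ⟨_, h2, h3⟩ := one_sub_mem ρ
  rw [← Xi_order h2 h3, Xi_order_symm, Xi_order ρ.2.2.1 ρ.2.2.2]

/-- the symmetric configuration under the Riemann hypothesis -/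
noncomputable def zSy (hR : ∀ ρ : Zr, (zz ρ).re = 0) : Sy zetaDat where
  hR := hR
  h0 := fun (ρ : Zr) h => by
    have h1 : zz ρ = 0 := h
    have h2 := Pool.Agent.V11271.LI.zz_im ρ
    rw [h1] at h2
    exact Zr.im_ne ρ h2.symm
  σ := sgE
  hσ := zz_sg
  hm := mm_sg

/-! ### growth -/

lemma wk_zero : KK.wk 0 = KK.Ph := by
  funext t
  unfold KK.wk
  simp

lemma Xi_eq_XiM (z : ℂ) : Xi (1 / 2 + z) = 2 * KK.XiM 0 (-I * z) := by
  have hc1 : Continuous fun z : ℂ => Xi (1 / 2 + z) := Xi_diff.continuous.comp (by fun_prop)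
  have hc2 : Continuous fun z : ℂ => 2 * KK.XiM 0 (-I * z) :=
    continuous_const.mul ((KK.differentiable_XiM le_rfl).continuous.comp (by fun_prop))
  have hd : Dense ({1 / 2, -(1 / 2)} : Set ℂ)ᶜ := (Set.toFinite ({1 / 2, -(1 / 2)} : Set ℂ)).countable.dense_compl ℝ
  have heq : EqOn (fun z : ℂ => Xi (1 / 2 + z)) (fun z : ℂ => 2 * KK.XiM 0 (-I * z)) ({1 / 2, -(1 / 2)} : Set ℂ)ᶜ := by
    intro z hz
    have h0 : (1 / 2 + z : ℂ) ≠ 0 := by
      intro h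
      apply hz
      right
      show z = -(1 / 2)
      linear_combination h
    have h1 : (1 / 2 + z : ℂ) ≠ 1 := by
      intro h
      apply hz
      left
      linear_combination h
    have hI : I * (-I * z) = z := by
      rw [← mul_assoc, mul_neg, Complex.I_mul_I, neg_neg, one_mul]
    have h2 := KK.FT_Ph (1 / 2 + z) (-I * z) (by rw [hI]) h0 h1
    show Xi (1 / 2 + z) = 2 * KK.XiM 0 (-I * z)
    rw [Xi_eq_completed h0 h1]
    unfold KK.XiM
    rw [wk_zero, h2]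
    ring
  have := Continuous.ext_on hd hc1 hc2 heq
  exact congrFun this z

lemma Xi_half_ne : Xi (1 / 2) ≠ 0 := by
  have h := Xi_eq_XiM 0
  rw [add_zero, mul_zero] at h
  rw [h]
  exact mul_ne_zero two_ne_zero (KK.XiM_zero_ne le_rfl)

/-- the normalised function -/
noncomputable def Xn (z : ℂ) : ℂ := Xi (1 / 2 + z) / Xi (1 / 2)

lemma Xn_diff : Differentiable ℂ Xn := by
  unfold Xn
  exact (Xi_diff.comp (by fun_prop)).div_const _

lemma Xn_zero : Xn 0 = 1 := by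
  unfold Xn
  rw [add_zero, div_self Xi_half_ne]

lemma Xn_even (z : ℂ) : Xn (-z) = Xn z := by
  unfold Xn
  rw [← Xi_symm (1 / 2 + z)]
  congr 2
  ring

lemma Xn_growth : ∃ C : ℝ, ∀ z, ‖Xn z‖ ≤ Real.exp (C * (1 + ‖z‖) ^ (3 / 2 : ℝ)) := by
  obtain ⟨C, hC, h⟩ := KK.XiM_upper (μ := 0) le_rfl
  set K : ℝ := 2 / ‖Xi (1 / 2)‖ with hK
  have hX := norm_pos_iff.mpr Xi_half_ne
  have hK0 : 0 ≤ K := by positivity
  refine ⟨2 + C + K, fun z => ?_⟩
  have h1 : ‖Xn z‖ = K * ‖KK.XiM 0 (-I * z)‖ := by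
    unfold Xn
    rw [Xi_eq_XiM, norm_div, norm_mul, hK]
    simp
    ring
  set r : ℝ := ‖z‖ with hr
  have hr0 : 0 ≤ r := norm_nonneg _
  have h2 := h (-I * z)
  set y : ℝ := |(-I * z).im| with hy
  have hy0 : 0 ≤ y := abs_nonneg _
  have hyr : y ≤ r := by
    have h3 := Complex.abs_im_le_norm (-I * z)
    rw [norm_mul, norm_neg, Complex.norm_I, one_mul] at h3
    exact h3
  have h4 : y / 2 * Real.log (2 + y) + C * (1 + y) ≤ (2 + C) * (1 + r) ^ (3 / 2 : ℝ) := by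
    have e1 : (1 + r) ≤ (1 + r) ^ (3 / 2 : ℝ) := by
      have : (1 + r) ^ (1 : ℝ) ≤ (1 + r) ^ (3 / 2 : ℝ) :=
        Real.rpow_le_rpow_of_exponent_le (by linarith) (by norm_num)
      rwa [Real.rpow_one] at this
    have e2 : Real.log (2 + y) ≤ 2 * Real.sqrt (2 + y) := by
      have h5 := Real.log_le_sub_one_of_pos (Real.sqrt_pos.mpr (by linarith : 0 < 2 + y))
      have h6 : Real.log (2 + y) = 2 * Real.log (Real.sqrt (2 + y)) := by
        rw [Real.log_sqrt (by linarith)]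
        ring
      rw [h6]
      linarith
    have e3 : Real.sqrt (2 + y) ≤ 2 * Real.sqrt (1 + r) := by
      have : 2 * Real.sqrt (1 + r) = Real.sqrt (4 * (1 + r)) := by
        rw [Real.sqrt_mul (by norm_num)]
        congr 1
        rw [show (4 : ℝ) = 2 ^ 2 by norm_num, Real.sqrt_sq (by norm_num)]
      rw [this]
      exact Real.sqrt_le_sqrt (by linarith)
    have e4 : (1 + r) * Real.sqrt (1 + r) = (1 + r) ^ (3 / 2 : ℝ) := by
      rw [Real.sqrt_eq_rpow]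
      nth_rewrite 1 [← Real.rpow_one (1 + r)]
      rw [← Real.rpow_add (by linarith)]
      norm_num
    have hs := Real.sqrt_nonneg (1 + r)
    have hlog : 0 ≤ Real.log (2 + y) := Real.log_nonneg (by linarith)
    have e5 : y / 2 * Real.log (2 + y) ≤ 2 * (1 + r) ^ (3 / 2 : ℝ) := by
      rw [← e4]
      calc y / 2 * Real.log (2 + y) ≤ (1 + r) / 2 * (2 * (2 * Real.sqrt (1 + r))) := by
            apply mul_le_mul _ _ hlog (by positivity)
            · linarith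
            · exact e2.trans (mul_le_mul_of_nonneg_left e3 (by norm_num))
        _ = _ := by ring
    have e6 : C * (1 + y) ≤ C * (1 + r) ^ (3 / 2 : ℝ) :=
      mul_le_mul_of_nonneg_left (by linarith) hC.le
    rw [add_mul]
    exact add_le_add e5 e6
  have h5 : K ≤ Real.exp (K * (1 + r) ^ (3 / 2 : ℝ)) := by
    have e1 : (1 : ℝ) ≤ (1 + r) ^ (3 / 2 : ℝ) := Real.one_le_rpow (by linarith) (by norm_num)
    have e2 := Real.add_one_le_exp (K * (1 + r) ^ (3 / 2 : ℝ))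
    have e3 : K * 1 ≤ K * (1 + r) ^ (3 / 2 : ℝ) := mul_le_mul_of_nonneg_left e1 hK0
    linarith
  rw [h1]
  calc K * ‖KK.XiM 0 (-I * z)‖ ≤ Real.exp (K * (1 + r) ^ (3 / 2 : ℝ)) *
        Real.exp (y / 2 * Real.log (2 + y) + C * (1 + y)) := mul_le_mul h5 h2 (norm_nonneg _) (Real.exp_pos _).le
    _ = Real.exp (K * (1 + r) ^ (3 / 2 : ℝ) + (y / 2 * Real.log (2 + y) + C * (1 + y))) :=
        (Real.exp_add _ _).symm
    _ ≤ Real.exp ((2 + C + K) * (1 + r) ^ (3 / 2 : ℝ)) := by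
        apply Real.exp_le_exp.mpr
        linarith

/-! ### zeros -/

/-- the ordinates -/
def Or : Set ℝ := range (gm : Pz zetaDat → ℝ)

lemma Or_pos : ∀ σ ∈ Or, 0 < σ := by
  rintro _ ⟨ρ, rfl⟩
  exact gm_pos ρ

lemma Xn_zero_iff' (z : ℂ) : Xn z = 0 ↔ ∃ ρ : Zr, zz ρ = z := by
  unfold Xn
  rw [div_eq_zero_iff, or_iff_left Xi_half_ne, Xi_eq_zero_iff]
  constructor
  · intro h
    exact ⟨⟨1 / 2 + z, h⟩, by unfold zz; simp⟩
  · rintro ⟨ρ, rfl⟩
    have e : 1 / 2 + zz ρ = (ρ : ℂ) := by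
      unfold zz
      ring
    rw [e]
    exact ρ.2

variable (hR : ∀ ρ : Zr, (zz ρ).re = 0)

include hR

lemma Xn_zero_iff (z : ℂ) : Xn z = 0 ↔ ∃ σ ∈ Or, z = (σ : ℂ) * I ∨ z = -((σ : ℂ) * I) := by
  rw [Xn_zero_iff']
  have Y := zSy hR
  constructor
  · rintro ⟨ρ, rfl⟩
    have hz : zz ρ = ((zz ρ).im : ℂ) * I := z_eq Y ρ
    have hne : (zz ρ).im ≠ 0 := by
      intro h
      apply Y.h0 ρ
      show zz ρ = 0
      rw [hz, h]
      simp
    rcases lt_or_gt_of_ne hne with h | h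
    · have hp : 0 < (zetaDat.z (sgE ρ)).im := by
        show 0 < (zz (sgE ρ)).im
        rw [zz_sg, Complex.neg_im]
        linarith
      refine ⟨gm (⟨sgE ρ, hp⟩ : Pz zetaDat), ⟨_, rfl⟩, Or.inr ?_⟩
      show zz ρ = -(((zz (sgE ρ)).im : ℂ) * I)
      rw [zz_sg, Complex.neg_im]
      push_cast
      rw [neg_mul, neg_neg]
      exact hz
    · exact ⟨gm (⟨ρ, h⟩ : Pz zetaDat), ⟨_, rfl⟩, Or.inl hz⟩
  · rintro ⟨_, ⟨ρ, rfl⟩, rfl | rfl⟩
    · exact ⟨ρ.1, z_eq Y ρ.1⟩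
    · exact ⟨sgE ρ.1, (zz_sg ρ.1).trans (congrArg Neg.neg (z_eq Y ρ.1))⟩

/-- finite products over the ordinates converge to the limit function -/
lemma pr_lim (hfin : ∀ R : ℝ, (Or ∩ Set.Iio R).Finite) (z : ℂ) :
    Tendsto (fun R : ℝ => ∏ σ ∈ (hfin R).toFinset, (1 + z ^ 2 / (σ : ℂ) ^ 2)) atTop (𝓝 (Pr zetaDat z)) := by
  classical
  have hinj := gm_inj (zSy hR)
  set T : ℝ → Finset (Pz zetaDat) := fun R => (hfin R).toFinset.preimage gm hinj.injOn with hT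
  have hTt : Tendsto T atTop atTop := by
    apply tendsto_atTop_finset_of_monotone
    · intro R R' hRR x hx
      rw [hT, Finset.mem_preimage, Set.Finite.mem_toFinset] at hx ⊢
      exact ⟨hx.1, lt_of_lt_of_le hx.2 hRR⟩
    · intro x
      refine ⟨gm x + 1, ?_⟩
      rw [hT, Finset.mem_preimage, Set.Finite.mem_toFinset]
      exact ⟨⟨x, rfl⟩, by show gm x < gm x + 1; linarith⟩
  have h1 := pr_prod (D := zetaDat) z
  unfold HasProd at h1
  simp only [SummationFilter.unconditional_filter] at h1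
  refine (h1.comp hTt).congr fun R => ?_
  show ∏ ρ ∈ T R, (1 + z ^ 2 * ((1 / gm ρ ^ 2 : ℝ) : ℂ)) = _
  rw [hT]
  have h2 := Finset.prod_preimage (gm : Pz zetaDat → ℝ) (hfin R).toFinset hinj.injOn
    (fun σ : ℝ => (1 + z ^ 2 / (σ : ℂ) ^ 2)) (fun σ hσ hn => by
      rw [Set.Finite.mem_toFinset] at hσ
      exact absurd hσ.1 hn)
  rw [← h2]
  refine Finset.prod_congr rfl fun ρ _ => ?_
  push_cast
  ring

/-- under simplicity the limit function is the normalised function xi -/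
theorem pr_eq (hs : ∀ ρ : Zr, deriv riemannZeta (ρ : ℂ) ≠ 0) (z : ℂ) : Pr zetaDat z = Xn z := by
  obtain ⟨C, hC⟩ := Xn_growth
  obtain ⟨hfin, hlim⟩ := even_product Xn_diff Xn_zero Xn_even hC Or_pos (Xn_zero_iff hR) (fun z hz => by
    obtain ⟨ρ, rfl⟩ := (Xn_zero_iff' z).mp hz
    have e : 1 / 2 + zz ρ = (ρ : ℂ) := by
      unfold zz
      ring
    have h0 : (ρ : ℂ) ≠ 0 := by
      intro h
      have := ρ.2.2.1
      rw [h] at this
      simp at this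
    have h1 : (ρ : ℂ) ≠ 1 := ρ.ne_one
    have hev : Xi =ᶠ[𝓝 (ρ : ℂ)] fun z => z * (z - 1) * Gammaℝ z * riemannZeta z := by
      have e1 : ∀ᶠ z in 𝓝 (ρ : ℂ), z ≠ 0 := isOpen_ne.mem_nhds h0
      have e2 : ∀ᶠ z in 𝓝 (ρ : ℂ), z ≠ 1 := isOpen_ne.mem_nhds h1
      have e3 : ∀ᶠ z : ℂ in 𝓝 (ρ : ℂ), 0 < z.re := (isOpen_lt continuous_const continuous_re).mem_nhds ρ.2.2.1
      filter_upwards [e1, e2, e3] with z hz1 hz2 hz3
      exact Xi_eq hz1 hz2 (Gammaℝ_ne_zero_of_re_pos hz3)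
    have d1 : DifferentiableAt ℂ (fun z : ℂ => z * (z - 1) * Gammaℝ z) (ρ : ℂ) := by
      have := (analyticAt_Gammaℝ ρ.2.2.1).differentiableAt
      fun_prop
    have d2 : HasDerivAt (fun z : ℂ => z * (z - 1) * Gammaℝ z * riemannZeta z)
        (deriv (fun z : ℂ => z * (z - 1) * Gammaℝ z) (ρ : ℂ) * riemannZeta (ρ : ℂ) +
          ((ρ : ℂ) * ((ρ : ℂ) - 1) * Gammaℝ (ρ : ℂ)) * deriv riemannZeta (ρ : ℂ)) (ρ : ℂ) :=
      d1.hasDerivAt.mul (differentiableAt_riemannZeta h1).hasDerivAt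
    have d3 : deriv Xi (ρ : ℂ) ≠ 0 := by
      rw [hev.deriv_eq, d2.deriv, ρ.2.1, mul_zero, zero_add]
      exact mul_ne_zero (mul_ne_zero (mul_ne_zero h0 (sub_ne_zero.mpr h1)) (Gammaℝ_ne_zero_of_re_pos ρ.2.2.1)) (hs ρ)
    have d4 : HasDerivAt Xn (deriv Xi (ρ : ℂ) / Xi (1 / 2)) (zz ρ) := by
      have h5 : HasDerivAt (fun z : ℂ => Xi (1 / 2 + z)) (deriv Xi (1 / 2 + zz ρ)) (zz ρ) :=
        HasDerivAt.comp_const_add (1 / 2) (zz ρ) (Xi_diff _).hasDerivAt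
      rw [e] at h5
      exact h5.div_const _
    rw [d4.deriv]
    exact div_ne_zero d3 Xi_half_ne)
  exact tendsto_nhds_unique (pr_lim hR hfin z) (hlim z)

end Pool.Agent.Helper61.XL
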