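import Pool.Agent.Helper61.XL.Mo
import Pool.Agent.Helper61.XL.Xs

set_option autoImplicit false

/-!
# Monotonicity of the extremal functions
-/

namespace Pool.Agent.Helper61.XL

open Complex Filter Topology Set MeasureTheory
open Pool.Agent.Helper61.W Pool.Agent.Helper61.W.GS Pool.Agent.Helper61.GA
open scoped ComplexConjugate ContDiff Polynomial

/-- a symmetric configuration -/
structure Sq (D : Dat) where
  σ : D.ι ≃ D.ι
  hσ : ∀ ρ, D.z (σ ρ) = -D.z ρ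
  hm : ∀ ρ, D.m (σ ρ) = D.m ρ

/-- the nontrivial zeros of zeta -/
noncomputable def zSq : Sq zetaDat where
  σ := sgE
  hσ := zz_sg
  hm := mm_sg

variable {D : Dat} {a b : ℝ} (Z : Sq D)

include Z

lemma szu_iff (ha : 0 < a) (hl : 0 < D.low a) {φ : HL} (hφ : Xt D a φ) (z : ℂ) :
    ev a z φ = 0 ↔ ∃ s ∈ Sz a φ, z = (s : ℂ) * I ∨ z = -((s : ℂ) * I) := by
  constructor
  · intro h
    have hre := (xt_zeros ha hl hφ h).1
    have hz : z = (z.im : ℂ) * I := by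
      apply Complex.ext
      · simp [hre]
      · simp
    rcases lt_trichotomy z.im 0 with h1 | h1 | h1
    · refine ⟨-z.im, ⟨by linarith, ?_⟩, Or.inr ?_⟩
      · have h2 := sym_even ha hl Z.σ Z.hσ Z.hm hφ z
        rw [h] at h2
        rw [← h2]
        congr 2
        rw [hz]
        push_cast
        simp
      · conv_lhs => rw [hz]
        push_cast
        ring
    · exfalso
      rw [hz, h1, Complex.ofReal_zero, zero_mul, xt_zero hφ] at h
      exact one_ne_zero h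
    · refine ⟨z.im, ⟨h1, ?_⟩, Or.inl hz⟩
      rw [← hz]
      exact h
  · rintro ⟨s, ⟨_, hs⟩, rfl | rfl⟩
    · exact hs
    · rw [sym_even ha hl Z.σ Z.hσ Z.hm hφ]
      exact hs

/-- the product formula -/
theorem szu_prod (ha : 0 < a) (hl : 0 < D.low a) {φ : HL} (hφ : Xt D a φ) :
    (∀ R : ℝ, (Sz a φ ∩ Set.Iio R).Finite) ∧
      ∀ z : ℂ, HasProd (fun s : Sz a φ => 1 + z ^ 2 / (((s : ℝ) : ℂ)) ^ 2) (ev a z φ) := by
  obtain ⟨C, hC⟩ := growth ha φ
  obtain ⟨hfin, hlim⟩ := even_product (F := fun z => ev a z φ) (ev_differentiable φ) (xt_zero hφ)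
    (fun z => sym_even ha hl Z.σ Z.hσ Z.hm hφ z) hC (S := Sz a φ) (fun s hs => hs.1) (szu_iff Z ha hl hφ)
    (fun z hz => (xt_zeros ha hl hφ hz).2)
  exact ⟨hfin, fun z => hasProd_of_lim (fun s hs => hs.1) hfin hlim z⟩

lemma neg_zero_mem (ha : 0 < a) (hl : 0 < D.low a) {φ : HL} (hφ : Xt D a φ) {s : ℝ}
    (hs : ev a ((s : ℂ) * I) φ = 0) : ev a (((-s : ℝ) : ℂ) * I) φ = 0 := by
  have := sym_even ha hl Z.σ Z.hσ Z.hm hφ ((s : ℂ) * I)
  rw [hs] at this
  rw [← this]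
  congr 2
  push_cast
  ring

/-- the values at real points increase with the interval -/
theorem mono_values (ha : 0 < a) (hab : a < b) (hl : 0 < D.low b) {φ ψ : HL} (hφ : Xt D a φ) (hψ : Xt D b ψ) (x : ℝ) :
    (ev a (x : ℂ) φ).im = 0 ∧ 1 ≤ (ev a (x : ℂ) φ).re ∧ (ev a (x : ℂ) φ).re ≤ (ev b (x : ℂ) ψ).re := by
  have hb := ha.trans hab
  have hla := low_a ha hab hl
  obtain ⟨_, h1⟩ := szu_prod Z ha hla hφ
  obtain ⟨hfin, h2⟩ := szu_prod Z hb hl hψ
  refine prod_mono (S := Sz a φ) (S' := Sz b ψ) (fun s hs => hs.1) (fun s hs => hs.1) hfin ?_ ?_ (h1 x) (h2 x)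
  · intro s hs t ht hst
    obtain ⟨y, h3, h4, h5⟩ := gapM ha hab hl hφ hψ hst hs.2 ht.2
    exact ⟨y, ⟨hs.1.trans h4, h3⟩, h4, h5⟩
  · intro s hs
    obtain ⟨y, h3, h4, h5⟩ := gapM ha hab hl hφ hψ (by linarith [hs.1] : -s < s) (neg_zero_mem Z ha hla hφ hs.2) hs.2
    have hy : y ≠ 0 := by
      rintro rfl
      rw [Complex.ofReal_zero, zero_mul, xt_zero hψ] at h3
      exact one_ne_zero h3
    rcases lt_or_gt_of_ne hy with h6 | h6
    · exact ⟨-y, ⟨by linarith, neg_zero_mem Z hb hl hψ h3⟩, by linarith⟩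
    · exact ⟨y, ⟨h6, h3⟩, h5⟩

end Pool.Agent.Helper61.XL
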