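import Pool.Agent.Helper61.GR.Rk

set_option autoImplicit false

/-!
# Convergence of the measures of a sum of squares with a small remainder

This is a variant of `GR.mass_est`, `GR.mass_conv` and `GR.zeta_mass`: the remainder is `j * ‖W.LT g 0‖ ^ 2`
with `0 ≤ j ≤ exp (-(c1 * exp (2 * a)))`.
-/

namespace Pool.Agent.Helper61.XL

open Complex Filter Topology Set MeasureTheory
open Pool.Agent.Helper61.W Pool.Agent.Helper61.W.GS Pool.Agent.Helper61.GA Pool.Agent.Helper61.GR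
open scoped ComplexConjugate ContDiff

/-- a measure that represents the form up to `j` times the square of the value at zero -/
structure TraceR (D : Dat) (a j : ℝ) {ζ : Type} (p : ζ → ℂ) (ν : ζ → ℝ) : Prop where
  re : ∀ s, (p s).re = 0
  nn : ∀ s, 0 ≤ ν s
  sum : ∀ g : Ts a, HasSum (fun s => ν s * ‖W.LT g (p s)‖ ^ 2) ((D.Wf g g).re - j * ‖W.LT g 0‖ ^ 2)

open Classical in
/-- the mass near a point -/
theorem mass_est_r {D : Dat} {a : ℝ} (hR : ∀ ρ : D.ι, (D.z ρ).re = 0) (ha : 0 < a) {w : ℂ} (hw : w.re = 0) {M e : ℝ}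
    (hM : 0 ≤ M) (hT : TW D w M e a) {j : ℝ} (hj : 0 ≤ j) {ζ : Type} {p : ζ → ℂ} {ν : ζ → ℝ}
    (hF : TraceR D a j p ν) {η δ r : ℝ} (hη : 0 < η)
    (hη1 : 3 * M * η ≤ 1) (hδ : 0 < δ) (hδ1 : 2 * M * δ ≤ 1) (hr : 2 * M * r ≤ 1) :
    |(∑' s, if ‖p s - w‖ ≤ δ then ν s else 0) - mw D w| ≤
        3 * M * mw D w * η + 2 * (6 * M * (RW D w e + 2 * a * M ^ 2 * j) / η + (RW D w e + 2 * a * M ^ 2 * j) / δ ^ 2 +
          (RW D w e + 2 * a * M ^ 2 * j)) ∧
      (∑' s, if δ < ‖p s - w‖ ∧ ‖p s - w‖ < r then ν s else 0) ≤ 4 * RW D w e / δ ^ 2 := by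
  obtain ⟨g, hg1, hg2, hg3, hg4⟩ := hT
  set L := ‖W.LT g w‖ with hL
  obtain ⟨hS2, -⟩ := loww_small hR ha hw hg1 hg4
  have hR0 := RW_nonneg (D := D) w e
  set R := RW D w e with hRdef
  have hsum1 := hF.sum g
  have hsum2 := hF.sum (Ao a w g)
  have hsum2' : HasSum (fun s => ν s * (‖p s - w‖ ^ 2 * ‖W.LT g (p s)‖ ^ 2))
      ((D.Wf (Ao a w g) (Ao a w g)).re - j * ‖W.LT (Ao a w g) 0‖ ^ 2) := by
    refine hsum2.congr_fun fun s => ?_
    rw [LT_Ao, norm_mul, mul_pow]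
  set S := (D.Wf g g).re - j * ‖W.LT g 0‖ ^ 2 with hS
  set S2 := (D.Wf (Ao a w g) (Ao a w g)).re - j * ‖W.LT (Ao a w g) 0‖ ^ 2 with hS2def
  have hS2R : S2 ≤ R := by
    have : 0 ≤ j * ‖W.LT (Ao a w g) 0‖ ^ 2 := by positivity
    linarith
  have hLT0 : ‖W.LT g 0‖ ^ 2 ≤ 2 * a * M ^ 2 := by
    have e1 := ev_bound ha (z := 0) (R := 0) (by rw [Complex.zero_re, abs_zero]) (toL a g)
    rw [ev_toL, zero_mul, Real.exp_zero, mul_one] at e1
    have e2 : ‖W.LT g 0‖ ≤ Real.sqrt (2 * a) * M := e1.trans (by gcongr)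
    have e3 := pow_le_pow_left₀ (norm_nonneg _) e2 2
    rw [mul_pow, Real.sq_sqrt (by positivity)] at e3
    exact e3
  have hbnn : ∀ s, 0 ≤ ν s * (‖p s - w‖ ^ 2 * ‖W.LT g (p s)‖ ^ 2) := fun s =>
    mul_nonneg (hF.nn s) (by positivity)
  have hann : ∀ s, 0 ≤ ν s * ‖W.LT g (p s)‖ ^ 2 := fun s => mul_nonneg (hF.nn s) (by positivity)
  -- pointwise
  have hpt : ∀ s, 2 * M * ‖p s - w‖ ≤ 1 →
      |ν s * L ^ 2 - ν s * ‖W.LT g (p s)‖ ^ 2| ≤ 3 / 2 * L ^ 2 * M * η * ν s +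
        (6 * M / η + 1 / δ ^ 2) * (ν s * (‖p s - w‖ ^ 2 * ‖W.LT g (p s)‖ ^ 2)) ∧
        ν s ≤ 4 * (ν s * ‖W.LT g (p s)‖ ^ 2) := by
    intro s hs
    refine arith3 (hF.nn s) (norm_nonneg _) (norm_nonneg _) hg1 hM hη hs ?_
    refine (abs_norm_sub_norm_le _ _).trans (hg3 (p s) (hF.re s))
  set N : ζ → ℝ := fun s => if ‖p s - w‖ ≤ δ then ν s else 0 with hN
  have hN0 : ∀ s, 0 ≤ N s := by
    intro s
    simp only [hN]
    split_ifs
    · exact hF.nn s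
    · exact le_rfl
  have hN4 : ∀ s, N s ≤ 4 * (ν s * ‖W.LT g (p s)‖ ^ 2) := by
    intro s
    by_cases h : ‖p s - w‖ ≤ δ
    · simp only [hN, if_pos h]
      refine (hpt s ?_).2
      have := mul_le_mul_of_nonneg_left h (by positivity : 0 ≤ 2 * M)
      linarith
    · simp only [hN, if_neg h]
      have := hann s
      positivity
  have hNs : Summable N := Summable.of_nonneg_of_le hN0 hN4 (hsum1.summable.mul_left 4)
  constructor
  · -- the main estimate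
    have hb : ∀ s, ‖N s * L ^ 2 - ν s * ‖W.LT g (p s)‖ ^ 2‖ ≤ 3 / 2 * L ^ 2 * M * η * N s +
        (6 * M / η + 1 / δ ^ 2) * (ν s * (‖p s - w‖ ^ 2 * ‖W.LT g (p s)‖ ^ 2)) := by
      intro s
      rw [Real.norm_eq_abs]
      by_cases h : ‖p s - w‖ ≤ δ
      · simp only [hN, if_pos h]
        refine (hpt s ?_).1
        have := mul_le_mul_of_nonneg_left h (by positivity : 0 ≤ 2 * M)
        linarith
      · simp only [hN, if_neg h]
        rw [zero_mul, zero_sub, abs_neg, abs_of_nonneg (hann s), mul_zero, zero_add]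
        push Not at h
        have h1 : 1 ≤ 1 / δ ^ 2 * ‖p s - w‖ ^ 2 := by
          rw [one_div, ← div_eq_inv_mul, one_le_div (by positivity)]
          exact pow_le_pow_left₀ hδ.le h.le 2
        have h2 := mul_le_mul_of_nonneg_left h1 (hann s)
        have h3 : 0 ≤ 6 * M / η * (ν s * (‖p s - w‖ ^ 2 * ‖W.LT g (p s)‖ ^ 2)) := mul_nonneg (by positivity) (hbnn s)
        calc ν s * ‖W.LT g (p s)‖ ^ 2 = ν s * ‖W.LT g (p s)‖ ^ 2 * 1 := (mul_one _).symm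
          _ ≤ ν s * ‖W.LT g (p s)‖ ^ 2 * (1 / δ ^ 2 * ‖p s - w‖ ^ 2) := h2
          _ ≤ ν s * ‖W.LT g (p s)‖ ^ 2 * (1 / δ ^ 2 * ‖p s - w‖ ^ 2) +
              6 * M / η * (ν s * (‖p s - w‖ ^ 2 * ‖W.LT g (p s)‖ ^ 2)) := by linarith
          _ = _ := by ring
    have hbs := ((hNs.hasSum.mul_left (3 / 2 * L ^ 2 * M * η)).add (hsum2'.mul_left (6 * M / η + 1 / δ ^ 2)))
    have h1 := tsum_of_norm_bounded hbs hb
    rw [(hNs.mul_right (L ^ 2)).tsum_sub hsum1.summable, hsum1.tsum_eq, tsum_mul_right, Real.norm_eq_abs] at h1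
    have h2 : |S - mw D w * L ^ 2| ≤ (R + 2 * a * M ^ 2 * j) + 0 * (R + 2 * a * M ^ 2 * j) * M ^ 2 := by
      have h3 := tsum_exc (f := fun ρ : D.ι => D.m ρ * ‖W.LT g (D.z ρ)‖ ^ 2) (w := w) (X := L ^ 2)
        ((D.sum.mul_left (4 * e ^ 2)).mul_left ((2 + |w.im|) ^ 2))
        (fun ρ => by
          have := D.m_nonneg ρ
          positivity)
        (fun ρ hρ => (rest_w hg4 ρ hρ).1) (fun ρ hρ => by rw [hρ])
      rw [restw_tsum] at h3
      have h4 : (D.Wf g g).re = ∑' ρ : D.ι, D.m ρ * ‖W.LT g (D.z ρ)‖ ^ 2 := by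
        rw [Wf_self_eq hR, Complex.ofReal_re]
      rw [← h4] at h3
      have h5 : j * ‖W.LT g 0‖ ^ 2 ≤ 2 * a * M ^ 2 * j := by
        calc j * ‖W.LT g 0‖ ^ 2 ≤ j * (2 * a * M ^ 2) := by gcongr
          _ = _ := by ring
      have h6 : 0 ≤ j * ‖W.LT g 0‖ ^ 2 := by positivity
      have h7 : 0 ≤ 2 * a * M ^ 2 * j := by positivity
      rw [zero_mul, zero_mul, add_zero]
      rw [abs_le] at h3 ⊢
      constructor
      · linarith [h3.1]
      · linarith [h3.2]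
    have hR'0 : 0 ≤ R + 2 * a * M ^ 2 * j := by positivity
    have hS2R' : S2 ≤ R + 2 * a * M ^ 2 * j := by
      have : 0 ≤ 2 * a * M ^ 2 * j := by positivity
      linarith
    have h3 := arith2 (B := 0) hg1 hM hη hη1 hδ hR'0 le_rfl (tsum_nonneg hN0) hS2R' h1 h2
    refine h3.trans (le_of_eq ?_)
    ring
  · have h1 : ∀ s, (if δ < ‖p s - w‖ ∧ ‖p s - w‖ < r then ν s else 0) ≤
        4 / δ ^ 2 * (ν s * (‖p s - w‖ ^ 2 * ‖W.LT g (p s)‖ ^ 2)) := by
      intro s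
      split_ifs with h
      · have h2 := (hpt s (by
          have := mul_le_mul_of_nonneg_left h.2.le (by positivity : 0 ≤ 2 * M)
          linarith)).2
        have h3 : 1 ≤ 1 / δ ^ 2 * ‖p s - w‖ ^ 2 := by
          rw [one_div, ← div_eq_inv_mul, one_le_div (by positivity)]
          exact pow_le_pow_left₀ hδ.le h.1.le 2
        have h4 := mul_le_mul_of_nonneg_left h3 (hann s)
        calc ν s ≤ 4 * (ν s * ‖W.LT g (p s)‖ ^ 2) := h2
          _ = 4 * (ν s * ‖W.LT g (p s)‖ ^ 2 * 1) := by ring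
          _ ≤ 4 * (ν s * ‖W.LT g (p s)‖ ^ 2 * (1 / δ ^ 2 * ‖p s - w‖ ^ 2)) := by linarith
          _ = _ := by ring
      · exact mul_nonneg (by positivity) (hbnn s)
    have h0 : ∀ s, 0 ≤ (if δ < ‖p s - w‖ ∧ ‖p s - w‖ < r then ν s else 0) := by
      intro s
      split_ifs
      · exact hF.nn s
      · exact le_rfl
    have h2 := hsum2'.mul_left (4 / δ ^ 2)
    have h3 : Summable fun s => (if δ < ‖p s - w‖ ∧ ‖p s - w‖ < r then ν s else 0) :=
      Summable.of_nonneg_of_le h0 h1 h2.summable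
    have h4 := h3.tsum_le_tsum h1 h2.summable
    rw [h2.tsum_eq] at h4
    refine h4.trans ?_
    have h5 := mul_le_mul_of_nonneg_left hS2R (by positivity : 0 ≤ 4 / δ ^ 2)
    refine h5.trans (le_of_eq ?_)
    ring

open Classical in
/-- the masses converge doubly exponentially fast -/
theorem mass_conv_r {D : Dat} (hR : ∀ ρ : D.ι, (D.z ρ).re = 0) {w : ℂ} (hw : w.re = 0) {M c A : ℝ} (hM : 0 ≤ M)
    (hc : 0 < c) (hT : ∀ a : ℝ, A ≤ a → TW D w M (M * Real.exp (-(c * Real.exp (2 * a)))) a) {J : ℝ → ℝ}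
    {c1 A1 : ℝ} (hc1 : 0 < c1) (hJ0 : ∀ a : ℝ, 0 < a → 0 ≤ J a)
    (hJ : ∀ a : ℝ, A1 ≤ a → 0 < a → J a ≤ Real.exp (-(c1 * Real.exp (2 * a)))) :
    ∃ c' r A' : ℝ, 0 < c' ∧ 0 < r ∧ ∀ a : ℝ, A' ≤ a → 0 < a → ∀ (ζ : Type) (p : ζ → ℂ) (ν : ζ → ℝ),
      TraceR D a (J a) p ν →
      |(∑' s, if ‖p s - w‖ ≤ Real.exp (-(c' * Real.exp (2 * a))) then ν s else 0) - mw D w| ≤
          Real.exp (-(c' * Real.exp (2 * a))) ∧
        (∑' s, if Real.exp (-(c' * Real.exp (2 * a))) < ‖p s - w‖ ∧ ‖p s - w‖ < r then ν s else 0) ≤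
          Real.exp (-(c' * Real.exp (2 * a))) := by
  set c2 : ℝ := min c c1 with hc2
  have hc20 : 0 < c2 := lt_min hc hc1
  set K : ℝ := (2 + |w.im|) ^ 2 * (4 * M ^ 2 * SD D) with hK
  have hK0 : 0 ≤ K := by
    have := SD_nonneg (D := D)
    positivity
  have hmw := mw_nonneg (D := D) w
  set C0 : ℝ := 3 * M * mw D w + 12 * M * K + 4 * K + 3 * M with hC0
  set C3 : ℝ := 24 * M ^ 3 + 8 * M ^ 2 with hC3
  have hC00 : 0 ≤ C0 := by positivity
  have hC30 : 0 ≤ C3 := by positivity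
  have hlim : Tendsto (fun a : ℝ => (C0 + C3 * a) * Real.exp (-(c2 / 4 * a))) atTop (𝓝 0) := by
    have h1 : Tendsto (fun a : ℝ => c2 / 4 * a) atTop atTop := tendsto_id.const_mul_atTop (by positivity)
    have h2 := (Real.tendsto_pow_mul_exp_neg_atTop_nhds_zero 1).comp h1
    have h3 := (Real.tendsto_pow_mul_exp_neg_atTop_nhds_zero 0).comp h1
    have h4 := (h3.const_mul C0).add (h2.const_mul (C3 / (c2 / 4)))
    rw [mul_zero, mul_zero, add_zero] at h4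
    refine h4.congr fun a => ?_
    simp only [Function.comp_apply]
    have hcc : c2 / 4 ≠ 0 := by positivity
    have e : C3 / (c2 / 4) * ((c2 / 4 * a) ^ 1 * Real.exp (-(c2 / 4 * a))) = C3 * a * Real.exp (-(c2 / 4 * a)) := by
      rw [pow_one]
      field_simp
    rw [e, pow_zero, one_mul]
    ring
  obtain ⟨A2, hA2⟩ := eventually_atTop.mp (hlim.eventually_lt_const (by norm_num : (0 : ℝ) < 1))
  refine ⟨c2 / 4, 1 / (2 * M + 1), max A (max A1 A2), by positivity, by positivity,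
    fun a haA ha ζ p ν hF => ?_⟩
  simp only [max_le_iff] at haA
  obtain ⟨haA, haA1, haA2⟩ := haA
  set X : ℝ := Real.exp (-(c2 / 4 * Real.exp (2 * a))) with hX
  have hX0 : 0 < X := Real.exp_pos _
  have hX1 : X ≤ 1 := by
    rw [hX]
    apply Real.exp_le_one_iff.mpr
    have : 0 < c2 / 4 * Real.exp (2 * a) := by positivity
    linarith
  have hXX : X ^ 4 = Real.exp (-(c2 * Real.exp (2 * a))) := by
    rw [hX, ← Real.exp_nat_mul]
    congr 1
    push_cast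
    ring
  have hXa : X ≤ Real.exp (-(c2 / 4 * a)) := by
    rw [hX]
    apply Real.exp_le_exp.mpr
    have h5 : a ≤ Real.exp (2 * a) := by
      have := Real.add_one_le_exp (2 * a)
      linarith
    have := mul_le_mul_of_nonneg_left h5 (by positivity : 0 ≤ c2 / 4)
    linarith
  have hmain : (C0 + C3 * a) * X ≤ 1 := by
    have h1 := hA2 a haA2
    have h2 := mul_le_mul_of_nonneg_left hXa (by positivity : 0 ≤ C0 + C3 * a)
    linarith
  have hC0X : C0 * X ≤ 1 := by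
    have : 0 ≤ C3 * a * X := by positivity
    linarith
  have hjX : J a ≤ X ^ 4 := by
    rw [hXX]
    refine (hJ a haA1 ha).trans (Real.exp_le_exp.mpr ?_)
    have : c2 * Real.exp (2 * a) ≤ c1 * Real.exp (2 * a) :=
      mul_le_mul_of_nonneg_right (min_le_right _ _) (Real.exp_pos _).le
    linarith
  have hj0 := hJ0 a ha
  have hTa : TW D w M (M * X ^ 4) a := by
    obtain ⟨g, k1, k2, k3, k4⟩ := hT a haA
    refine ⟨g, k1, k2, k3, fun ρ hρ => (k4 ρ hρ).trans ?_⟩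
    rw [hXX]
    apply mul_le_mul_of_nonneg_left _ hM
    apply Real.exp_le_exp.mpr
    have : c2 * Real.exp (2 * a) ≤ c * Real.exp (2 * a) :=
      mul_le_mul_of_nonneg_right (min_le_left _ _) (Real.exp_pos _).le
    linarith
  have hMX : 3 * M * X ≤ 1 := by
    have : 3 * M * X ≤ C0 * X := by
      apply mul_le_mul_of_nonneg_right _ hX0.le
      have : 0 ≤ 3 * M * mw D w + 12 * M * K + 4 * K := by positivity
      linarith
    linarith
  have hX2 : X ^ 2 ≤ X := by nlinarith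
  have h1 := mass_est_r hR ha hw hM hTa hj0 hF (η := X ^ 2) (δ := X) (r := 1 / (2 * M + 1)) (by positivity)
    (by
      have := mul_le_mul_of_nonneg_left hX2 (by positivity : 0 ≤ 3 * M)
      linarith) hX0 (by
      have : 0 ≤ M * X := by positivity
      linarith) (by
      rw [mul_one_div, div_le_one (by positivity)]
      linarith)
  have hRW : RW D w (M * X ^ 4) = K * X ^ 8 := by
    unfold RW
    rw [hK]
    ring
  rw [hRW] at h1
  set R' : ℝ := K * X ^ 8 + 2 * a * M ^ 2 * J a with hR'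
  have hX8 : X ^ 8 ≤ X ^ 4 := pow_le_pow_of_le_one hX0.le hX1 (by norm_num)
  have hR'X : R' ≤ (K + 2 * a * M ^ 2) * X ^ 4 := by
    have k1 : K * X ^ 8 ≤ K * X ^ 4 := mul_le_mul_of_nonneg_left hX8 hK0
    have k2 : 2 * a * M ^ 2 * J a ≤ 2 * a * M ^ 2 * X ^ 4 := mul_le_mul_of_nonneg_left hjX (by positivity)
    rw [hR']
    linarith
  have hR'0 : 0 ≤ R' := by positivity
  have hdiv : R' / X ^ 2 ≤ (K + 2 * a * M ^ 2) * X ^ 2 := by
    rw [div_le_iff₀ (by positivity)]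
    refine hR'X.trans (le_of_eq ?_)
    ring
  have hR'2 : R' ≤ (K + 2 * a * M ^ 2) * X ^ 2 := by
    refine hR'X.trans ?_
    have : X ^ 4 ≤ X ^ 2 := pow_le_pow_of_le_one hX0.le hX1 (by norm_num)
    gcongr
  have e3 : 4 * (K * X ^ 8) / X ^ 2 = 4 * K * X ^ 6 := by field_simp
  have e4 : 6 * M * R' / X ^ 2 = 6 * M * (R' / X ^ 2) := by ring
  rw [e3, e4] at h1
  have hX6 : X ^ 6 ≤ X ^ 2 := pow_le_pow_of_le_one hX0.le hX1 (by norm_num)
  refine ⟨h1.1.trans ?_, h1.2.trans ?_⟩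
  · have k1 : 6 * M * (R' / X ^ 2) ≤ 6 * M * ((K + 2 * a * M ^ 2) * X ^ 2) :=
      mul_le_mul_of_nonneg_left hdiv (by positivity)
    have k5 : ((C0 + C3 * a) * X) * X ≤ 1 * X := mul_le_mul_of_nonneg_right hmain hX0.le
    have k6 : ((C0 + C3 * a) * X) * X = 3 * M * mw D w * X ^ 2 + 2 * (6 * M * ((K + 2 * a * M ^ 2) * X ^ 2) +
        (K + 2 * a * M ^ 2) * X ^ 2 + (K + 2 * a * M ^ 2) * X ^ 2) + 3 * M * X ^ 2 := by
      rw [hC0, hC3]
      ring
    have k7 : 0 ≤ 3 * M * X ^ 2 := by positivity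
    linarith
  · have k1 : 4 * K * X ^ 6 ≤ 4 * K * X ^ 2 := mul_le_mul_of_nonneg_left hX6 (by positivity)
    have k2 : 4 * K * X ≤ C0 * X := by
      apply mul_le_mul_of_nonneg_right _ hX0.le
      have : 0 ≤ 3 * M * mw D w + 12 * M * K + 3 * M := by positivity
      linarith
    have k3 : (4 * K * X) * X ≤ 1 * X := mul_le_mul_of_nonneg_right (k2.trans hC0X) hX0.le
    have k4 : (4 * K * X) * X = 4 * K * X ^ 2 := by ring
    linarith

open Pool.Agent.V11271.LI (Zr zz)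

open Classical in
/-- the masses near a point of the line -/
theorem zeta_mass_r (hR : ∀ ρ : Zr, (zz ρ).re = 0) {w : ℂ} (hw : w.re = 0) {J : ℝ → ℝ}
    {c1 A1 : ℝ} (hc1 : 0 < c1) (hJ0 : ∀ a : ℝ, 0 < a → 0 ≤ J a)
    (hJ : ∀ a : ℝ, A1 ≤ a → 0 < a → J a ≤ Real.exp (-(c1 * Real.exp (2 * a)))) :
    ∃ c r A : ℝ, 0 < c ∧ 0 < r ∧
    ∀ a : ℝ, A ≤ a → 0 < a → ∀ (ζ : Type) (p : ζ → ℂ) (ν : ζ → ℝ), TraceR zetaDat a (J a) p ν →
      |(∑' s, if ‖p s - w‖ ≤ Real.exp (-(c * Real.exp (2 * a))) then ν s else 0) -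
          (analyticOrderNatAt riemannZeta (1 / 2 + w) : ℝ)| ≤ Real.exp (-(c * Real.exp (2 * a))) ∧
        (∑' s, if Real.exp (-(c * Real.exp (2 * a))) < ‖p s - w‖ ∧ ‖p s - w‖ < r then ν s else 0) ≤
          Real.exp (-(c * Real.exp (2 * a))) := by
  obtain ⟨c, C, hc, hSB⟩ := Rk_SB
  obtain ⟨n, h, hh, hh0, hev⟩ := Gz_factor hw
  obtain ⟨M, c', A, hM, hc', hT⟩ := tfam (D := zetaDat) hR hw hc hSB (G := Gz) (h := h) (n := n)
    hh.continuousAt hh0 hev (fun z hz => LT_Rk hz) (fun ρ => Gz_zero ρ)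
  obtain ⟨c'', r, A', hc'', hr, hA'⟩ := mass_conv_r (D := zetaDat) hR hw hM hc' hT hc1 hJ0 hJ
  rw [mw_eq hw] at hA'
  exact ⟨c'', r, A', hc'', hr, hA'⟩

end Pool.Agent.Helper61.XL
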