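import Pool.Agent.Helper61.GA.Nl

set_option autoImplicit false

/-!
# If some zero is off the line, the form is unbounded below on the normalised test functions
-/

namespace Pool.Agent.Helper61.XL

open Complex Filter Topology Set MeasureTheory
open Pool.Agent.Helper61.W Pool.Agent.Helper61.W.GS Pool.Agent.Helper61.GA
open scoped ComplexConjugate ContDiff Polynomial

variable {D : Dat} {a : ℝ}

/-- a real quadratic polynomial bounded below has a nonnegative leading coefficient -/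
lemma quad_nonneg {m p q r : ℝ} (h : ∀ t : ℝ, m ≤ p + t * q + t ^ 2 * r) : 0 ≤ r := by
  by_contra hr
  push Not at hr
  have h0 := h 0
  have hp : m ≤ p := by simpa using h0
  set s : ℝ := Real.sqrt ((p - m + 1) / (-r)) with hs
  have hs2 : s ^ 2 = (p - m + 1) / (-r) := Real.sq_sqrt (div_nonneg (by linarith) (by linarith))
  have hs3 : s ^ 2 * r = -(p - m + 1) := by
    rw [hs2, div_mul_eq_mul_div, div_eq_iff (by linarith)]
    ring
  have h1 := h s
  have h2 := h (-s)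
  rw [neg_sq] at h2
  linarith

/-- the form is nonnegative on the functions with integral zero -/
lemma nonneg_of_bdd {b : ℝ} (hb : 0 < b)
    (hB : BddBelow {r : ℝ | ∃ g : ℝ → ℂ, g ∈ Ts b ∧ W.LT g 0 = 1 ∧ r = (D.Wf g g).re})
    (h : Ts b) (hh : W.LT (h : ℝ → ℂ) 0 = 0) : 0 ≤ (D.Wf h h).re := by
  obtain ⟨m, hm⟩ := hB
  obtain ⟨g, hg⟩ := exists_eta hb 0
  have key : ∀ t : ℝ, m ≤ (D.Wf g g).re + t * ((D.Wf g h).re + (D.Wf h g).re) + t ^ 2 * (D.Wf h h).re := by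
    intro t
    have tg := Ts.tf g.2
    have th := Ts.tf h.2
    have tth : TF ((t : ℂ) • (h : ℝ → ℂ)) := TF.smul' (t : ℂ) th
    have tgh : TF ((g : ℝ → ℂ) + (t : ℂ) • (h : ℝ → ℂ)) := Ts.tf ((Ts b).add_mem g.2 ((Ts b).smul_mem _ h.2))
    have h1 : (D.Wf ((g : ℝ → ℂ) + (t : ℂ) • (h : ℝ → ℂ)) ((g : ℝ → ℂ) + (t : ℂ) • (h : ℝ → ℂ))).re ∈
        {r : ℝ | ∃ g : ℝ → ℂ, g ∈ Ts b ∧ W.LT g 0 = 1 ∧ r = (D.Wf g g).re} := by
      refine ⟨_, (Ts b).add_mem g.2 ((Ts b).smul_mem _ h.2), ?_, rfl⟩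
      rw [LT_add tg tth, LT_smul, hg, hh, mul_zero, add_zero]
    have h2 := hm h1
    rw [Wf_add_left (D := D) tg tth tgh, Wf_add_right (D := D) tg tth tg, Wf_add_right (D := D) tg tth tth,
      Wf_smul_left (D := D), Wf_smul_left (D := D), Wf_smul_right (D := D), Wf_smul_right (D := D),
      Complex.conj_ofReal] at h2
    simp only [Complex.add_re, Complex.re_ofReal_mul] at h2
    linarith
  exact quad_nonneg key

/-- the positive form on the image of the operator with symbol `z` -/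
noncomputable def pform (D : Dat) {b : ℝ} (hb : 0 < b)
    (hB : BddBelow {r : ℝ | ∃ g : ℝ → ℂ, g ∈ Ts b ∧ W.LT g 0 = 1 ∧ r = (D.Wf g g).re}) : PF (Ts b) where
  B f g := D.Wf (Ao b 0 f) (Ao b 0 g)
  add_left x y z := by
    rw [Ao_add]
    exact Wf_add_left (D := D) (Ts.tf (Ao b 0 x).2) (Ts.tf (Ao b 0 y).2) (Ts.tf (Ao b 0 z).2)
  smul_left c x z := by
    rw [Ao_smul]
    exact Wf_smul_left (D := D) c
  symm x y := Wf_symm (D := D)
  nonneg x := by
    refine nonneg_of_bdd hb hB (Ao b 0 x) ?_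
    rw [LT_Ao]
    simp

lemma Aw_tl {f : ℝ → ℂ} (hf : TF f) (v : ℝ) : Aw 0 (tl f v) = tl (Aw 0 f) v := by
  funext x
  have h1 : deriv (fun x : ℝ => f (x + v)) x = deriv f (x + v) := deriv_comp_add_const (f := f) v x
  show -(deriv (fun x : ℝ => f (x + v)) x + 0 * f (x + v)) = -(deriv f (x + v) + 0 * f (x + v))
  rw [h1]

/-- the form on translates is bounded -/
lemma tl_bdd (ha : 0 < a)
    (hB : ∀ b, 0 < b → BddBelow {r : ℝ | ∃ g : ℝ → ℂ, g ∈ Ts b ∧ W.LT g 0 = 1 ∧ r = (D.Wf g g).re})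
    (f g : Ts a) : ∃ M : ℝ, 0 ≤ M ∧ ∀ v : ℝ, ‖D.Wf (tl (Ao a 0 f : ℝ → ℂ) v) (Ao a 0 g)‖ ≤ M := by
  refine ⟨Real.sqrt (D.Wf (Ao a 0 f) (Ao a 0 f)).re * Real.sqrt (D.Wf (Ao a 0 g) (Ao a 0 g)).re,
    by positivity, fun v => ?_⟩
  set b : ℝ := a + |v| with hb
  have hab : a ≤ b := by rw [hb]; linarith [abs_nonneg v]
  have hbp : 0 < b := ha.trans_le hab
  set F : Ts b := ⟨tl f v, tl_mem f.2 v⟩ with hF
  set G : Ts b := ⟨g, Ts.mono hab g.2⟩ with hG
  have eF : ((Ao b 0 F : Ts b) : ℝ → ℂ) = tl (Ao a 0 f : ℝ → ℂ) v := Aw_tl (Ts.tf f.2) v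
  have eG : ((Ao b 0 G : Ts b) : ℝ → ℂ) = (Ao a 0 g : ℝ → ℂ) := rfl
  have h1 := (pform D hbp (hB b hbp)).norm_le F G
  have e1 : (pform D hbp (hB b hbp)).B F G = D.Wf (tl (Ao a 0 f : ℝ → ℂ) v) (Ao a 0 g) := by
    show D.Wf (Ao b 0 F) (Ao b 0 G) = _
    rw [eF, eG]
  have e2 : (pform D hbp (hB b hbp)).B F F = D.Wf (Ao a 0 f) (Ao a 0 f) := by
    show D.Wf (Ao b 0 F) (Ao b 0 F) = _
    rw [eF]
    exact Wf_tl (D := D) _ _ v
  have e3 : (pform D hbp (hB b hbp)).B G G = D.Wf (Ao a 0 g) (Ao a 0 g) := by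
    show D.Wf (Ao b 0 G) (Ao b 0 G) = _
    rw [eG]
  rw [e1] at h1
  unfold PF.bn at h1
  rw [e2, e3] at h1
  exact h1

/-- a zero off the line contradicts the boundedness of the form on translates -/
lemma core_unbdd (ρ0 : D.ι) (h0 : 0 < (D.z ρ0).re) (ha : 0 < a)
    (hbd : ∀ f g : Ts a, ∃ M : ℝ, 0 ≤ M ∧ ∀ v : ℝ, ‖D.Wf (tl (Ao a 0 f : ℝ → ℂ) v) (Ao a 0 g)‖ ≤ M) :
    False := by
  classical
  -- the kernel
  obtain ⟨k, hk1, hk2, hk3, hk4⟩ := exists_bump one_pos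
  have hkc : Continuous k := hk1.continuous
  have hks : HasCompactSupport k := by
    refine HasCompactSupport.intro (K := Icc (-1) 1) isCompact_Icc fun x hx => hk3 x ?_
    by_contra hlt
    push Not at hlt
    exact hx ⟨(abs_le.mp hlt).1, (abs_le.mp hlt).2⟩
  set N : ℝ := ∫ x, k x with hN
  have hNpos : 0 < N := by
    apply hkc.integral_pos_of_hasCompactSupport_nonneg_nonzero hks hk2 (x := 0)
    rw [hk4]
    exact one_ne_zero
  set β : ℝ := (D.z ρ0).re with hβ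
  set γ : ℝ := (D.z ρ0).im with hγ
  set h : ℝ → ℂ := fun u => ((N⁻¹ * k (u + 2) : ℝ) : ℂ) * cexp ((γ * I) * u) with hh
  have hT : TF h := by
    refine ⟨?_, ?_⟩
    · refine ContDiff.mul (Complex.ofRealCLM.contDiff.comp (contDiff_const.mul (hk1.comp (contDiff_id.add contDiff_const)))) ?_
      exact (contDiff_const.mul Complex.ofRealCLM.contDiff).cexp
    · have h1 : HasCompactSupport fun u : ℝ => k (u + 2) := hks.comp_homeomorph (Homeomorph.addRight (2 : ℝ))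
      have h2 : HasCompactSupport fun u : ℝ => ((N⁻¹ * k (u + 2) : ℝ) : ℂ) := by
        have h3 : HasCompactSupport fun u : ℝ => N⁻¹ * k (u + 2) := h1.mul_left
        exact h3.comp_left (g := fun x : ℝ => (x : ℂ)) Complex.ofReal_zero
      exact h2.mul_right
  have hk2' : ∀ u, 0 ≤ N⁻¹ * k (u + 2) := fun u => mul_nonneg (inv_nonneg.mpr hNpos.le) (hk2 _)
  have hnorm : ∀ u, ‖h u‖ = N⁻¹ * k (u + 2) := by
    intro u
    simp only [hh]
    rw [norm_mul, Complex.norm_real, Real.norm_of_nonneg (hk2' u), Complex.norm_exp]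
    simp
  have hsh : ∫ u : ℝ, k (u + 2) = N := integral_add_right_eq_self k 2
  have h1 : ∫ u, ‖h u‖ ≤ 1 := by
    simp_rw [hnorm]
    rw [integral_const_mul, hsh, inv_mul_cancel₀ hNpos.ne']
  -- the value at the zero
  have hκ : 1 < ‖LT h (-D.z ρ0)‖ := by
    have e1 : LT h (-D.z ρ0) = ((∫ u : ℝ, (N⁻¹ * k (u + 2)) * Real.exp (-β * u) : ℝ) : ℂ) := by
      unfold W.LT
      rw [← integral_complex_ofReal]
      congr 1
      funext u
      simp only [hh]
      have e2 : cexp ((γ * I) * u) * cexp (-D.z ρ0 * u) = ((Real.exp (-β * u) : ℝ) : ℂ) := by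
        rw [← Complex.exp_add, Complex.ofReal_exp]
        congr 1
        have : D.z ρ0 = (β : ℂ) + γ * I := (Complex.re_add_im _).symm
        rw [this]
        push_cast
        ring
      rw [mul_assoc, e2]
      push_cast
      rfl
    have hc1 : Continuous fun u : ℝ => N⁻¹ * k (u + 2) := by fun_prop
    have hs1 : HasCompactSupport fun u : ℝ => k (u + 2) := hks.comp_homeomorph (Homeomorph.addRight (2 : ℝ))
    have hs2 : HasCompactSupport fun u : ℝ => N⁻¹ * k (u + 2) := hs1.mul_left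
    have i1 : Integrable fun u : ℝ => (N⁻¹ * k (u + 2)) * Real.exp (-β * u) := by
      apply Continuous.integrable_of_hasCompactSupport
      · fun_prop
      · exact hs2.mul_right
    have i2 : Integrable fun u : ℝ => (N⁻¹ * k (u + 2)) * Real.exp β := by
      apply Continuous.integrable_of_hasCompactSupport
      · fun_prop
      · exact hs2.mul_right
    have e3 : Real.exp β ≤ ∫ u : ℝ, (N⁻¹ * k (u + 2)) * Real.exp (-β * u) := by
      have e4 : ∫ u : ℝ, (N⁻¹ * k (u + 2)) * Real.exp β = Real.exp β := by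
        rw [integral_mul_const, integral_const_mul, hsh, inv_mul_cancel₀ hNpos.ne', one_mul]
      rw [← e4]
      refine integral_mono i2 i1 fun u => ?_
      simp only
      by_cases hu : 1 < |u + 2|
      · rw [hk3 _ hu]
        simp
      · push Not at hu
        have h2 := (abs_le.mp hu).2
        apply mul_le_mul_of_nonneg_left _ (hk2' u)
        apply Real.exp_le_exp.mpr
        nlinarith
    have e5 : 1 < Real.exp β := Real.one_lt_exp_iff.mpr h0
    rw [e1, Complex.norm_real]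
    exact (e5.trans_le e3).trans_le (le_abs_self _)
  -- the exceptional zeros
  have hbad : {ρ : D.ι | 1 < ‖LT h (-D.z ρ)‖}.Finite := by
    obtain ⟨C, hC, hb⟩ := LT_bound hT D.β
    refine (fin_im (D := D) C).subset fun ρ hρ => ?_
    have h2 : 1 < ‖LT h (-D.z ρ)‖ := hρ
    have h3 := hb (-D.z ρ) (by rw [Complex.neg_re, abs_neg]; exact D.re_le ρ)
    have h4 := h2.trans_le h3
    rw [lt_div_iff₀ (by positivity), one_mul, Complex.neg_im, neg_sq] at h4
    show |(D.z ρ).im| ≤ C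
    have h5 := sq_abs (D.z ρ).im
    nlinarith [sq_nonneg (|(D.z ρ).im| - 1), sq_nonneg ((D.z ρ).im ^ 2)]
  set S : Finset ℂ := (hbad.toFinset.erase ρ0).image D.z with hS
  have hSn : D.z ρ0 ∉ S := by
    intro hmem
    rw [hS, Finset.mem_image] at hmem
    obtain ⟨ρ, h2, h3⟩ := hmem
    exact (Finset.mem_erase.mp h2).1 (D.inj h3)
  obtain ⟨f', hf1', hf2'⟩ := exists_zeros ha (D.z ρ0) S hSn
  obtain ⟨g', hg'⟩ := exists_eta ha (-conj (D.z ρ0))
  have hz0 : D.z ρ0 ≠ 0 := by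
    intro h
    rw [hβ, h, Complex.zero_re] at h0
    exact lt_irrefl _ h0
  set f : Ts a := Ao a 0 f' with hf
  set g : Ts a := Ao a 0 g' with hgdef
  have hf1 : LT f (D.z ρ0) ≠ 0 := by
    rw [hf, LT_Ao, sub_zero]
    exact mul_ne_zero hz0 hf1'
  have hf2 : ∀ z ∈ S, LT f z = 0 := by
    intro z hz
    rw [hf, LT_Ao, hf2' z hz, mul_zero]
  have hg : LT g (-conj (D.z ρ0)) = -conj (D.z ρ0) := by
    rw [hgdef, LT_Ao, hg', sub_zero, mul_one]
  set c : D.ι → ℂ := D.wt f g with hc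
  have hcs : Summable c := summable_wt (D := D) (Ts.tf f.2) (Ts.tf g.2)
  have hc0 : c ρ0 ≠ 0 := by
    rw [hc]
    unfold Dat.wt
    rw [hg]
    refine mul_ne_zero (by exact_mod_cast (by linarith [D.one_le ρ0] : D.m ρ0 ≠ 0)) (mul_ne_zero hf1 ?_)
    simpa using hz0
  have hcbad : ∀ ρ : D.ι, ρ ≠ ρ0 → 1 < ‖LT h (-D.z ρ)‖ → c ρ = 0 := by
    intro ρ hρ h2
    rw [hc]
    unfold Dat.wt
    have h3 : D.z ρ ∈ S := by
      rw [hS]
      apply Finset.mem_image_of_mem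
      rw [Finset.mem_erase]
      exact ⟨hρ, hbad.mem_toFinset.mpr h2⟩
    rw [hf2 _ h3, zero_mul, mul_zero]
  obtain ⟨M, hM0, hM⟩ := hbd f' g'
  have hM' : ∀ v : ℝ, ‖∑' ρ : D.ι, c ρ * cexp (-D.z ρ * v)‖ ≤ M := by
    intro v
    have e : ∑' ρ : D.ι, c ρ * cexp (-D.z ρ * v) = D.Wf (tl f v) g := by
      unfold Dat.Wf
      exact tsum_congr fun ρ => (wt_tl (D := D) f g v ρ).symm
    rw [e]
    exact hM v
  -- conclusion
  have hfin : ∀ n : ℕ, ‖c ρ0‖ * ‖LT h (-D.z ρ0)‖ ^ n ≤ M + ∑' ρ : D.ι, ‖c ρ‖ := by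
    intro n
    obtain ⟨h2, h3⟩ := pow_bound (D := D) hT h1 hM0 n c hcs hM'
    rw [h2.tsum_eq_add_tsum_ite ρ0] at h3
    have h4 : ‖∑' ρ : D.ι, if ρ = ρ0 then 0 else c ρ * LT h (-D.z ρ) ^ n‖ ≤ ∑' ρ : D.ι, ‖c ρ‖ := by
      refine tsum_of_norm_bounded hcs.norm.hasSum fun ρ => ?_
      by_cases h5 : ρ = ρ0
      · rw [if_pos h5, norm_zero]
        exact norm_nonneg _
      · rw [if_neg h5, norm_mul, norm_pow]
        by_cases h6 : 1 < ‖LT h (-D.z ρ)‖
        · rw [hcbad ρ h5 h6, norm_zero, zero_mul]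
        · push Not at h6
          exact mul_le_of_le_one_right (norm_nonneg _) (pow_le_one₀ (norm_nonneg _) h6)
    have h5 : ‖c ρ0 * LT h (-D.z ρ0) ^ n‖ ≤ M + ∑' ρ : D.ι, ‖c ρ‖ := by
      have h6 := norm_sub_le (c ρ0 * LT h (-D.z ρ0) ^ n + ∑' ρ : D.ι, if ρ = ρ0 then 0 else c ρ * LT h (-D.z ρ) ^ n)
        (∑' ρ : D.ι, if ρ = ρ0 then 0 else c ρ * LT h (-D.z ρ) ^ n)
      rw [add_sub_cancel_right] at h6
      linarith
    rwa [norm_mul, norm_pow] at h5
  have h2 : Tendsto (fun n : ℕ => ‖c ρ0‖ * ‖LT h (-D.z ρ0)‖ ^ n) atTop atTop :=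
    (tendsto_pow_atTop_atTop_of_one_lt hκ).const_mul_atTop (norm_pos_iff.mpr hc0)
  obtain ⟨n, hn⟩ := (h2.eventually_gt_atTop (M + ∑' ρ : D.ι, ‖c ρ‖)).exists
  exact absurd (hfin n) (not_le.mpr hn)

/-- if some zero is off the line, the form is unbounded below on the normalised test functions -/
theorem off_unbdd {D : Dat} (h : ∃ ρ : D.ι, (D.z ρ).re ≠ 0) : ∃ a : ℝ, 0 < a ∧
    ¬ BddBelow {r : ℝ | ∃ g : ℝ → ℂ, g ∈ Ts a ∧ W.LT g 0 = 1 ∧ r = (D.Wf g g).re} := by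
  by_contra hcon
  push Not at hcon
  obtain ⟨ρ, hρ⟩ := h
  obtain ⟨ρ0, h0⟩ : ∃ ρ0 : D.ι, 0 < (D.z ρ0).re := by
    rcases lt_or_gt_of_ne hρ with h1 | h1
    · refine ⟨D.refl ρ, ?_⟩
      rw [D.z_refl]
      simpa using h1
    · exact ⟨ρ, h1⟩
  exact core_unbdd ρ0 h0 one_pos (tl_bdd one_pos hcon)

end Pool.Agent.Helper61.XL
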