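import Pool.Agent.Helper61.XL.Cv
import Pool.Agent.Helper61.GA.Gd

set_option autoImplicit false

/-!
# Extremal elements as functions
-/

namespace Pool.Agent.Helper61.XL

open Complex Filter Topology Set MeasureTheory
open Pool.Agent.Helper61.W Pool.Agent.Helper61.W.GS Pool.Agent.Helper61.GA
open scoped ComplexConjugate ContDiff Polynomial

variable {D : Dat} {a : ℝ}

/-- extremal functions -/
def IsX (D : Dat) (a : ℝ) (φ : ℝ → ℂ) : Prop :=
  MemLp φ 2 (volume : Measure ℝ) ∧ (∀ x, a < |x| → φ x = 0) ∧ BddBelow (vals D a) ∧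
    ∃ g : ℕ → ℝ → ℂ, (∀ n, g n ∈ Ts a ∧ W.LT (g n) 0 = 1) ∧ Tendsto (fun n => ∫ x, ‖g n x - φ x‖ ^ 2) atTop (𝓝 0) ∧
      Tendsto (fun n => (D.Wf (g n) (g n)).re) atTop (𝓝 (ival D a))

lemma IsX.mem {φ : ℝ → ℂ} (h : IsX D a φ) : Xt D a (h.1.toLp φ) := by
  obtain ⟨hm, h0, hb, g, hg, h1, h2⟩ := h
  have hlim : Tendsto (fun n => toL a ⟨g n, (hg n).1⟩) atTop (𝓝 (hm.toLp φ)) := by
    rw [tendsto_iff_norm_sub_tendsto_zero]
    have h3 : Tendsto (fun n => Real.sqrt (∫ x, ‖g n x - φ x‖ ^ 2)) atTop (𝓝 0) := by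
      have := h1.sqrt
      rwa [Real.sqrt_zero] at this
    refine h3.congr fun n => ?_
    have := toLp_sub_norm hm ⟨g n, (hg n).1⟩
    simp only at this
    rw [← this, Real.sqrt_sq (norm_nonneg _)]
  exact ⟨fun n => ⟨g n, (hg n).1⟩, ⟨fun n => (hg n).2, h2⟩, hlim⟩

lemma IsX.LT_eq {φ : ℝ → ℂ} (h : IsX D a φ) (z : ℂ) : W.LT φ z = ev a z (h.1.toLp φ) := (ev_of h.1 h.2.1 z).symm

/-- extremal elements are represented by extremal functions -/
lemma exists_IsX (hb : BddBelow (vals D a)) {φ : HL} (h : Xt D a φ) :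
    ∃ f : ℝ → ℂ, IsX D a f ∧ ∀ z, W.LT f z = ev a z φ := by
  obtain ⟨G, ⟨hG1, hG2⟩, h1⟩ := h
  have hmφ := Lp.memLp φ
  have hout : ∫ x in (Icc (-a) a)ᶜ, ‖(φ : ℝ → ℂ) x‖ ^ 2 = 0 := by
    have hle : ∀ n, ∫ x in (Icc (-a) a)ᶜ, ‖(φ : ℝ → ℂ) x‖ ^ 2 ≤ ‖toL a (G n) - φ‖ ^ 2 := by
      intro n
      have e1 : ‖toL a (G n) - φ‖ ^ 2 = ∫ x, ‖((G n : Ts a) : ℝ → ℂ) x - (φ : ℝ → ℂ) x‖ ^ 2 := by
        have := toLp_sub_norm hmφ (G n)
        rwa [Lp.toLp_coeFn] at this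
      rw [e1]
      have hi : Integrable fun x => ‖((G n : Ts a) : ℝ → ℂ) x - (φ : ℝ → ℂ) x‖ ^ 2 :=
        ((Ts.memLp (G n).2).sub hmφ).integrable_norm_pow (by norm_num)
      have e2 : ∫ x in (Icc (-a) a)ᶜ, ‖(φ : ℝ → ℂ) x‖ ^ 2 =
          ∫ x in (Icc (-a) a)ᶜ, ‖((G n : Ts a) : ℝ → ℂ) x - (φ : ℝ → ℂ) x‖ ^ 2 := by
        apply setIntegral_congr_fun measurableSet_Icc.compl
        intro x hx
        simp only
        rw [(G n).2.2 x, zero_sub, norm_neg]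
        by_contra hlt
        push Not at hlt
        exact hx ⟨(abs_le.mp hlt).1, (abs_le.mp hlt).2⟩
      rw [e2]
      exact setIntegral_le_integral hi (Eventually.of_forall fun x => by positivity)
    have hl : Tendsto (fun n => ‖toL a (G n) - φ‖ ^ 2) atTop (𝓝 0) := by
      have := (tendsto_iff_norm_sub_tendsto_zero.mp h1).pow 2
      simpa using this
    refine le_antisymm (ge_of_tendsto' hl hle) ?_
    exact integral_nonneg fun x => by positivity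
  have hae : ∀ᵐ x, x ∈ (Icc (-a) a)ᶜ → (φ : ℝ → ℂ) x = 0 := by
    have hi : IntegrableOn (fun x => ‖(φ : ℝ → ℂ) x‖ ^ 2) (Icc (-a) a)ᶜ :=
      (hmφ.integrable_norm_pow (by norm_num)).integrableOn
    rw [setIntegral_eq_zero_iff_of_nonneg_ae (Eventually.of_forall fun x => by positivity) hi] at hout
    have h3 := (ae_restrict_iff' measurableSet_Icc.compl).mp hout
    filter_upwards [h3] with x hx hx2
    have := hx hx2
    simpa using this
  set f : ℝ → ℂ := indicator (Icc (-a) a) (φ : ℝ → ℂ) with hf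
  have hfe : f =ᵐ[volume] (φ : ℝ → ℂ) := by
    filter_upwards [hae] with x hx
    by_cases hm : x ∈ Icc (-a) a
    · rw [hf, indicator_of_mem hm]
    · rw [hf, indicator_of_notMem hm, hx hm]
  have hmf : MemLp f 2 (volume : Measure ℝ) := (memLp_congr_ae hfe).mpr hmφ
  have hLp : hmf.toLp f = φ := by
    rw [← Lp.toLp_coeFn φ hmφ]
    exact (MemLp.toLp_eq_toLp_iff hmf hmφ).mpr hfe
  have h0 : ∀ x, a < |x| → f x = 0 := by
    intro x hx
    rw [hf, indicator_of_notMem]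
    intro hm
    have := abs_le.mpr ⟨hm.1, hm.2⟩
    linarith
  refine ⟨f, ⟨hmf, h0, hb, fun n => G n, fun n => ⟨(G n).2, hG1 n⟩, ?_, hG2⟩, fun z => ?_⟩
  · have hl : Tendsto (fun n => ‖toL a (G n) - φ‖ ^ 2) atTop (𝓝 0) := by
      have := (tendsto_iff_norm_sub_tendsto_zero.mp h1).pow 2
      simpa using this
    refine hl.congr fun n => ?_
    have := toLp_sub_norm hmf (G n)
    rw [hLp] at this
    exact this
  · show W.LT f z = _
    unfold W.LT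
    rw [← ev_of hmf h0 z, hLp]

/-- the structure of the extremal functions for one interval -/
theorem one_interval (ha : 0 < a) (hl : 0 < D.low a) : ∃ φ : ℝ → ℂ, IsX D a φ ∧
    (∀ z, W.LT φ z = 0 → z.re = 0 ∧ deriv (W.LT φ) z ≠ 0) ∧ ∀ ψ : ℝ → ℂ, IsX D a ψ → ψ =ᵐ[volume] φ := by
  obtain ⟨χ, hχ⟩ := exists_xt ha hl
  obtain ⟨f, hf, hfe⟩ := exists_IsX (vals_bdd ha hl) hχ
  refine ⟨f, hf, fun z hz => ?_, fun ψ hψ => ?_⟩
  · have e : W.LT f = fun z => ev a z χ := funext hfe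
    rw [e] at hz ⊢
    exact xt_zeros ha hl hχ hz
  · have h1 := xt_unique ha hl hψ.mem hf.mem
    exact (MemLp.toLp_eq_toLp_iff hψ.1 hf.1).mp h1

/-- two functions with the same class have the same transform -/
lemma LT_ae {f g : ℝ → ℂ} (h : f =ᵐ[volume] g) : W.LT f = W.LT g := by
  funext z
  unfold W.LT
  apply integral_congr_ae
  filter_upwards [h] with x hx
  rw [hx]

/-- convergence of the extremal functions -/
theorem conv_fun (Y : Sy D) (r : ℝ) {ε : ℝ} (hε : 0 < ε) : ∃ A : ℝ, ∀ a : ℝ, A ≤ a → 0 < a → ∀ φ : ℝ → ℂ,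
    IsX D a φ → ∀ z : ℂ, ‖z‖ ≤ r → ‖W.LT φ z - Pr D z‖ < ε := by
  obtain ⟨A, hA⟩ := conv Y r hε
  refine ⟨A, fun a haA ha φ hφ z hz => ?_⟩
  rw [hφ.LT_eq]
  exact hA a haA ha _ hφ.mem z hz

end Pool.Agent.Helper61.XL
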