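import Pool.Agent.Helper61.XL.Qz
import Pool.Agent.Helper61.XL.Fn

set_option autoImplicit false

/-!
# The form is a sum of squares over the zeros of the extremal function
-/

namespace Pool.Agent.Helper61.XL

open Complex Filter Topology Set MeasureTheory
open Pool.Agent.Helper61.W Pool.Agent.Helper61.W.GS Pool.Agent.Helper61.GA
open scoped ComplexConjugate ContDiff Polynomial

variable {D : Dat} {a : ℝ} (ha : 0 < a) (hl : 0 < D.low a)

include ha hl in
/-- the extremality for general test functions -/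
lemma ival_mul_le (x : Ts a) : ival D a * ‖W.LT x 0‖ ^ 2 ≤ ((qf ha hl).B x x).re := by
  by_cases h : W.LT x 0 = 0
  · rw [h, norm_zero]
    have := (qf ha hl).nonneg x
    simpa using this
  · have h1 := ival_le ha hl ((W.LT x 0)⁻¹ • x) (by rw [LT_smul', inv_mul_cancel₀ h])
    have h2 : ((qf ha hl).B ((W.LT x 0)⁻¹ • x) ((W.LT x 0)⁻¹ • x)).re = (‖W.LT x 0‖ ^ 2)⁻¹ * ((qf ha hl).B x x).re := by
      rw [← (qf ha hl).bn_sq, ← (qf ha hl).bn_sq, (qf ha hl).bn_smul, mul_pow, norm_inv, inv_pow]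
    rw [h2] at h1
    have h3 : 0 < ‖W.LT x 0‖ ^ 2 := by
      have := norm_pos_iff.mpr h
      positivity
    rwa [← div_eq_inv_mul, le_div_iff₀ h3] at h1

/-- the positive form -/
noncomputable def xfP : PF (Ts a) where
  B f g := D.Wf f g - (ival D a : ℂ) * (W.LT f 0 * conj (W.LT g 0))
  add_left x y z := by
    have h1 : D.Wf (x + y : Ts a) z = D.Wf x z + D.Wf y z := (qf ha hl).add_left x y z
    rw [h1, LT_add']
    ring
  smul_left c x z := by
    have h1 : D.Wf (c • x : Ts a) z = c * D.Wf x z := (qf ha hl).smul_left c x z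
    rw [h1, LT_smul']
    ring
  symm x y := by
    have h1 : conj (D.Wf x y) = D.Wf y x := (qf ha hl).symm x y
    rw [map_sub, h1, map_mul, map_mul, Complex.conj_ofReal, Complex.conj_conj]
    ring
  nonneg x := by
    have h1 := ival_mul_le ha hl x
    have h2 : ((qf ha hl).B x x).re = (D.Wf x x).re := rfl
    rw [h2] at h1
    rw [Complex.mul_conj, Complex.normSq_eq_norm_sq, ← Complex.ofReal_mul, Complex.sub_re, Complex.ofReal_re]
    linarith

lemma xfP_self (x : Ts a) : ((xfP ha hl).B x x).re = (D.Wf x x).re - ival D a * ‖W.LT x 0‖ ^ 2 := by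
  show (D.Wf x x - (ival D a : ℂ) * (W.LT x 0 * conj (W.LT x 0))).re = _
  rw [Complex.mul_conj, Complex.normSq_eq_norm_sq, ← Complex.ofReal_mul, Complex.sub_re, Complex.ofReal_re]

/-- the form of the extremal problem -/
noncomputable def xf : NF a where
  pos := ha
  P := xfP ha hl
  adj w k g := by
    show D.Wf (Ao a w k) g - (ival D a : ℂ) * (W.LT (Ao a w k) 0 * conj (W.LT g 0)) =
      -(D.Wf k (Ao a (-conj w) g) - (ival D a : ℂ) * (W.LT k 0 * conj (W.LT (Ao a (-conj w) g) 0)))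
    rw [Wf_adj (D := D), LT_Ao, LT_Ao, map_mul, map_sub, map_neg, Complex.conj_conj, map_zero]
    ring
  h1 w := by
    obtain ⟨C, hC, h⟩ := qn_h1 ha hl w
    refine ⟨C, hC, fun k => le_trans ?_ (h k)⟩
    have h2 : (xfP ha hl).bn k ^ 2 ≤ (qf ha hl).bn k ^ 2 := by
      rw [(xfP ha hl).bn_sq, (qf ha hl).bn_sq, xfP_self]
      have := mul_nonneg (ival_nonneg ha hl) (sq_nonneg ‖W.LT k 0‖)
      show (D.Wf k k).re - _ ≤ (D.Wf k k).re
      linarith
    exact (pow_le_pow_iff_left₀ ((xfP ha hl).bn_nonneg _) ((qf ha hl).bn_nonneg _) (by norm_num)).mp h2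

lemma xf_ap {φ : HL} (hφ : Xt D a φ) : ∃ G : ℕ → Ts a, Ap (xf ha hl) φ G := by
  obtain ⟨G, hG, hlim⟩ := hφ
  refine ⟨G, hlim, ?_⟩
  have h1 : Tendsto (fun n => ((xfP ha hl).B (G n) (G n)).re) atTop (𝓝 0) := by
    have h2 := hG.2.sub_const (ival D a)
    rw [sub_self] at h2
    refine h2.congr fun n => ?_
    rw [xfP_self, hG.1 n, norm_one]
    ring
  have h3 := h1.sqrt
  rw [Real.sqrt_zero] at h3
  exact h3

lemma xf_gen {φ : HL} (hφ : Xt D a φ) : Gen (xf ha hl) φ := by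
  refine ⟨fun z hz => xt_zeros ha hl hφ hz, fun K χ hK hb => ?_, ⟨0, by rw [xt_zero hφ]; exact one_ne_zero⟩⟩
  have h1 : Tendsto (fun n => ((xfP ha hl).B (K n) (K n)).re) atTop (𝓝 0) := by
    have h2 : Tendsto (fun n => (xfP ha hl).bn (K n) ^ 2) atTop (𝓝 0) := by
      have := Tendsto.pow (show Tendsto (fun n => (xfP ha hl).bn (K n)) atTop (𝓝 0) from hb) 2
      simpa using this
    exact h2.congr fun n => (xfP ha hl).bn_sq _
  have h2 : Tendsto (fun n => W.LT (K n) 0) atTop (𝓝 (ev a 0 χ)) := by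
    refine (((ev a 0).continuous.tendsto χ).comp hK).congr fun n => ?_
    show ev a 0 (toL a (K n)) = _
    rw [ev_toL]
  have h3 : Tendsto (fun n => (D.Wf (K n) (K n)).re) atTop (𝓝 (ival D a * ‖ev a 0 χ‖ ^ 2)) := by
    have h4 := h1.add ((h2.norm.pow 2).const_mul (ival D a))
    rw [zero_add] at h4
    refine h4.congr fun n => ?_
    rw [xfP_self]
    ring
  by_cases hc : ev a 0 χ = 0
  · rw [hc, norm_zero] at h3
    have h4 : Tendsto (fun n => (qf ha hl).bn (K n) ^ 2) atTop (𝓝 0) := by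
      have h5 : ival D a * (0 : ℝ) ^ 2 = 0 := by ring
      rw [h5] at h3
      exact h3.congr fun n => ((qf ha hl).bn_sq (K n)).symm
    have h5 := norm_tendsto ha hl h4
    have h6 : χ = 0 := tendsto_nhds_unique hK h5
    refine ⟨0, fun z => ?_⟩
    rw [h6]
    simp
  · set c := ev a 0 χ with hcdef
    -- normalise
    have hev : ∀ᶠ n in atTop, W.LT (K n) 0 ≠ 0 := h2.eventually_ne hc
    obtain ⟨η, hη⟩ := exists_eta ha 0
    set H : ℕ → Ts a := fun n => if W.LT (K n) 0 = 0 then η else (W.LT (K n) 0)⁻¹ • K n with hH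
    have hH1 : ∀ n, W.LT (H n) 0 = 1 := by
      intro n
      simp only [hH]
      split_ifs with h
      · exact hη
      · rw [LT_smul', inv_mul_cancel₀ h]
    have hHe : ∀ᶠ n in atTop, H n = (W.LT (K n) 0)⁻¹ • K n := by
      filter_upwards [hev] with n hn
      simp only [hH]
      rw [if_neg hn]
    have hcn : ‖c‖ ^ 2 ≠ 0 := pow_ne_zero 2 (norm_ne_zero_iff.mpr hc)
    have hH2 : Tendsto (fun n => (D.Wf (H n) (H n)).re) atTop (𝓝 (ival D a)) := by
      have h4 := (h2.norm.pow 2).inv₀ hcn |>.mul h3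
      have e : (‖c‖ ^ 2)⁻¹ * (ival D a * ‖c‖ ^ 2) = ival D a := by field_simp
      rw [e] at h4
      refine h4.congr' ?_
      filter_upwards [hHe] with n hn
      rw [hn]
      have h5 : ((qf ha hl).B ((W.LT (K n) 0)⁻¹ • K n) ((W.LT (K n) 0)⁻¹ • K n)).re =
          (‖W.LT (K n) 0‖ ^ 2)⁻¹ * ((qf ha hl).B (K n) (K n)).re := by
        rw [← (qf ha hl).bn_sq, ← (qf ha hl).bn_sq, (qf ha hl).bn_smul, mul_pow, norm_inv, inv_pow]
      exact h5.symm
    have hH3 : Tendsto (fun n => toL a (H n)) atTop (𝓝 (c⁻¹ • χ)) := by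
      refine ((h2.inv₀ hc).smul hK).congr' ?_
      filter_upwards [hHe] with n hn
      rw [hn, map_smul]
    have h4 : Xt D a (c⁻¹ • χ) := ⟨H, ⟨hH1, hH2⟩, hH3⟩
    have h5 := xt_unique ha hl h4 hφ
    refine ⟨Polynomial.C c, fun z => ?_⟩
    rw [Polynomial.eval_C, ← h5, map_smul, smul_eq_mul, mul_inv_cancel_left₀ hc]

include ha hl in
/-- the quadrature formula -/
theorem quadrature {φ : HL} (hφ : Xt D a φ) : ∃ ν : ℂ → ℝ, (∀ w, ev a w φ = 0 → 0 < ν w) ∧ ∀ f g : Ts a,
    HasSum (fun w : {w : ℂ // ev a w φ = 0} => (ν w : ℂ) * (W.LT f w * conj (W.LT g w)))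
      (D.Wf f g - (ival D a : ℂ) * (W.LT f 0 * conj (W.LT g 0))) :=
  quad (F := xf ha hl) (xf_ap ha hl hφ) (xf_gen ha hl hφ)

end Pool.Agent.Helper61.XL
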