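import Pool.Agent.Helper61.XL.Fl

set_option autoImplicit false

/-!
# Convergence of the extremal functions
-/

namespace Pool.Agent.Helper61.XL

open Complex Filter Topology Set MeasureTheory
open Pool.Agent.Helper61.W Pool.Agent.Helper61.W.GS Pool.Agent.Helper61.GA
open scoped ComplexConjugate ContDiff Polynomial

variable {D : Dat} {a : ℝ} (Y : Sy D)

include Y

/-- the minimum tends to zero -/
lemma ival_upper : ∃ K : ℝ, 0 ≤ K ∧ ∀ a : ℝ, 0 < a → ival D a ≤ K / a ^ 2 := by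
  obtain ⟨η, hη⟩ := exists_eta one_pos 0
  obtain ⟨C, hC, hb⟩ := LT_bound (Ts.tf η.2) 0
  obtain ⟨δ, hδ, hgap⟩ := GA.gap (D := D) 0
  set S : ℝ := ∑' ρ : D.ι, D.m ρ / (1 + |(D.z ρ).im|) ^ (2 : ℝ) with hS
  have hS0 : 0 ≤ S := tsum_nonneg fun ρ => div_nonneg (D.m_nonneg ρ) (by positivity)
  set κ : ℝ := (1 + δ) / δ with hκ
  refine ⟨C ^ 2 * κ ^ 2 * S, by positivity, fun a ha => ?_⟩
  have hLT0 : W.LT (gs η a 0) 0 = 1 := by
    rw [LT_gs ha, sub_zero, mul_zero, hη]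
  have h1 := ival_le ha (low_pos Y.hR ha) (⟨gs η a 0, gs_mem η.2 ha 0⟩ : Ts a) hLT0
  refine h1.trans ?_
  show (D.Wf (gs η a 0) (gs η a 0)).re ≤ _
  rw [Wf_self_eq Y.hR, Complex.ofReal_re]
  have h2 : ∀ ρ : D.ι, D.m ρ * ‖W.LT (gs η a 0) (D.z ρ)‖ ^ 2 ≤
      C ^ 2 * κ ^ 2 / a ^ 2 * (D.m ρ / (1 + |(D.z ρ).im|) ^ (2 : ℝ)) := by
    intro ρ
    rw [LT_gs ha, sub_zero]
    set t : ℝ := (D.z ρ).im with ht
    have hz : D.z ρ = (t : ℂ) * I := z_eq Y ρ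
    have e1 : ((a : ℂ) * D.z ρ).re = 0 := by
      rw [hz]
      simp
    have e2 : ((a : ℂ) * D.z ρ).im = a * t := by
      rw [hz]
      simp
    have h3 := hb ((a : ℂ) * D.z ρ) (by rw [e1, abs_zero])
    rw [e2] at h3
    have h4 : δ ≤ |t| := by
      have h5 := hgap ρ (Y.h0 ρ)
      rw [sub_zero, hz, norm_mul, Complex.norm_I, mul_one, Complex.norm_real, Real.norm_eq_abs] at h5
      exact h5
    have ht0 : 0 < |t| := hδ.trans_le h4
    have h5 : ‖W.LT η ((a : ℂ) * D.z ρ)‖ ^ 2 ≤ C ^ 2 / (a ^ 2 * t ^ 2) := by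
      have h6 := pow_le_pow_left₀ (norm_nonneg _) h3 2
      refine h6.trans ?_
      rw [div_pow]
      have ht2 : 0 < t ^ 2 := by
        rw [← sq_abs]
        positivity
      apply div_le_div_of_nonneg_left (sq_nonneg _) (by positivity)
      have h7 : 1 ≤ 1 + (a * t) ^ 2 := by nlinarith [sq_nonneg (a * t)]
      calc a ^ 2 * t ^ 2 = (a * t) ^ 2 := by ring
        _ ≤ 1 + (a * t) ^ 2 := by linarith
        _ ≤ (1 + (a * t) ^ 2) ^ 2 := le_self_pow₀ h7 (by norm_num)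
        _ ≤ ((1 + (a * t) ^ 2) ^ 2) ^ 2 := le_self_pow₀ (one_le_pow₀ h7) (by norm_num)
    have h8 : (1 + |t|) ^ (2 : ℝ) = (1 + |t|) ^ 2 := by norm_cast
    rw [h8]
    have h9 : (1 + |t|) ^ 2 ≤ κ ^ 2 * t ^ 2 := by
      rw [← sq_abs t, ← mul_pow]
      apply pow_le_pow_left₀ (by positivity)
      rw [hκ, div_mul_eq_mul_div, le_div_iff₀ hδ]
      nlinarith
    have hm := D.m_nonneg ρ
    have ht2 : 0 < t ^ 2 := by
      rw [← sq_abs]
      positivity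
    calc D.m ρ * ‖W.LT η ((a : ℂ) * D.z ρ)‖ ^ 2 ≤ D.m ρ * (C ^ 2 / (a ^ 2 * t ^ 2)) :=
          mul_le_mul_of_nonneg_left h5 hm
      _ ≤ C ^ 2 * κ ^ 2 / a ^ 2 * (D.m ρ / (1 + |t|) ^ 2) := by
          rw [← mul_div_assoc, div_mul_div_comm, div_le_div_iff₀ (by positivity) (by positivity)]
          calc D.m ρ * C ^ 2 * (a ^ 2 * (1 + |t|) ^ 2) ≤ D.m ρ * C ^ 2 * (a ^ 2 * (κ ^ 2 * t ^ 2)) := by gcongr
            _ = _ := by ring
  have h3 := (summable_sq Y.hR (⟨gs η a 0, gs_mem η.2 ha 0⟩ : Ts a)).tsum_le_tsum h2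
    (D.sum.mul_left (C ^ 2 * κ ^ 2 / a ^ 2))
  refine h3.trans (le_of_eq ?_)
  rw [tsum_mul_left, ← hS]
  ring

omit Y in
/-- the lower bound for a factor -/
lemma factor_low {g ε : ℝ} (hg : 0 < g) (hε : 0 < ε) : ∃ κ : ℝ, 0 ≤ κ ∧ ∀ s : ℝ, 0 < s → ε ≤ |s - g| →
    Real.exp (-(κ * (1 / s ^ 2))) ≤ |1 - g ^ 2 / s ^ 2| := by
  set c : ℝ := ε / (4 * g) with hc
  have hc0 : 0 < c := by positivity
  refine ⟨2 * g ^ 2 + 4 * g ^ 2 * |Real.log c|, by positivity, fun s hs h => ?_⟩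
  rcases le_or_gt (2 * g) s with h1 | h1
  · set u : ℝ := g ^ 2 / s ^ 2 with hu
    have hu0 : 0 ≤ u := by positivity
    have hu1 : u ≤ 1 / 4 := by
      rw [hu, div_le_div_iff₀ (by positivity) (by norm_num)]
      nlinarith
    have h2 : Real.exp (-(2 * u)) ≤ 1 - u := by
      have h3 := Real.add_one_le_exp (2 * u)
      rw [Real.exp_neg, inv_le_comm₀ (Real.exp_pos _) (by linarith)]
      refine le_trans ?_ h3
      rw [inv_le_iff_one_le_mul₀ (by linarith)]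
      nlinarith
    rw [abs_of_nonneg (show 0 ≤ 1 - u by linarith)]
    refine le_trans (Real.exp_le_exp.mpr ?_) h2
    have h3 : 2 * u = 2 * g ^ 2 * (1 / s ^ 2) := by rw [hu]; ring
    rw [h3]
    have h4 : 0 ≤ 4 * g ^ 2 * |Real.log c| * (1 / s ^ 2) := by positivity
    nlinarith
  · have h2 : c ≤ |1 - g ^ 2 / s ^ 2| := by
      have e : 1 - g ^ 2 / s ^ 2 = (s - g) * (s + g) / s ^ 2 := by
        field_simp
        ring
      rw [e, abs_div, abs_mul, abs_of_pos (by positivity : 0 < s + g), abs_of_pos (by positivity : 0 < s ^ 2), hc,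
        div_le_div_iff₀ (by positivity) (by positivity)]
      calc ε * s ^ 2 ≤ |s - g| * s ^ 2 := mul_le_mul_of_nonneg_right h (sq_nonneg _)
        _ ≤ |s - g| * ((s + g) * (4 * g)) := by
          apply mul_le_mul_of_nonneg_left _ (abs_nonneg _)
          nlinarith
        _ = _ := by ring
    refine le_trans ?_ h2
    rw [← Real.exp_log hc0]
    apply Real.exp_le_exp.mpr
    rw [Real.log_exp]
    have h3 : |Real.log c| ≤ (2 * g ^ 2 + 4 * g ^ 2 * |Real.log c|) * (1 / s ^ 2) := by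
      rw [mul_one_div, le_div_iff₀ (by positivity)]
      have h4 : s ^ 2 ≤ 4 * g ^ 2 := by nlinarith
      nlinarith [mul_le_mul_of_nonneg_left h4 (abs_nonneg (Real.log c)), sq_nonneg g]
    have h5 := neg_abs_le (Real.log c)
    linarith

/-- an extremal element without a zero near `g` is not small at `g` -/
lemma lower {g ε : ℝ} (hg : 0 < g) (hε : 0 < ε) : ∃ c : ℝ, 0 < c ∧ ∀ (a : ℝ) (_ : 0 < a) (φ : HL), Xt D a φ →
    (∀ s ∈ Sz a φ, ε ≤ |s - g|) → c ≤ ‖ev a ((g : ℂ) * I) φ‖ := by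
  obtain ⟨κ, hκ, hf⟩ := factor_low hg hε
  refine ⟨Real.exp (-(κ * ∑' ρ : Pz D, 1 / gm ρ ^ 2)), Real.exp_pos _, fun a ha φ hφ h => ?_⟩
  have hp := sz_prod Y ha hφ ((g : ℂ) * I)
  have h1 : Tendsto (fun U : Finset (Sz a φ) => ∏ s ∈ U, (1 + ((g : ℂ) * I) ^ 2 / (((s : ℝ) : ℂ)) ^ 2)) atTop
      (𝓝 (ev a ((g : ℂ) * I) φ)) := by
    simpa [HasProd] using hp
  refine ge_of_tendsto' h1.norm fun U => ?_
  rw [norm_prod]
  have h2 : ∀ s : Sz a φ, Real.exp (-(κ * (1 / (s : ℝ) ^ 2))) ≤ ‖1 + ((g : ℂ) * I) ^ 2 / (((s : ℝ) : ℂ)) ^ 2‖ := by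
    intro s
    have e : 1 + ((g : ℂ) * I) ^ 2 / (((s : ℝ) : ℂ)) ^ 2 = ((1 - g ^ 2 / (s : ℝ) ^ 2 : ℝ) : ℂ) := by
      rw [mul_pow, Complex.I_sq]
      push_cast
      ring
    rw [e, Complex.norm_real]
    exact hf s s.2.1 (h s s.2)
  calc Real.exp (-(κ * ∑' ρ : Pz D, 1 / gm ρ ^ 2)) ≤ Real.exp (∑ s ∈ U, -(κ * (1 / (s : ℝ) ^ 2))) := by
        apply Real.exp_le_exp.mpr
        rw [Finset.sum_neg_distrib, ← Finset.mul_sum]
        exact neg_le_neg (mul_le_mul_of_nonneg_left (sum_s_le Y ha hφ U) hκ)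
    _ = ∏ s ∈ U, Real.exp (-(κ * (1 / (s : ℝ) ^ 2))) := Real.exp_sum _ _
    _ ≤ _ := Finset.prod_le_prod (fun s _ => (Real.exp_pos _).le) fun s _ => h2 s

/-- every ordinate is approached -/
theorem near (ρ0 : Pz D) {ε : ℝ} (hε : 0 < ε) : ∃ A : ℝ, ∀ a : ℝ, A ≤ a → ∀ (_ : 0 < a) (φ : HL), Xt D a φ →
    ∃ s ∈ Sz a φ, |s - gm ρ0| < ε := by
  obtain ⟨c, hc, hlow⟩ := lower Y (gm_pos ρ0) hε
  obtain ⟨K, hK, hup⟩ := ival_upper Y
  refine ⟨Real.sqrt K / c + 1, fun a haA ha φ hφ => ?_⟩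
  by_contra hcon
  push Not at hcon
  have h1 := hlow a ha φ hφ hcon
  have h2 := xt_bound ha (low_pos Y.hR ha) Y.hR hφ (ρ0 : D.ι)
  have h3 : ev a (D.z ρ0) φ = ev a ((gm ρ0 : ℂ) * I) φ := by
    rw [z_eq Y ρ0]
    rfl
  rw [h3] at h2
  have h4 := hup a ha
  have h5 : c ^ 2 ≤ K / a ^ 2 := by
    refine le_trans ?_ (h2.trans h4)
    calc c ^ 2 ≤ ‖ev a ((gm ρ0 : ℂ) * I) φ‖ ^ 2 := pow_le_pow_left₀ hc.le h1 2
      _ ≤ _ := le_mul_of_one_le_left (sq_nonneg _) (D.one_le ρ0)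
  rw [le_div_iff₀ (by positivity), ← mul_pow] at h5
  have h6 : c * a ≤ Real.sqrt K := Real.le_sqrt_of_sq_le h5
  have h7 : Real.sqrt K < c * a := by
    have h8 : Real.sqrt K / c < a := by linarith
    rwa [div_lt_iff₀ hc, mul_comm] at h8
  linarith

/-- every ordinate is approached from above -/
theorem near_above (n : ℕ) : ∀ (ρ0 : Pz D), {ρ : Pz D | gm ρ < gm ρ0}.ncard = n → ∀ ε : ℝ, 0 < ε →
    ∃ A : ℝ, ∀ a : ℝ, A ≤ a → ∀ (_ : 0 < a) (φ : HL), Xt D a φ → ∃ s ∈ Sz a φ, gm ρ0 ≤ s ∧ s < gm ρ0 + ε := by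
  induction n using Nat.strong_induction_on with
  | _ n ih =>
    intro ρ0 hcard ε hε
    have hfin : {ρ : Pz D | gm ρ < gm ρ0}.Finite := (fin_gm (gm ρ0)).subset fun ρ hρ =>
      show gm ρ ≤ gm ρ0 from le_of_lt (show gm ρ < gm ρ0 from hρ)
    rcases {ρ : Pz D | gm ρ < gm ρ0}.eq_empty_or_nonempty with he | hne
    · obtain ⟨A, hA⟩ := near Y ρ0 hε
      refine ⟨A, fun a haA ha φ hφ => ?_⟩
      obtain ⟨s, hs, h1⟩ := hA a haA ha φ hφ
      refine ⟨s, hs, ?_, by linarith [(abs_lt.mp h1).2]⟩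
      by_contra hlt
      push Not at hlt
      obtain ⟨ρ, hρ⟩ := sz_low Y ha hφ hs
      have : ρ ∈ {ρ : Pz D | gm ρ < gm ρ0} := hρ.trans hlt
      rw [he] at this
      exact this
    · obtain ⟨ρ1, h1, hmax⟩ := hfin.exists_maximalFor gm _ hne
      have h1' : gm ρ1 < gm ρ0 := h1
      have hlt : {ρ : Pz D | gm ρ < gm ρ1}.ncard < n := by
        rw [← hcard]
        apply Set.ncard_lt_ncard _ hfin
        refine ⟨fun ρ hρ => lt_trans (show gm ρ < gm ρ1 from hρ) h1', fun hsub => ?_⟩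
        exact lt_irrefl _ (show gm ρ1 < gm ρ1 from hsub h1')
      set e : ℝ := min ε ((gm ρ0 - gm ρ1) / 2) with he
      have hep : 0 < e := lt_min hε (by linarith)
      obtain ⟨A1, hA1⟩ := ih _ hlt ρ1 rfl e hep
      obtain ⟨A2, hA2⟩ := near Y ρ0 hep
      refine ⟨max A1 A2, fun a haA ha φ hφ => ?_⟩
      obtain ⟨s1, hs1, h2, h3⟩ := hA1 a ((le_max_left _ _).trans haA) ha φ hφ
      obtain ⟨s, hs, h4⟩ := hA2 a ((le_max_right _ _).trans haA) ha φ hφ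
      have he1 : e ≤ ε := min_le_left _ _
      have he2 : e ≤ (gm ρ0 - gm ρ1) / 2 := min_le_right _ _
      obtain ⟨h5, h6⟩ := abs_lt.mp h4
      refine ⟨s, hs, ?_, by linarith⟩
      by_contra hlt
      push Not at hlt
      obtain ⟨ρ, h7, h8⟩ := sz_gap Y ha hφ hs1 hs (by linarith)
      have h9 : gm ρ < gm ρ0 := h8.trans hlt
      have h10 : gm ρ ≤ gm ρ1 := by
        rcases le_total (gm ρ) (gm ρ1) with h | h
        · exact h
        · exact hmax (show gm ρ < gm ρ0 from h9) h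
      linarith

/-! ### the products -/

/-- the parameters of the product -/
noncomputable def xx (ha : 0 < a) {φ : HL} (hφ : Xt D a φ) (ρ : Pz D) : ℝ := by
  classical
  exact if h : ∃ s : Sz a φ, tau Y ha hφ s = ρ then 1 / (h.choose : ℝ) ^ 2 else 0

lemma xx_tau (ha : 0 < a) {φ : HL} (hφ : Xt D a φ) (s : Sz a φ) : xx Y ha hφ (tau Y ha hφ s) = 1 / (s : ℝ) ^ 2 := by
  have h : ∃ s' : Sz a φ, tau Y ha hφ s' = tau Y ha hφ s := ⟨s, rfl⟩
  unfold xx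
  rw [dif_pos h, tau_inj Y ha hφ h.choose_spec]

lemma xx_none (ha : 0 < a) {φ : HL} (hφ : Xt D a φ) {ρ : Pz D} (h : ρ ∉ range (tau Y ha hφ)) : xx Y ha hφ ρ = 0 := by
  unfold xx
  rw [dif_neg]
  rintro ⟨s, hs⟩
  exact h ⟨s, hs⟩

lemma xx_nonneg (ha : 0 < a) {φ : HL} (hφ : Xt D a φ) (ρ : Pz D) : 0 ≤ xx Y ha hφ ρ := by
  by_cases h : ρ ∈ range (tau Y ha hφ)
  · obtain ⟨s, rfl⟩ := h
    rw [xx_tau]
    positivity
  · rw [xx_none Y ha hφ h]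

lemma xx_le (ha : 0 < a) {φ : HL} (hφ : Xt D a φ) (ρ : Pz D) : xx Y ha hφ ρ ≤ 1 / gm ρ ^ 2 := by
  by_cases h : ρ ∈ range (tau Y ha hφ)
  · obtain ⟨s, rfl⟩ := h
    rw [xx_tau]
    exact inv_le_tau Y ha hφ s
  · rw [xx_none Y ha hφ h]
    positivity

lemma xx_prod (ha : 0 < a) {φ : HL} (hφ : Xt D a φ) (z : ℂ) :
    HasProd (fun ρ : Pz D => 1 + z ^ 2 * (xx Y ha hφ ρ : ℂ)) (ev a z φ) := by
  rw [← (tau_inj Y ha hφ).hasProd_iff (fun ρ hρ => by rw [xx_none Y ha hφ hρ, Complex.ofReal_zero, mul_zero, add_zero])]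
  refine (sz_prod Y ha hφ z).congr_fun fun s => ?_
  simp only [Function.comp]
  rw [xx_tau]
  push_cast
  ring

omit Y in
lemma prod_diff {ι : Type} (x y : ι → ℝ) (hx : ∀ i, 0 ≤ x i) (hxy : ∀ i, x i ≤ y i) (w : ℂ) (U : Finset ι) :
    ‖∏ i ∈ U, (1 + w * (x i : ℂ)) - ∏ i ∈ U, (1 + w * (y i : ℂ))‖ ≤
      ‖w‖ * Real.exp (‖w‖ * ∑ i ∈ U, y i) * ∑ i ∈ U, (y i - x i) := by
  classical
  induction U using Finset.induction_on with
  | empty => simp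
  | insert i U hi ih =>
    rw [Finset.prod_insert hi, Finset.prod_insert hi, Finset.sum_insert hi, Finset.sum_insert hi]
    set X := ∏ i ∈ U, (1 + w * (x i : ℂ)) with hX
    set Z := ∏ i ∈ U, (1 + w * (y i : ℂ)) with hZ
    set s := ∑ i ∈ U, y i with hs
    set t := ∑ i ∈ U, (y i - x i) with ht
    have hy : ∀ i, 0 ≤ y i := fun i => (hx i).trans (hxy i)
    have ht0 : 0 ≤ t := Finset.sum_nonneg fun i _ => sub_nonneg.mpr (hxy i)
    have hXb : ‖X‖ ≤ Real.exp (‖w‖ * s) := by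
      rw [hX, norm_prod, hs, Finset.mul_sum, Real.exp_sum]
      apply Finset.prod_le_prod (fun i _ => norm_nonneg _)
      intro i _
      calc ‖1 + w * (x i : ℂ)‖ ≤ ‖(1 : ℂ)‖ + ‖w * (x i : ℂ)‖ := norm_add_le _ _
        _ = 1 + ‖w‖ * x i := by rw [norm_one, norm_mul, Complex.norm_real, Real.norm_of_nonneg (hx i)]
        _ ≤ 1 + ‖w‖ * y i := by linarith [mul_le_mul_of_nonneg_left (hxy i) (norm_nonneg w)]
        _ ≤ Real.exp (‖w‖ * y i) := by linarith [Real.add_one_le_exp (‖w‖ * y i)]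
    have hYb : ‖1 + w * (y i : ℂ)‖ ≤ Real.exp (‖w‖ * y i) := by
      calc ‖1 + w * (y i : ℂ)‖ ≤ ‖(1 : ℂ)‖ + ‖w * (y i : ℂ)‖ := norm_add_le _ _
        _ = 1 + ‖w‖ * y i := by rw [norm_one, norm_mul, Complex.norm_real, Real.norm_of_nonneg (hy i)]
        _ ≤ Real.exp (‖w‖ * y i) := by linarith [Real.add_one_le_exp (‖w‖ * y i)]
    have e : (1 + w * (x i : ℂ)) * X - (1 + w * (y i : ℂ)) * Z = w * ((x i - y i : ℝ) : ℂ) * X +
        (1 + w * (y i : ℂ)) * (X - Z) := by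
      push_cast
      ring
    rw [e]
    refine (norm_add_le _ _).trans ?_
    rw [norm_mul, norm_mul, norm_mul, Complex.norm_real, Real.norm_eq_abs, abs_sub_comm,
      abs_of_nonneg (sub_nonneg.mpr (hxy i)), mul_add ‖w‖, Real.exp_add]
    have hE1 : 1 ≤ Real.exp (‖w‖ * y i) := Real.one_le_exp (mul_nonneg (norm_nonneg _) (hy i))
    have hE2 := Real.exp_pos (‖w‖ * s)
    have h1 : ‖w‖ * (y i - x i) * ‖X‖ ≤ ‖w‖ * (y i - x i) * (Real.exp (‖w‖ * y i) * Real.exp (‖w‖ * s)) := by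
      apply mul_le_mul_of_nonneg_left _ (mul_nonneg (norm_nonneg _) (sub_nonneg.mpr (hxy i)))
      calc ‖X‖ ≤ 1 * Real.exp (‖w‖ * s) := by rw [one_mul]; exact hXb
        _ ≤ _ := mul_le_mul_of_nonneg_right hE1 hE2.le
    have h2 : ‖1 + w * (y i : ℂ)‖ * ‖X - Z‖ ≤ Real.exp (‖w‖ * y i) * (‖w‖ * Real.exp (‖w‖ * s) * t) :=
      mul_le_mul hYb ih (norm_nonneg _) (Real.exp_pos _).le
    calc ‖w‖ * (y i - x i) * ‖X‖ + ‖1 + w * (y i : ℂ)‖ * ‖X - Z‖ ≤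
        ‖w‖ * (y i - x i) * (Real.exp (‖w‖ * y i) * Real.exp (‖w‖ * s)) +
          Real.exp (‖w‖ * y i) * (‖w‖ * Real.exp (‖w‖ * s) * t) := add_le_add h1 h2
      _ = _ := by ring

/-- the limit function -/
noncomputable def Pr (D : Dat) (z : ℂ) : ℂ := ∏' ρ : Pz D, (1 + z ^ 2 * ((1 / gm ρ ^ 2 : ℝ) : ℂ))

omit Y in
lemma pr_prod (z : ℂ) : HasProd (fun ρ : Pz D => 1 + z ^ 2 * ((1 / gm ρ ^ 2 : ℝ) : ℂ)) (Pr D z) := by
  apply Multipliable.hasProd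
  apply Complex.multipliable_one_add_of_summable
  apply Summable.of_norm
  refine ((summable_y (D := D)).mul_left (‖z‖ ^ 2)).congr fun ρ => ?_
  rw [norm_mul, norm_pow, Complex.norm_real, Real.norm_of_nonneg (by positivity)]

/-- the difference to the limit function -/
lemma ev_sub_pr (ha : 0 < a) {φ : HL} (hφ : Xt D a φ) (z : ℂ) : ‖ev a z φ - Pr D z‖ ≤
    ‖z‖ ^ 2 * Real.exp (‖z‖ ^ 2 * ∑' ρ : Pz D, 1 / gm ρ ^ 2) * ∑' ρ : Pz D, (1 / gm ρ ^ 2 - xx Y ha hφ ρ) := by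
  have h1 : Tendsto (fun U : Finset (Pz D) => ∏ ρ ∈ U, (1 + z ^ 2 * (xx Y ha hφ ρ : ℂ))) atTop (𝓝 (ev a z φ)) := by
    simpa [HasProd] using xx_prod Y ha hφ z
  have h2 : Tendsto (fun U : Finset (Pz D) => ∏ ρ ∈ U, (1 + z ^ 2 * ((1 / gm ρ ^ 2 : ℝ) : ℂ))) atTop
      (𝓝 (Pr D z)) := by
    have := pr_prod (D := D) z
    unfold HasProd at this
    simpa only [SummationFilter.unconditional_filter] using this
  refine le_of_tendsto (h1.sub h2).norm (Eventually.of_forall fun U => ?_)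
  have hs : Summable fun ρ : Pz D => 1 / gm ρ ^ 2 - xx Y ha hφ ρ :=
    (summable_y (D := D)).of_nonneg_of_le (fun ρ => sub_nonneg.mpr (xx_le Y ha hφ ρ))
      (fun ρ => by linarith [xx_nonneg Y ha hφ ρ])
  have h3 := prod_diff (xx Y ha hφ) (fun ρ : Pz D => 1 / gm ρ ^ 2) (xx_nonneg Y ha hφ) (xx_le Y ha hφ) (z ^ 2) U
  rw [norm_pow] at h3
  refine h3.trans ?_
  have h4 : ∑ ρ ∈ U, 1 / gm ρ ^ 2 ≤ ∑' ρ : Pz D, 1 / gm ρ ^ 2 :=
    summable_y.sum_le_tsum _ fun ρ _ => by positivity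
  have h5 : ∑ ρ ∈ U, (1 / gm ρ ^ 2 - xx Y ha hφ ρ) ≤ ∑' ρ : Pz D, (1 / gm ρ ^ 2 - xx Y ha hφ ρ) :=
    hs.sum_le_tsum _ fun ρ _ => sub_nonneg.mpr (xx_le Y ha hφ ρ)
  have h6 : 0 ≤ ∑ ρ ∈ U, (1 / gm ρ ^ 2 - xx Y ha hφ ρ) :=
    Finset.sum_nonneg fun ρ _ => sub_nonneg.mpr (xx_le Y ha hφ ρ)
  apply mul_le_mul _ h5 h6 (by positivity)
  apply mul_le_mul_of_nonneg_left _ (by positivity)
  apply Real.exp_le_exp.mpr
  exact mul_le_mul_of_nonneg_left h4 (by positivity)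

/-- the parameters converge -/
lemma xx_tendsto (ρ0 : Pz D) {ε : ℝ} (hε : 0 < ε) : ∃ A : ℝ, ∀ a : ℝ, A ≤ a → ∀ (ha : 0 < a) (φ : HL) (hφ : Xt D a φ),
    1 / gm ρ0 ^ 2 - xx Y ha hφ ρ0 < ε := by
  have hg := gm_pos ρ0
  obtain ⟨δ, hδ, hgap⟩ := GA.gap (D := D) (D.z ρ0)
  -- a small interval
  have hcont : ContinuousAt (fun t : ℝ => 1 / gm ρ0 ^ 2 - 1 / (gm ρ0 + t) ^ 2) 0 := by
    have : (gm ρ0 + 0) ^ 2 ≠ 0 := by positivity
    fun_prop (disch := assumption)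
  have h0 : (fun t : ℝ => 1 / gm ρ0 ^ 2 - 1 / (gm ρ0 + t) ^ 2) 0 < ε := by
    simp only [add_zero, sub_self]
    exact hε
  have hev := hcont.eventually_lt_const h0
  obtain ⟨e, he, hball⟩ := Metric.eventually_nhds_iff.mp hev
  set e' : ℝ := min (e / 2) δ with he'
  have hep : 0 < e' := lt_min (by positivity) hδ
  obtain ⟨A, hA⟩ := near_above Y _ ρ0 rfl e' hep
  refine ⟨A, fun a haA ha φ hφ => ?_⟩
  obtain ⟨s, hs, h1, h2⟩ := hA a haA ha φ hφ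
  have hfl : Fl ρ0 s := by
    refine ⟨h1, fun ρ' hρ' => ?_⟩
    by_contra hlt
    push Not at hlt
    have h3 := hgap ρ' (by
      intro h
      have : gm ρ' = gm ρ0 := by
        show (D.z ρ').im = (D.z ρ0).im
        rw [h]
      linarith)
    rw [z_eq Y ρ', z_eq Y ρ0, ← sub_mul, norm_mul, Complex.norm_I, mul_one, ← Complex.ofReal_sub, Complex.norm_real,
      Real.norm_eq_abs] at h3
    have h4 : |gm ρ' - gm ρ0| < δ := by
      rw [abs_of_pos (by linarith)]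
      have := min_le_right (e / 2) δ
      linarith
    exact absurd h3 (not_le.mpr h4)
  have htau : tau Y ha hφ ⟨s, hs⟩ = ρ0 := by
    have h3 := tau_spec Y ha hφ ⟨s, hs⟩
    apply gm_inj Y
    exact le_antisymm (hfl.2 _ h3.1) (h3.2 _ hfl.1)
  rw [← htau, xx_tau, htau]
  have h3 : dist (s - gm ρ0) 0 < e := by
    rw [Real.dist_eq, sub_zero, abs_of_nonneg (by linarith)]
    have := min_le_left (e / 2) δ
    linarith
  have h4 := hball h3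
  rwa [add_sub_cancel] at h4

/-- the extremal functions converge -/
theorem conv (r : ℝ) {ε : ℝ} (hε : 0 < ε) : ∃ A : ℝ, ∀ a : ℝ, A ≤ a → 0 < a → ∀ φ : HL, Xt D a φ → ∀ z : ℂ,
    ‖z‖ ≤ r → ‖ev a z φ - Pr D z‖ < ε := by
  classical
  have hex : ∀ a : ℝ, ∃ φ : HL, 0 < a → Xt D a φ := by
    intro a
    by_cases ha : 0 < a
    · obtain ⟨φ, hφ⟩ := exists_xt ha (low_pos Y.hR ha)
      exact ⟨φ, fun _ => hφ⟩
    · exact ⟨0, fun h => absurd h ha⟩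
  choose Φ hΦ using hex
  set X : ℝ → Pz D → ℝ := fun a ρ => if ha : 0 < a then 1 / gm ρ ^ 2 - xx Y ha (hΦ a ha) ρ else 0 with hX
  have hX0 : Tendsto (fun a => ∑' ρ : Pz D, X a ρ) atTop (𝓝 (∑' _ : Pz D, (0 : ℝ))) := by
    apply tendsto_tsum_of_dominated_convergence (summable_y (D := D))
    · intro ρ
      rw [Metric.tendsto_atTop]
      intro ε hε
      obtain ⟨A, hA⟩ := xx_tendsto Y ρ hε
      refine ⟨max A 1, fun a haA => ?_⟩
      have ha : 0 < a := lt_of_lt_of_le one_pos ((le_max_right _ _).trans haA)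
      have h1 := hA a ((le_max_left _ _).trans haA) ha _ (hΦ a ha)
      simp only [hX]
      rw [dif_pos ha, Real.dist_eq, sub_zero, abs_of_nonneg (sub_nonneg.mpr (xx_le Y ha _ ρ))]
      exact h1
    · refine Eventually.of_forall fun a ρ => ?_
      simp only [hX]
      by_cases ha : 0 < a
      · rw [dif_pos ha, Real.norm_eq_abs, abs_of_nonneg (sub_nonneg.mpr (xx_le Y ha _ ρ))]
        linarith [xx_nonneg Y ha (hΦ a ha) ρ]
      · rw [dif_neg ha, norm_zero]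
        positivity
  rw [tsum_zero] at hX0
  set K : ℝ := (max r 0) ^ 2 * Real.exp ((max r 0) ^ 2 * ∑' ρ : Pz D, 1 / gm ρ ^ 2) with hK
  have hX1 := hX0.const_mul K
  rw [mul_zero] at hX1
  obtain ⟨A, hA⟩ := eventually_atTop.mp (hX1.eventually_lt_const hε)
  refine ⟨A, fun a haA ha φ hφ z hz => ?_⟩
  have hφe : φ = Φ a := xt_unique ha (low_pos Y.hR ha) hφ (hΦ a ha)
  subst hφe
  have h1 := hA a haA
  have h2 := ev_sub_pr Y ha (hΦ a ha) z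
  refine h2.trans_lt (lt_of_le_of_lt ?_ h1)
  have e : (∑' ρ : Pz D, X a ρ) = ∑' ρ : Pz D, (1 / gm ρ ^ 2 - xx Y ha (hΦ a ha) ρ) := by
    simp only [hX]
    refine tsum_congr fun ρ => ?_
    rw [dif_pos ha]
  rw [e]
  have h3 : 0 ≤ ∑' ρ : Pz D, (1 / gm ρ ^ 2 - xx Y ha (hΦ a ha) ρ) :=
    tsum_nonneg fun ρ => sub_nonneg.mpr (xx_le Y ha _ ρ)
  apply mul_le_mul_of_nonneg_right _ h3
  have hB : 0 ≤ ∑' ρ : Pz D, 1 / gm ρ ^ 2 := tsum_nonneg fun ρ => by positivity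
  have hz' : ‖z‖ ≤ max r 0 := hz.trans (le_max_left _ _)
  rw [hK]
  gcongr

end Pool.Agent.Helper61.XL
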