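import Pool.Agent.Helper61.XL.Pos

set_option autoImplicit false

/-!
# Extremal functions: existence, uniqueness, orthogonality
-/

namespace Pool.Agent.Helper61.XL

open Complex Filter Topology Set MeasureTheory
open Pool.Agent.Helper61.W Pool.Agent.Helper61.W.GS Pool.Agent.Helper61.GA
open scoped ComplexConjugate ContDiff Polynomial

variable {D : Dat} {a : ℝ}

/-- the values of the form at the normalised test functions -/
def vals (D : Dat) (a : ℝ) : Set ℝ := {r : ℝ | ∃ g : ℝ → ℂ, g ∈ Ts a ∧ W.LT g 0 = 1 ∧ r = (D.Wf g g).re}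

/-- the minimum -/
noncomputable def ival (D : Dat) (a : ℝ) : ℝ := sInf (vals D a)

/-- minimising sequences -/
def Mins (D : Dat) (a : ℝ) (G : ℕ → Ts a) : Prop :=
  (∀ n, W.LT (G n) 0 = 1) ∧ Tendsto (fun n => (D.Wf (G n) (G n)).re) atTop (𝓝 (ival D a))

/-- extremal elements -/
def Xt (D : Dat) (a : ℝ) (φ : HL) : Prop := ∃ G : ℕ → Ts a, Mins D a G ∧ Tendsto (fun n => toL a (G n)) atTop (𝓝 φ)

lemma vals_nonempty (ha : 0 < a) : (vals D a).Nonempty := by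
  obtain ⟨η, hη⟩ := exists_eta ha 0
  exact ⟨_, η, η.2, hη, rfl⟩

variable (ha : 0 < a) (hl : 0 < D.low a)

include ha hl

lemma vals_bdd : BddBelow (vals D a) := by
  refine ⟨0, ?_⟩
  rintro _ ⟨g, hg, _, rfl⟩
  exact (qf ha hl).nonneg ⟨g, hg⟩

lemma ival_le (g : Ts a) (h : W.LT g 0 = 1) : ival D a ≤ ((qf ha hl).B g g).re :=
  csInf_le (vals_bdd ha hl) ⟨g, g.2, h, rfl⟩

lemma ival_nonneg : 0 ≤ ival D a := by
  apply le_csInf (vals_nonempty ha)
  rintro _ ⟨g, hg, _, rfl⟩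
  exact (qf ha hl).nonneg ⟨g, hg⟩

lemma exists_mins : ∃ G : ℕ → Ts a, Mins D a G := by
  have h1 : ∀ n : ℕ, ∃ g : Ts a, W.LT g 0 = 1 ∧ (D.Wf g g).re < ival D a + 1 / ((n : ℝ) + 1) := by
    intro n
    have h2 : sInf (vals D a) < ival D a + 1 / ((n : ℝ) + 1) := by
      have : (0 : ℝ) < 1 / ((n : ℝ) + 1) := by positivity
      show ival D a < _
      linarith
    obtain ⟨r, ⟨g, hg, h3, rfl⟩, h4⟩ := exists_lt_of_csInf_lt (vals_nonempty ha) h2
    exact ⟨⟨g, hg⟩, h3, h4⟩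
  choose G hG1 hG2 using h1
  refine ⟨G, hG1, ?_⟩
  have h3 : Tendsto (fun n : ℕ => ival D a + 1 / ((n : ℝ) + 1)) atTop (𝓝 (ival D a)) := by
    have := (tendsto_one_div_add_atTop_nhds_zero_nat (𝕜 := ℝ)).const_add (ival D a)
    rwa [add_zero] at this
  exact tendsto_of_tendsto_of_tendsto_of_le_of_le tendsto_const_nhds h3 (fun n => ival_le ha hl _ (hG1 n))
    (fun n => (hG2 n).le)

lemma parallelogram (x y : Ts a) : (qf ha hl).bn (x - y) ^ 2 + (qf ha hl).bn (x + y) ^ 2 =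
    2 * (qf ha hl).bn x ^ 2 + 2 * (qf ha hl).bn y ^ 2 := by
  set P := qf ha hl
  rw [P.bn_sq, P.bn_sq, P.bn_sq, P.bn_sq, sub_eq_add_neg, P.add_left, P.add_right, P.add_right, P.neg_left, P.neg_left,
    P.neg_right, P.neg_right, P.add_left, P.add_right, P.add_right]
  simp only [Complex.add_re, Complex.neg_re]
  ring

omit ha hl in
lemma LT_add' (x y : Ts a) (z : ℂ) : W.LT (x + y : Ts a) z = W.LT x z + W.LT y z := by
  rw [← ev_toL, ← ev_toL, ← ev_toL, map_add, map_add]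

omit ha hl in
lemma LT_sub' (x y : Ts a) (z : ℂ) : W.LT (x - y : Ts a) z = W.LT x z - W.LT y z := by
  rw [← ev_toL, ← ev_toL, ← ev_toL, map_sub, map_sub]

omit ha hl in
lemma LT_smul' (c : ℂ) (x : Ts a) (z : ℂ) : W.LT (c • x : Ts a) z = c * W.LT x z := by
  rw [← ev_toL, ← ev_toL, map_smul, map_smul, smul_eq_mul]

lemma diff_bound (x y : Ts a) (hx : W.LT x 0 = 1) (hy : W.LT y 0 = 1) : (qf ha hl).bn (x - y) ^ 2 ≤
    2 * ((qf ha hl).bn x ^ 2 - ival D a) + 2 * ((qf ha hl).bn y ^ 2 - ival D a) := by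
  have h1 := parallelogram ha hl x y
  have h2 : ival D a ≤ (qf ha hl).bn ((1 / 2 : ℂ) • (x + y)) ^ 2 := by
    rw [(qf ha hl).bn_sq]
    apply ival_le ha hl
    rw [LT_smul', LT_add', hx, hy]
    norm_num
  rw [(qf ha hl).bn_smul, mul_pow] at h2
  have e : ‖(1 / 2 : ℂ)‖ ^ 2 = 1 / 4 := by
    norm_num
  rw [e] at h2
  linarith

/-- the norm is controlled by the form -/
lemma norm_le_bn (x : Ts a) : D.low a * ‖toL a x‖ ^ 2 ≤ (qf ha hl).bn x ^ 2 := by
  rw [(qf ha hl).bn_sq]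
  exact GA.low_le (D := D) ha x

lemma norm_tendsto {x : ℕ → Ts a} (h : Tendsto (fun n => (qf ha hl).bn (x n) ^ 2) atTop (𝓝 0)) :
    Tendsto (fun n => toL a (x n)) atTop (𝓝 0) := by
  have h1 : Tendsto (fun n => ‖toL a (x n)‖ ^ 2) atTop (𝓝 0) := by
    have h2 := h.const_mul ((D.low a)⁻¹)
    rw [mul_zero] at h2
    refine squeeze_zero (fun n => sq_nonneg _) (fun n => ?_) h2
    rw [← div_eq_inv_mul, le_div_iff₀ hl, mul_comm]
    exact norm_le_bn ha hl _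
  have h2 := h1.sqrt
  rw [Real.sqrt_zero] at h2
  rw [tendsto_zero_iff_norm_tendsto_zero]
  refine h2.congr fun n => ?_
  rw [Real.sqrt_sq (norm_nonneg _)]

lemma mins_close {G H : ℕ → Ts a} (hG : Mins D a G) (hH : Mins D a H) :
    Tendsto (fun n => toL a (G n - H n)) atTop (𝓝 0) := by
  apply norm_tendsto ha hl
  have h1 : ∀ n, (qf ha hl).bn (G n - H n) ^ 2 ≤ 2 * ((D.Wf (G n) (G n)).re - ival D a) +
      2 * ((D.Wf (H n) (H n)).re - ival D a) := by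
    intro n
    have := diff_bound ha hl (G n) (H n) (hG.1 n) (hH.1 n)
    rwa [(qf ha hl).bn_sq (G n), (qf ha hl).bn_sq (H n)] at this
  have h2 := ((hG.2.sub_const (ival D a)).const_mul 2).add ((hH.2.sub_const (ival D a)).const_mul 2)
  rw [sub_self, mul_zero, add_zero] at h2
  exact squeeze_zero (fun n => sq_nonneg _) h1 h2

lemma mins_limit {G H : ℕ → Ts a} (hG : Mins D a G) (hH : Mins D a H) {φ : HL}
    (h : Tendsto (fun n => toL a (G n)) atTop (𝓝 φ)) : Tendsto (fun n => toL a (H n)) atTop (𝓝 φ) := by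
  have h1 := h.sub (mins_close ha hl hG hH)
  rw [sub_zero] at h1
  refine h1.congr fun n => ?_
  rw [map_sub]
  abel

lemma mins_cauchy {G : ℕ → Ts a} (hG : Mins D a G) : CauchySeq fun n => toL a (G n) := by
  rw [Metric.cauchySeq_iff]
  intro ε hε
  have h2 := (hG.2.sub_const (ival D a))
  rw [sub_self] at h2
  have h3 := h2.eventually_lt_const (show 0 < D.low a * ε ^ 2 / 4 by positivity)
  obtain ⟨N, hN⟩ := eventually_atTop.mp h3
  refine ⟨N, fun m hm n hn => ?_⟩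
  have h4 := diff_bound ha hl (G m) (G n) (hG.1 m) (hG.1 n)
  rw [(qf ha hl).bn_sq (G m), (qf ha hl).bn_sq (G n)] at h4
  have h5 : ((qf ha hl).B (G m) (G m)).re - ival D a < D.low a * ε ^ 2 / 4 := hN m hm
  have h6 : ((qf ha hl).B (G n) (G n)).re - ival D a < D.low a * ε ^ 2 / 4 := hN n hn
  have h7 := norm_le_bn ha hl (G m - G n)
  have h8 : D.low a * ‖toL a (G m - G n)‖ ^ 2 < D.low a * ε ^ 2 := by linarith
  have h9 : ‖toL a (G m - G n)‖ ^ 2 < ε ^ 2 := lt_of_mul_lt_mul_left h8 hl.le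
  rw [dist_eq_norm, ← map_sub]
  exact lt_of_pow_lt_pow_left₀ 2 hε.le h9

lemma exists_xt : ∃ φ : HL, Xt D a φ := by
  obtain ⟨G, hG⟩ := exists_mins ha hl
  obtain ⟨φ, hφ⟩ := cauchySeq_tendsto_of_complete (mins_cauchy ha hl hG)
  exact ⟨φ, G, hG, hφ⟩

lemma xt_unique {φ ψ : HL} (h1 : Xt D a φ) (h2 : Xt D a ψ) : φ = ψ := by
  obtain ⟨G, hG, hφ⟩ := h1
  obtain ⟨H, hH, hψ⟩ := h2
  exact tendsto_nhds_unique (mins_limit ha hl hG hH hφ) hψ

omit ha hl in
lemma xt_zero {φ : HL} (h : Xt D a φ) : ev a 0 φ = 1 := by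
  obtain ⟨G, hG, hφ⟩ := h
  have h1 := ((ev a 0).continuous.tendsto φ).comp hφ
  refine tendsto_nhds_unique h1 (tendsto_const_nhds.congr fun n => ?_)
  show 1 = ev a 0 (toL a (G n))
  rw [ev_toL, hG.1]

/-- orthogonality -/
lemma orth (g h : Ts a) (hg : W.LT g 0 = 1) (hh : W.LT h 0 = 0) :
    ‖D.Wf g h‖ ^ 2 ≤ ((qf ha hl).bn g ^ 2 - ival D a) * (qf ha hl).bn h ^ 2 := by
  set P := qf ha hl with hP
  set B : ℂ := P.B g h with hB
  have hBW : D.Wf g h = B := rfl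
  rw [hBW, P.bn_sq, P.bn_sq]
  set β : ℝ := ‖B‖ ^ 2 with hβ
  have hβ0 : 0 ≤ β := sq_nonneg _
  have key : ∀ s : ℝ, 0 ≤ (P.B g g).re - ival D a - 2 * s * β + s ^ 2 * β * (P.B h h).re := by
    intro s
    have h1 := ival_le ha hl (g + (-(s : ℂ) * B) • h) (by rw [LT_add', LT_smul', hg, hh]; simp)
    have e : ((qf ha hl).B (g + (-(s : ℂ) * B) • h) (g + (-(s : ℂ) * B) • h)).re =
        (P.B g g).re - 2 * s * β + s ^ 2 * β * (P.B h h).re := by
      rw [← hP, P.add_left, P.add_right, P.add_right, P.smul_left, P.smul_left, P.smul_right, P.smul_right]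
      have e1 : P.B h g = conj B := (P.symm g h).symm
      have e2 : B * conj B = ((β : ℝ) : ℂ) := by
        rw [Complex.mul_conj, Complex.normSq_eq_norm_sq]
      have e3 : conj (-(s : ℂ) * B) = -(s : ℂ) * conj B := by
        rw [map_mul, map_neg, Complex.conj_ofReal]
      rw [e1, e3, ← hB]
      have e4 : P.B g g + -(s : ℂ) * conj B * B + (-(s : ℂ) * B * conj B + -(s : ℂ) * B * (-(s : ℂ) * conj B * P.B h h)) =
          P.B g g - ((2 * s * β : ℝ) : ℂ) + ((s ^ 2 * β : ℝ) : ℂ) * P.B h h := by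
        push_cast at e2 ⊢
        linear_combination (-2 * (s : ℂ) + (s : ℂ) ^ 2 * P.B h h) * e2
      rw [e4, Complex.add_re, Complex.sub_re, Complex.ofReal_re, Complex.re_ofReal_mul]
    rw [e] at h1
    linarith
  have hW : 0 ≤ (P.B h h).re := P.nonneg h
  set δ : ℝ := (P.B g g).re - ival D a with hδ
  set w : ℝ := (P.B h h).re with hw
  have hδ0 : 0 ≤ δ := by
    have := key 0
    simpa using this
  rcases hβ0.lt_or_eq with hb | hb
  · have h2 := discrim_le_zero (a := β * w) (b := -2 * β) (c := δ) fun s => by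
      have := key s
      nlinarith
    unfold discrim at h2
    have h3 : β * β ≤ β * (δ * w) := by nlinarith
    exact le_of_mul_le_mul_left h3 hb
  · rw [← hb]
    positivity

/-- asymptotically orthogonal sequences -/
def Orth (G : ℕ → Ts a) : Prop :=
  ∃ e : ℕ → ℝ, Tendsto e atTop (𝓝 0) ∧ ∀ n (h : Ts a), W.LT h 0 = 0 → ‖D.Wf (G n) h‖ ≤ e n * (qf ha hl).bn h

lemma mins_orth {G : ℕ → Ts a} (hG : Mins D a G) : Orth ha hl G := by
  refine ⟨fun n => Real.sqrt ((D.Wf (G n) (G n)).re - ival D a), ?_, fun n h hh => ?_⟩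
  · have h2 := (hG.2.sub_const (ival D a)).sqrt
    rwa [sub_self, Real.sqrt_zero] at h2
  · have h1 := orth ha hl (G n) h (hG.1 n) hh
    rw [(qf ha hl).bn_sq (G n)] at h1
    have h0 : 0 ≤ (D.Wf (G n) (G n)).re - ival D a := sub_nonneg.mpr (ival_le ha hl _ (hG.1 n))
    have h2 : ‖D.Wf (G n) h‖ ^ 2 ≤ (Real.sqrt ((D.Wf (G n) (G n)).re - ival D a) * (qf ha hl).bn h) ^ 2 := by
      rw [mul_pow, Real.sq_sqrt h0]
      exact h1
    exact (pow_le_pow_iff_left₀ (norm_nonneg _) (mul_nonneg (Real.sqrt_nonneg _) ((qf ha hl).bn_nonneg _))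
      (by norm_num)).mp h2

lemma orth_adjust {G : ℕ → Ts a} (hG : Orth ha hl G) {c : ℕ → ℂ} (hc : Tendsto c atTop (𝓝 0)) (η : Ts a) :
    Orth ha hl fun n => G n - c n • η := by
  obtain ⟨e, he, h⟩ := hG
  refine ⟨fun n => e n + ‖c n‖ * (qf ha hl).bn η, ?_, fun n k hk => ?_⟩
  · have := he.add (hc.norm.mul_const ((qf ha hl).bn η))
    rwa [norm_zero, zero_mul, add_zero] at this
  · have e1 : D.Wf ((G n - c n • η : Ts a) : ℝ → ℂ) k = D.Wf (G n) k - c n * D.Wf η k := by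
      have h1 : (qf ha hl).B (G n - c n • η) k = (qf ha hl).B (G n) k - c n * (qf ha hl).B η k := by
        rw [sub_eq_add_neg, (qf ha hl).add_left, (qf ha hl).neg_left, (qf ha hl).smul_left]
        ring
      exact h1
    rw [e1]
    refine (norm_sub_le _ _).trans ?_
    rw [norm_mul, add_mul, mul_assoc]
    exact add_le_add (h n k hk) (mul_le_mul_of_nonneg_left ((qf ha hl).norm_le η k) (norm_nonneg _))

lemma mins_bounded {G : ℕ → Ts a} (hG : Mins D a G) : ∃ M : ℝ, ∀ n, (qf ha hl).bn (G n) ≤ M := by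
  have h1 : Tendsto (fun n => (qf ha hl).bn (G n)) atTop (𝓝 (Real.sqrt (ival D a))) := hG.2.sqrt
  obtain ⟨M, hM⟩ := h1.bddAbove_range
  exact ⟨M, fun n => hM ⟨n, rfl⟩⟩

omit ha hl in
lemma conv_bounded {c : ℕ → ℂ} (hc : Tendsto c atTop (𝓝 0)) : ∃ M : ℝ, ∀ n, ‖c n‖ ≤ M := by
  obtain ⟨M, hM⟩ := hc.norm.bddAbove_range
  exact ⟨M, fun n => hM ⟨n, rfl⟩⟩

lemma adjust_bounded {G : ℕ → Ts a} {M : ℝ} (hG : ∀ n, (qf ha hl).bn (G n) ≤ M) {c : ℕ → ℂ}
    (hc : Tendsto c atTop (𝓝 0)) (η : Ts a) : ∃ M' : ℝ, ∀ n, (qf ha hl).bn (G n - c n • η) ≤ M' := by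
  obtain ⟨K, hK⟩ := conv_bounded hc
  refine ⟨M + K * (qf ha hl).bn η, fun n => ?_⟩
  refine ((qf ha hl).bn_sub _ _).trans ?_
  rw [(qf ha hl).bn_smul]
  exact add_le_add (hG n) (mul_le_mul_of_nonneg_right (hK n) ((qf ha hl).bn_nonneg _))

/-- the form is bounded by the norm of the first derivative -/
lemma qn_h1 (w : ℂ) : ∃ C : ℝ, 0 ≤ C ∧ ∀ k : Ts a, (qf ha hl).bn k ≤ C * ‖toL a (Ao a w k)‖ := by
  obtain ⟨C1, hC1, h1⟩ := GA.bn_h1 (D := D) ha w
  obtain ⟨C2, hC2, h2⟩ := inv_bound ha w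
  refine ⟨Real.sqrt (C1 ^ 2 + |D.low a| * C2 ^ 2), Real.sqrt_nonneg _, fun k => ?_⟩
  have h3 : (qf ha hl).bn k ^ 2 ≤ (Real.sqrt (C1 ^ 2 + |D.low a| * C2 ^ 2) * ‖toL a (Ao a w k)‖) ^ 2 := by
    rw [mul_pow, Real.sq_sqrt (by positivity), (qf ha hl).bn_sq]
    have e1 := GA.form_self (D := D) ha k
    rw [← (D.form ha).bn_sq] at e1
    have e2 : ((qf ha hl).B k k).re = (D.form ha).bn k ^ 2 + D.low a * ‖toL a k‖ ^ 2 := by
      rw [e1]
      show (D.Wf k k).re = _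
      ring
    rw [e2, add_mul]
    have e3 : (D.form ha).bn k ^ 2 ≤ C1 ^ 2 * ‖toL a (Ao a w k)‖ ^ 2 := by
      rw [← mul_pow]
      exact pow_le_pow_left₀ ((D.form ha).bn_nonneg _) (h1 k) 2
    have e4 : ‖toL a k‖ ^ 2 ≤ C2 ^ 2 * ‖toL a (Ao a w k)‖ ^ 2 := by
      rw [← mul_pow]
      exact pow_le_pow_left₀ (norm_nonneg _) (h2 k) 2
    have e5 : D.low a * ‖toL a k‖ ^ 2 ≤ |D.low a| * (C2 ^ 2 * ‖toL a (Ao a w k)‖ ^ 2) :=
      (mul_le_mul_of_nonneg_right (le_abs_self _) (sq_nonneg _)).trans (mul_le_mul_of_nonneg_left e4 (abs_nonneg _))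
    rw [mul_assoc |D.low a|]
    exact add_le_add e3 e5
  exact (pow_le_pow_iff_left₀ ((qf ha hl).bn_nonneg _) (by positivity) (by norm_num)).mp h3

end Pool.Agent.Helper61.XL
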