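import Pool.Agent.Helper61.XL.Hm

set_option autoImplicit false

/-!
# The product of an even entire function with simple zeros on the imaginary axis

The case of simple zeros of `even_product_mult` (every order is one).
-/

namespace Pool.Agent.Helper61.XL

open Complex Filter Topology Set

theorem even_product {F : ℂ → ℂ} (hF : Differentiable ℂ F) (h0 : F 0 = 1) (heven : ∀ z, F (-z) = F z) {C : ℝ}
    (hg : ∀ z, ‖F z‖ ≤ Real.exp (C * (1 + ‖z‖) ^ (3 / 2 : ℝ))) {S : Set ℝ} (hS : ∀ σ ∈ S, 0 < σ)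
    (hz : ∀ z, F z = 0 ↔ ∃ σ ∈ S, z = (σ : ℂ) * I ∨ z = -((σ : ℂ) * I)) (hs : ∀ z, F z = 0 → deriv F z ≠ 0) :
    ∃ hfin : ∀ R : ℝ, (S ∩ Set.Iio R).Finite, ∀ z : ℂ,
      Tendsto (fun R : ℝ => ∏ σ ∈ (hfin R).toFinset, (1 + z ^ 2 / (σ : ℂ) ^ 2)) atTop (𝓝 (F z)) := by
  obtain ⟨hfin, h⟩ := even_product_mult hF h0 heven hg hS hz
  refine ⟨hfin, fun z => ?_⟩
  refine (h z).congr fun R => Finset.prod_congr rfl fun σ hσ => ?_
  have hσS : σ ∈ S := ((hfin R).mem_toFinset.1 hσ).1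
  have h1 : F ((σ : ℂ) * I) = 0 := (hz _).2 ⟨σ, hσS, Or.inl rfl⟩
  have h2 : analyticOrderAt F ((σ : ℂ) * I) = 1 :=
    (hF.analyticAt _).analyticOrderAt_eq_one_of_zero_deriv_ne_zero h1 (hs _ h1)
  have h3 : analyticOrderNatAt F ((σ : ℂ) * I) = 1 := by
    unfold analyticOrderNatAt
    rw [h2]
    rfl
  rw [h3, pow_one]

end Pool.Agent.Helper61.XL
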