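import Pool.Agent.Helper61.XL.Ze
import Pool.Agent.Helper61.XL.Had

set_option autoImplicit false

/-!
# The zeros of extremal functions and the configuration: the floor map and the product
-/

namespace Pool.Agent.Helper61.XL

open Complex Filter Topology Set MeasureTheory
open Pool.Agent.Helper61.W Pool.Agent.Helper61.W.GS Pool.Agent.Helper61.GA
open scoped ComplexConjugate ContDiff Polynomial

variable {D : Dat} {a : ℝ}

/-- a symmetric configuration on the line, without a zero at the central point -/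
structure Sy (D : Dat) where
  hR : ∀ ρ : D.ι, (D.z ρ).re = 0
  h0 : ∀ ρ : D.ι, D.z ρ ≠ 0
  σ : D.ι ≃ D.ι
  hσ : ∀ ρ, D.z (σ ρ) = -D.z ρ
  hm : ∀ ρ, D.m (σ ρ) = D.m ρ

/-- the positive ordinates -/
abbrev Pz (D : Dat) : Type := {ρ : D.ι // 0 < (D.z ρ).im}

/-- the ordinate -/
noncomputable def gm (ρ : Pz D) : ℝ := (D.z ρ).im

lemma gm_pos (ρ : Pz D) : 0 < gm ρ := ρ.2

/-- the positive ordinates of the zeros of an element -/
def Sz (a : ℝ) (φ : HL) : Set ℝ := {s : ℝ | 0 < s ∧ ev a ((s : ℂ) * I) φ = 0}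

variable (Y : Sy D)

include Y

lemma z_eq (ρ : D.ι) : D.z ρ = ((D.z ρ).im : ℂ) * I := by
  apply Complex.ext
  · simp [Y.hR ρ]
  · simp

lemma gm_inj : Function.Injective (gm : Pz D → ℝ) := by
  intro ρ ρ' h
  apply Subtype.ext
  apply D.inj
  rw [z_eq Y, z_eq Y ρ']
  have : (D.z ρ).im = (D.z ρ').im := h
  rw [this]

omit Y in
lemma fin_gm (T : ℝ) : {ρ : Pz D | gm ρ ≤ T}.Finite := by
  have h := fin_im (D := D) T
  refine Set.Finite.of_finite_image (f := fun ρ : Pz D => (ρ : D.ι)) (h.subset ?_) Subtype.val_injective.injOn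
  rintro _ ⟨ρ, hρ, rfl⟩
  have h1 : gm ρ ≤ T := hρ
  show |(D.z ρ).im| ≤ T
  rw [abs_of_pos ρ.2]
  exact h1

omit Y in
/-- the smallest positive ordinate -/
lemma exists_lb : ∃ δ : ℝ, 0 < δ ∧ ∀ ρ : Pz D, δ ≤ gm ρ := by
  by_cases hne : Nonempty (Pz D)
  · obtain ⟨ρ1⟩ := hne
    obtain ⟨ρ0, h0, hmin⟩ := (fin_gm (gm ρ1)).exists_minimalFor gm _ ⟨ρ1, show gm ρ1 ≤ gm ρ1 from le_rfl⟩
    refine ⟨gm ρ0, gm_pos ρ0, fun ρ => ?_⟩
    rcases le_total (gm ρ0) (gm ρ) with h | h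
    · exact h
    · exact hmin (show gm ρ ≤ gm ρ1 from h.trans h0) h
  · exact ⟨1, one_pos, fun ρ => absurd ⟨ρ⟩ hne⟩

omit Y in
lemma summable_y : Summable fun ρ : Pz D => 1 / gm ρ ^ 2 := by
  obtain ⟨δ, hδ, hlb⟩ := exists_lb (D := D)
  have h1 := (D.sum.subtype {ρ : D.ι | 0 < (D.z ρ).im}).mul_left ((1 + 1 / δ) ^ 2)
  refine Summable.of_nonneg_of_le (fun ρ => by positivity) (fun ρ => ?_) h1
  have hg := gm_pos ρ
  have h2 : (1 + |(D.z ρ).im|) ^ (2 : ℝ) = (1 + gm ρ) ^ 2 := by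
    rw [abs_of_pos ρ.2]
    norm_cast
  show 1 / gm ρ ^ 2 ≤ (1 + 1 / δ) ^ 2 * (D.m ρ / (1 + |(D.z ρ).im|) ^ (2 : ℝ))
  rw [h2]
  have h3 : 1 + gm ρ ≤ (1 + 1 / δ) * gm ρ := by
    have : 1 ≤ 1 / δ * gm ρ := by
      rw [one_div, ← div_eq_inv_mul, one_le_div hδ]
      exact hlb ρ
    linarith
  have h4 : (1 + gm ρ) ^ 2 ≤ (1 + 1 / δ) ^ 2 * gm ρ ^ 2 := by
    rw [← mul_pow]
    exact pow_le_pow_left₀ (by positivity) h3 2
  rw [← mul_div_assoc, div_le_div_iff₀ (by positivity) (by positivity)]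
  have h5 := D.one_le ρ
  calc 1 * (1 + gm ρ) ^ 2 ≤ (1 + 1 / δ) ^ 2 * gm ρ ^ 2 := by rw [one_mul]; exact h4
    _ ≤ ((1 + 1 / δ) ^ 2 * D.m ρ) * gm ρ ^ 2 := by
      apply mul_le_mul_of_nonneg_right _ (sq_nonneg _)
      exact le_mul_of_one_le_right (sq_nonneg _) h5

lemma sz_iff (ha : 0 < a) {φ : HL} (hφ : Xt D a φ) (z : ℂ) :
    ev a z φ = 0 ↔ ∃ s ∈ Sz a φ, z = (s : ℂ) * I ∨ z = -((s : ℂ) * I) := by
  constructor
  · intro h
    have hre := (xt_zeros ha (low_pos Y.hR ha) hφ h).1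
    have hz : z = (z.im : ℂ) * I := by
      apply Complex.ext
      · simp [hre]
      · simp
    rcases lt_trichotomy z.im 0 with h1 | h1 | h1
    · refine ⟨-z.im, ⟨by linarith, ?_⟩, Or.inr ?_⟩
      · have h2 := sym_even ha (low_pos Y.hR ha) Y.σ Y.hσ Y.hm hφ z
        rw [h] at h2
        rw [← h2]
        congr 2
        rw [hz]
        push_cast
        simp
      · conv_lhs => rw [hz]
        push_cast
        ring
    · exfalso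
      rw [hz, h1, Complex.ofReal_zero, zero_mul, xt_zero hφ] at h
      exact one_ne_zero h
    · refine ⟨z.im, ⟨h1, ?_⟩, Or.inl hz⟩
      rw [← hz]
      exact h
  · rintro ⟨s, ⟨_, hs⟩, rfl | rfl⟩
    · exact hs
    · rw [sym_even ha (low_pos Y.hR ha) Y.σ Y.hσ Y.hm hφ]
      exact hs

lemma sz_gap (ha : 0 < a) {φ : HL} (hφ : Xt D a φ) {s t : ℝ} (hs : s ∈ Sz a φ) (ht : t ∈ Sz a φ) (hst : s < t) :
    ∃ ρ : Pz D, s < gm ρ ∧ gm ρ < t := by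
  obtain ⟨ρ, h1, h2⟩ := gap ha (low_pos Y.hR ha) Y.hR Y.h0 hφ hst hs.2 ht.2
  exact ⟨⟨ρ, hs.1.trans h1⟩, h1, h2⟩

lemma sz_low (ha : 0 < a) {φ : HL} (hφ : Xt D a φ) {s : ℝ} (hs : s ∈ Sz a φ) : ∃ ρ : Pz D, gm ρ < s := by
  have hneg : ev a (((-s : ℝ) : ℂ) * I) φ = 0 := by
    have := sym_even ha (low_pos Y.hR ha) Y.σ Y.hσ Y.hm hφ ((s : ℂ) * I)
    rw [hs.2] at this
    rw [← this]
    congr 2
    push_cast
    ring
  obtain ⟨ρ, h1, h2⟩ := gap ha (low_pos Y.hR ha) Y.hR Y.h0 hφ (by linarith [hs.1] : -s < s) hneg hs.2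
  have hne : (D.z ρ).im ≠ 0 := by
    intro h
    apply Y.h0 ρ
    rw [z_eq Y ρ, h]
    simp
  rcases lt_or_gt_of_ne hne with h3 | h3
  · refine ⟨⟨Y.σ ρ, ?_⟩, ?_⟩
    · rw [Y.hσ]
      simpa using h3
    · show (D.z (Y.σ ρ)).im < s
      rw [Y.hσ, Complex.neg_im]
      linarith
  · exact ⟨⟨ρ, h3⟩, h2⟩

/-- the floor relation -/
def Fl (ρ : Pz D) (s : ℝ) : Prop := gm ρ ≤ s ∧ ∀ ρ' : Pz D, gm ρ' ≤ s → gm ρ' ≤ gm ρ

lemma exists_fl (ha : 0 < a) {φ : HL} (hφ : Xt D a φ) {s : ℝ} (hs : s ∈ Sz a φ) : ∃ ρ : Pz D, Fl ρ s := by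
  obtain ⟨ρ1, h1⟩ := sz_low Y ha hφ hs
  obtain ⟨ρ0, h0, hmax⟩ := (fin_gm s).exists_maximalFor gm _ ⟨ρ1, show gm ρ1 ≤ s from h1.le⟩
  refine ⟨ρ0, h0, fun ρ hρ => ?_⟩
  rcases le_total (gm ρ) (gm ρ0) with h | h
  · exact h
  · exact hmax (show gm ρ ≤ s from hρ) h

lemma fl_unique (ha : 0 < a) {φ : HL} (hφ : Xt D a φ) {s t : ℝ} (hs : s ∈ Sz a φ) (ht : t ∈ Sz a φ) {ρ : Pz D}
    (h1 : Fl ρ s) (h2 : Fl ρ t) : s = t := by
  have key : ∀ s t : ℝ, s ∈ Sz a φ → t ∈ Sz a φ → Fl ρ s → Fl ρ t → ¬ s < t := by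
    intro s t hs ht h1 h2 hlt
    obtain ⟨ρ', h3, h4⟩ := sz_gap Y ha hφ hs ht hlt
    have h5 := h2.2 ρ' h4.le
    have h6 := h1.1
    linarith
  exact le_antisymm (not_lt.mp (key t s ht hs h2 h1)) (not_lt.mp (key s t hs ht h1 h2))

/-- the floor map -/
noncomputable def tau (ha : 0 < a) {φ : HL} (hφ : Xt D a φ) (s : Sz a φ) : Pz D := (exists_fl Y ha hφ s.2).choose

lemma tau_spec (ha : 0 < a) {φ : HL} (hφ : Xt D a φ) (s : Sz a φ) : Fl (tau Y ha hφ s) (s : ℝ) :=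
  (exists_fl Y ha hφ s.2).choose_spec

lemma tau_inj (ha : 0 < a) {φ : HL} (hφ : Xt D a φ) : Function.Injective (tau Y ha hφ) := by
  intro s t hst
  have h1 := tau_spec Y ha hφ s
  have h2 := tau_spec Y ha hφ t
  rw [← hst] at h2
  exact Subtype.ext (fl_unique Y ha hφ s.2 t.2 h1 h2)

lemma inv_le_tau (ha : 0 < a) {φ : HL} (hφ : Xt D a φ) (s : Sz a φ) : 1 / (s : ℝ) ^ 2 ≤ 1 / gm (tau Y ha hφ s) ^ 2 := by
  have h1 := (tau_spec Y ha hφ s).1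
  have h2 := gm_pos (tau Y ha hφ s)
  exact one_div_le_one_div_of_le (by positivity) (pow_le_pow_left₀ h2.le h1 2)

lemma summable_s (ha : 0 < a) {φ : HL} (hφ : Xt D a φ) : Summable fun s : Sz a φ => 1 / (s : ℝ) ^ 2 :=
  Summable.of_nonneg_of_le (fun s => by positivity) (fun s => inv_le_tau Y ha hφ s)
    (summable_y.comp_injective (tau_inj Y ha hφ))

lemma sum_s_le (ha : 0 < a) {φ : HL} (hφ : Xt D a φ) (U : Finset (Sz a φ)) :
    ∑ s ∈ U, 1 / (s : ℝ) ^ 2 ≤ ∑' ρ : Pz D, 1 / gm ρ ^ 2 := by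
  classical
  calc ∑ s ∈ U, 1 / (s : ℝ) ^ 2 ≤ ∑ s ∈ U, 1 / gm (tau Y ha hφ s) ^ 2 :=
        Finset.sum_le_sum fun s _ => inv_le_tau Y ha hφ s
    _ = ∑ ρ ∈ U.map ⟨tau Y ha hφ, tau_inj Y ha hφ⟩, 1 / gm ρ ^ 2 := by
        rw [Finset.sum_map]
        rfl
    _ ≤ _ := summable_y.sum_le_tsum _ fun ρ _ => by positivity

omit Y in
/-- growth of the transform -/
lemma growth (ha : 0 < a) (φ : HL) : ∃ C : ℝ, ∀ z, ‖ev a z φ‖ ≤ Real.exp (C * (1 + ‖z‖) ^ (3 / 2 : ℝ)) := by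
  set K : ℝ := Real.sqrt (2 * a) * ‖φ‖ with hK
  have hK0 : 0 ≤ K := by positivity
  refine ⟨a + K, fun z => ?_⟩
  have h1 := ev_bound ha (Complex.abs_re_le_norm z) φ
  have h2 : Real.sqrt (2 * a) * Real.exp (‖z‖ * a) * ‖φ‖ = K * Real.exp (‖z‖ * a) := by
    rw [hK]
    ring
  rw [h2] at h1
  refine h1.trans ?_
  have h3 : K ≤ Real.exp K := by
    have := Real.add_one_le_exp K
    linarith
  have h4 : (1 + ‖z‖) ≤ (1 + ‖z‖) ^ (3 / 2 : ℝ) := by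
    have : (1 + ‖z‖) ^ (1 : ℝ) ≤ (1 + ‖z‖) ^ (3 / 2 : ℝ) :=
      Real.rpow_le_rpow_of_exponent_le (by linarith [norm_nonneg z]) (by norm_num)
    rwa [Real.rpow_one] at this
  calc K * Real.exp (‖z‖ * a) ≤ Real.exp K * Real.exp (‖z‖ * a) :=
        mul_le_mul_of_nonneg_right h3 (Real.exp_pos _).le
    _ = Real.exp (K + ‖z‖ * a) := by rw [Real.exp_add]
    _ ≤ Real.exp ((a + K) * (1 + ‖z‖) ^ (3 / 2 : ℝ)) := by
        apply Real.exp_le_exp.mpr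
        have h5 : (a + K) * (1 + ‖z‖) ≤ (a + K) * (1 + ‖z‖) ^ (3 / 2 : ℝ) :=
          mul_le_mul_of_nonneg_left h4 (by positivity)
        nlinarith [norm_nonneg z, mul_nonneg hK0 (norm_nonneg z)]

/-- the product formula -/
theorem sz_prod (ha : 0 < a) {φ : HL} (hφ : Xt D a φ) (z : ℂ) :
    HasProd (fun s : Sz a φ => 1 + z ^ 2 / (((s : ℝ) : ℂ)) ^ 2) (ev a z φ) := by
  classical
  obtain ⟨C, hC⟩ := growth ha φ
  obtain ⟨hfin, hlim⟩ := even_product (F := fun z => ev a z φ) (ev_differentiable φ) (xt_zero hφ)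
    (fun z => sym_even ha (low_pos Y.hR ha) Y.σ Y.hσ Y.hm hφ z) hC (S := Sz a φ) (fun s hs => hs.1) (sz_iff Y ha hφ)
    (fun z hz => (xt_zeros ha (low_pos Y.hR ha) hφ hz).2)
  have hsum : Summable fun s : Sz a φ => ‖z ^ 2 / (((s : ℝ) : ℂ)) ^ 2‖ := by
    refine ((summable_s Y ha hφ).mul_left (‖z‖ ^ 2)).congr fun s => ?_
    rw [norm_div, norm_pow, norm_pow, Complex.norm_real, Real.norm_of_nonneg s.2.1.le]
    ring
  have hm : Multipliable fun s : Sz a φ => 1 + z ^ 2 / (((s : ℝ) : ℂ)) ^ 2 :=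
    Complex.multipliable_one_add_of_summable hsum.of_norm
  have hp := hm.hasProd
  set T : ℝ → Finset (Sz a φ) := fun R => (hfin R).toFinset.subtype (· ∈ Sz a φ) with hT
  have hTt : Tendsto T atTop atTop := by
    apply tendsto_atTop_finset_of_monotone
    · intro R R' hRR x hx
      rw [hT, Finset.mem_subtype, Set.Finite.mem_toFinset] at hx ⊢
      exact ⟨hx.1, lt_of_lt_of_le hx.2 hRR⟩
    · intro x
      refine ⟨(x : ℝ) + 1, ?_⟩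
      rw [hT, Finset.mem_subtype, Set.Finite.mem_toFinset]
      exact ⟨x.2, by show (x : ℝ) < x + 1; linarith⟩
  have h1 : Tendsto (fun R => ∏ s ∈ T R, (1 + z ^ 2 / (((s : ℝ) : ℂ)) ^ 2)) atTop
      (𝓝 (∏' s : Sz a φ, (1 + z ^ 2 / (((s : ℝ) : ℂ)) ^ 2))) := by
    have h2 : Tendsto (fun U : Finset (Sz a φ) => ∏ s ∈ U, (1 + z ^ 2 / (((s : ℝ) : ℂ)) ^ 2)) atTop
      (𝓝 (∏' s : Sz a φ, (1 + z ^ 2 / (((s : ℝ) : ℂ)) ^ 2))) := by
      simpa [HasProd] using hp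
    exact h2.comp hTt
  have h2 : ∀ R, ∏ s ∈ T R, (1 + z ^ 2 / (((s : ℝ) : ℂ)) ^ 2) = ∏ σ ∈ (hfin R).toFinset, (1 + z ^ 2 / (σ : ℂ) ^ 2) := by
    intro R
    rw [hT]
    exact Finset.prod_subtype_of_mem (fun σ : ℝ => 1 + z ^ 2 / (σ : ℂ) ^ 2) fun x hx => by
      rw [Set.Finite.mem_toFinset] at hx
      exact hx.1
  rw [funext h2] at h1
  have h3 := tendsto_nhds_unique h1 (hlim z)
  rw [h3] at hp
  exact hp

end Pool.Agent.Helper61.XL
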