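import Pool.Agent.Helper61.XL.Xm
import Pool.Agent.Helper61.XL.Fn
import Pool.Agent.Helper61.GR.Rk

set_option autoImplicit false

/-!
# The minimum is doubly exponentially small; values at real points
-/

namespace Pool.Agent.Helper61.XL

open Complex Filter Topology Set MeasureTheory
open Pool.Agent.Helper61.W Pool.Agent.Helper61.W.GS Pool.Agent.Helper61.GA
open scoped ComplexConjugate ContDiff Polynomial
open Pool.Agent.V11271.LI (Zr mm cfg_zeta zz mm_one_le reflE zz_refl mm_refl zeta_anal Zr.im_ne)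

variable {D : Dat} {a : ℝ}

/-- the minimum is positive -/
lemma ival_pos (ha : 0 < a) (hl : 0 < D.low a) : 0 < ival D a := by
  have h1 : D.low a / (2 * a) ≤ ival D a := by
    apply le_csInf (vals_nonempty ha)
    rintro _ ⟨g, hg, h, rfl⟩
    have h2 := GA.low_le (D := D) ha (⟨g, hg⟩ : Ts a)
    have h3 := ev_bound ha (z := 0) (R := 0) (by simp) (toL a ⟨g, hg⟩)
    rw [ev_toL] at h3
    simp only [h, norm_one, zero_mul, Real.exp_zero, mul_one] at h3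
    have h4 : 1 ≤ 2 * a * ‖toL a (⟨g, hg⟩ : Ts a)‖ ^ 2 := by
      have h5 := pow_le_pow_left₀ zero_le_one h3 2
      rw [one_pow, mul_pow, Real.sq_sqrt (by positivity)] at h5
      exact h5
    refine le_trans ?_ h2
    rw [div_le_iff₀ (by positivity)]
    nlinarith
  exact lt_of_lt_of_le (by positivity) h1

/-- the minimum is doubly exponentially small -/
theorem ival_small (hR : ∀ ρ : Zr, (zz ρ).re = 0) : ∃ c A : ℝ, 0 < c ∧ ∀ a : ℝ, A ≤ a → 0 < a →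
    ival zetaDat a ≤ Real.exp (-(c * Real.exp (2 * a))) := by
  obtain ⟨c0, C0, hc0, hSB⟩ := GR.Rk_SB
  obtain ⟨M, c, hM, hc, hcut⟩ := GR.cut hc0 hSB 0
  set v : ℝ := ‖GR.Gz 0‖ with hv
  have hG0 : GR.Gz 0 = Xi (1 / 2) / 2 := by
    unfold GR.Gz
    rw [add_zero, Xi_eq_completed (by norm_num) (by norm_num)]
    ring
  have hv0 : 0 < v := by
    rw [hv, hG0]
    exact norm_pos_iff.mpr (div_ne_zero Xi_half_ne two_ne_zero)
  set S : ℝ := GR.SD zetaDat with hS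
  have hS0 : 0 ≤ S := GR.SD_nonneg
  set K : ℝ := 4 / v ^ 2 * (4 * M ^ 2 * S) with hK
  have hK0 : 0 ≤ K := by positivity
  -- smallness
  have hlim : Tendsto (fun a : ℝ => Real.exp (-(c * Real.exp (2 * a)))) atTop (𝓝 0) := by
    have h1 : Tendsto (fun a : ℝ => c * Real.exp (2 * a)) atTop atTop :=
      (Real.tendsto_exp_atTop.comp (tendsto_id.const_mul_atTop (by norm_num : (0 : ℝ) < 2))).const_mul_atTop hc
    exact Real.tendsto_exp_neg_atTop_nhds_zero.comp h1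
  have hev1 := (hlim.const_mul M).eventually_lt_const (show M * 0 < v / 2 by rw [mul_zero]; positivity)
  have hev2 := (hlim.const_mul K).eventually_lt_const (show K * 0 < 1 by rw [mul_zero]; exact one_pos)
  obtain ⟨A, hA⟩ := eventually_atTop.mp (hev1.and hev2)
  refine ⟨c, A, hc, fun a haA ha => ?_⟩
  obtain ⟨h1, h2⟩ := hA a haA
  obtain ⟨g, _, _, _, hg⟩ := hcut a ha
  set e : ℝ := Real.exp (-(c * Real.exp (2 * a))) with he
  have hep : 0 < e := Real.exp_pos _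
  have hLR : ∀ z : ℂ, z.re = 0 → W.LT GR.Rk z = GR.Gz z := fun z hz => GR.LT_Rk hz
  -- the value at the central point
  have h0 : v / 2 ≤ ‖W.LT g 0‖ := by
    have h3 := hg 0 (by simp)
    rw [hLR 0 (by simp)] at h3
    simp only [Complex.zero_im, abs_zero, ne_eq, OfNat.ofNat_ne_zero, not_false_eq_true, zero_pow, add_zero,
      mul_one] at h3
    have h4 := norm_sub_norm_le (GR.Gz 0) (W.LT g 0)
    rw [norm_sub_rev] at h4
    linarith
  have h0p : 0 < ‖W.LT g 0‖ := lt_of_lt_of_le (by positivity) h0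
  have h0ne : W.LT g 0 ≠ 0 := norm_pos_iff.mp h0p
  set h : Ts a := (W.LT g 0)⁻¹ • g with hh
  have hn : W.LT h 0 = 1 := by
    rw [hh, LT_smul', inv_mul_cancel₀ h0ne]
  have hl := low_pos (D := zetaDat) hR ha
  have h5 := ival_le ha hl h hn
  refine h5.trans ?_
  show (zetaDat.Wf h h).re ≤ e
  rw [Wf_self_eq (D := zetaDat) hR, Complex.ofReal_re]
  have h6 : ∀ ρ : zetaDat.ι, zetaDat.m ρ * ‖W.LT h (zetaDat.z ρ)‖ ^ 2 ≤
      4 / v ^ 2 * (4 * (M * e) ^ 2 * (zetaDat.m ρ / (1 + |(zetaDat.z ρ).im|) ^ (2 : ℝ))) := by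
    intro ρ
    have h7 := hg (zetaDat.z ρ) (hR ρ)
    have hz : W.LT GR.Rk (zetaDat.z ρ) = 0 := (hLR (zetaDat.z ρ) (hR ρ)).trans (GR.Gz_zero ρ)
    rw [hz, sub_zero] at h7
    set y := |(zetaDat.z ρ).im| with hy
    have hy0 : 0 ≤ y := abs_nonneg _
    have hm := zetaDat.m_nonneg ρ
    have e1 : (1 + y) ^ (2 : ℝ) = (1 + y) ^ 2 := by norm_cast
    rw [e1]
    have h8 : ‖W.LT h (zetaDat.z ρ)‖ ^ 2 ≤ 4 / v ^ 2 * ‖W.LT g (zetaDat.z ρ)‖ ^ 2 := by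
      rw [hh, LT_smul', norm_mul, mul_pow, norm_inv]
      apply mul_le_mul_of_nonneg_right _ (sq_nonneg _)
      rw [inv_pow, inv_le_comm₀ (by positivity) (by positivity), inv_div]
      calc v ^ 2 / 4 = (v / 2) ^ 2 := by ring
        _ ≤ _ := pow_le_pow_left₀ (by positivity) h0 2
    have h9 : ‖W.LT g (zetaDat.z ρ)‖ ^ 2 * (1 + y) ^ 2 ≤ 4 * (M * e) ^ 2 := by
      have h10 : (‖W.LT g (zetaDat.z ρ)‖ * (1 + y ^ 2)) ^ 2 ≤ (M * e) ^ 2 := by
        gcongr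
      have h11 : (1 + y) ^ 2 ≤ 4 * (1 + y ^ 2) ^ 2 := by
        nlinarith [sq_nonneg (1 - y), sq_nonneg (y ^ 2), sq_nonneg y]
      calc ‖W.LT g (zetaDat.z ρ)‖ ^ 2 * (1 + y) ^ 2 ≤ ‖W.LT g (zetaDat.z ρ)‖ ^ 2 * (4 * (1 + y ^ 2) ^ 2) :=
            mul_le_mul_of_nonneg_left h11 (sq_nonneg _)
        _ = 4 * (‖W.LT g (zetaDat.z ρ)‖ * (1 + y ^ 2)) ^ 2 := by ring
        _ ≤ _ := by linarith
    have hp : 0 < (1 + y) ^ 2 := by positivity
    have h12 : ‖W.LT g (zetaDat.z ρ)‖ ^ 2 ≤ 4 * (M * e) ^ 2 / (1 + y) ^ 2 := by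
      rw [le_div_iff₀ hp]
      exact h9
    calc zetaDat.m ρ * ‖W.LT h (zetaDat.z ρ)‖ ^ 2 ≤ zetaDat.m ρ * (4 / v ^ 2 * (4 * (M * e) ^ 2 / (1 + y) ^ 2)) :=
          mul_le_mul_of_nonneg_left (h8.trans (mul_le_mul_of_nonneg_left h12 (by positivity))) hm
      _ = _ := by ring
  have h7 := (summable_sq (D := zetaDat) hR h).tsum_le_tsum h6
    ((zetaDat.sum.mul_left (4 * (M * e) ^ 2)).mul_left (4 / v ^ 2))
  refine h7.trans ?_
  rw [tsum_mul_left, tsum_mul_left]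
  have h8 : ∑' ρ : zetaDat.ι, zetaDat.m ρ / (1 + |(zetaDat.z ρ).im|) ^ (2 : ℝ) = S := rfl
  rw [h8]
  have h9 : 4 / v ^ 2 * (4 * (M * e) ^ 2 * S) = K * e * e := by
    rw [hK]
    ring
  rw [h9]
  exact mul_le_of_le_one_left hep.le h2.le

/-- values at real points -/
lemma real_values (Y : Sy D) (ha : 0 < a) {φ : HL} (hφ : Xt D a φ) (x : ℝ) :
    (ev a (x : ℂ) φ).im = 0 ∧ 1 ≤ (ev a (x : ℂ) φ).re ∧ (ev a (x : ℂ) φ).re ≤ (Pr D (x : ℂ)).re := by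
  have h1 : Tendsto (fun U : Finset (Pz D) => ∏ ρ ∈ U, (1 + (x : ℂ) ^ 2 * (xx Y ha hφ ρ : ℂ))) atTop
      (𝓝 (ev a (x : ℂ) φ)) := by
    have := xx_prod Y ha hφ (x : ℂ)
    unfold HasProd at this
    simpa only [SummationFilter.unconditional_filter] using this
  have h2 : Tendsto (fun U : Finset (Pz D) => ∏ ρ ∈ U, (1 + (x : ℂ) ^ 2 * ((1 / gm ρ ^ 2 : ℝ) : ℂ))) atTop
      (𝓝 (Pr D (x : ℂ))) := by
    have := pr_prod (D := D) (x : ℂ)
    unfold HasProd at this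
    simpa only [SummationFilter.unconditional_filter] using this
  have e1 : ∀ U : Finset (Pz D), ∏ ρ ∈ U, (1 + (x : ℂ) ^ 2 * (xx Y ha hφ ρ : ℂ)) =
      ((∏ ρ ∈ U, (1 + x ^ 2 * xx Y ha hφ ρ) : ℝ) : ℂ) := fun U => by push_cast; rfl
  have e2 : ∀ U : Finset (Pz D), ∏ ρ ∈ U, (1 + (x : ℂ) ^ 2 * ((1 / gm ρ ^ 2 : ℝ) : ℂ)) =
      ((∏ ρ ∈ U, (1 + x ^ 2 * (1 / gm ρ ^ 2)) : ℝ) : ℂ) := fun U => by push_cast; rfl
  simp only [e1] at h1
  simp only [e2] at h2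
  have h3 := (Complex.continuous_im.tendsto _).comp h1
  have h4 := (Complex.continuous_re.tendsto _).comp h1
  have h5 := (Complex.continuous_re.tendsto _).comp h2
  have hx : 0 ≤ x ^ 2 := sq_nonneg x
  have hf : ∀ ρ, 1 ≤ 1 + x ^ 2 * xx Y ha hφ ρ := fun ρ => by
    have := mul_nonneg hx (xx_nonneg Y ha hφ ρ)
    linarith
  refine ⟨tendsto_nhds_unique h3 (tendsto_const_nhds.congr fun U => (Complex.ofReal_im _).symm), ?_, ?_⟩
  · refine ge_of_tendsto' h4 fun U => ?_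
    show 1 ≤ ((∏ ρ ∈ U, (1 + x ^ 2 * xx Y ha hφ ρ) : ℝ) : ℂ).re
    rw [Complex.ofReal_re]
    calc (1 : ℝ) = ∏ ρ ∈ U, (1 : ℝ) := by simp
      _ ≤ _ := Finset.prod_le_prod (fun _ _ => zero_le_one) fun ρ _ => hf ρ
  · refine le_of_tendsto_of_tendsto' h4 h5 fun U => ?_
    show ((∏ ρ ∈ U, (1 + x ^ 2 * xx Y ha hφ ρ) : ℝ) : ℂ).re ≤ ((∏ ρ ∈ U, (1 + x ^ 2 * (1 / gm ρ ^ 2)) : ℝ) : ℂ).re
    rw [Complex.ofReal_re, Complex.ofReal_re]
    apply Finset.prod_le_prod (fun ρ _ => by linarith [hf ρ])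
    intro ρ _
    have := mul_le_mul_of_nonneg_left (xx_le Y ha hφ ρ) hx
    linarith

/-- the limit function is at most the normalised function xi at real points -/
lemma pr_le_Xn (hR : ∀ ρ : Zr, (zz ρ).re = 0) (x : ℝ) : (Pr zetaDat (x : ℂ)).re ≤ (Xn (x : ℂ)).re := by
  obtain ⟨C, hC⟩ := Xn_growth
  obtain ⟨hfin, hlim⟩ := even_product_mult Xn_diff Xn_zero Xn_even hC Or_pos (Xn_zero_iff hR)
  set f : ℝ → ℝ := fun σ => 1 + x ^ 2 / σ ^ 2 with hf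
  have hf1 : ∀ σ, 1 ≤ f σ := fun σ => by
    simp only [hf]
    have : 0 ≤ x ^ 2 / σ ^ 2 := by positivity
    linarith
  have hfc : ∀ σ : ℝ, (1 + (x : ℂ) ^ 2 / (σ : ℂ) ^ 2) = ((f σ : ℝ) : ℂ) := fun σ => by
    simp only [hf]
    push_cast
    rfl
  have hl1 := (Complex.continuous_re.tendsto _).comp (pr_lim hR hfin (x : ℂ))
  have hl2 := (Complex.continuous_re.tendsto _).comp (hlim (x : ℂ))
  refine le_of_tendsto_of_tendsto' hl1 hl2 fun R => ?_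
  simp only [Function.comp, hfc]
  have e1 : ∏ σ ∈ (hfin R).toFinset, ((f σ : ℝ) : ℂ) = ((∏ σ ∈ (hfin R).toFinset, f σ : ℝ) : ℂ) := by
    push_cast
    rfl
  have e2 : ∏ σ ∈ (hfin R).toFinset, ((f σ : ℝ) : ℂ) ^ analyticOrderNatAt Xn ((σ : ℂ) * I) =
      ((∏ σ ∈ (hfin R).toFinset, f σ ^ analyticOrderNatAt Xn ((σ : ℂ) * I) : ℝ) : ℂ) := by
    push_cast
    rfl
  rw [e1, e2, Complex.ofReal_re, Complex.ofReal_re]
  apply Finset.prod_le_prod (fun σ _ => by linarith [hf1 σ])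
  intro σ hσ
  have hσO : σ ∈ Or := by
    rw [Set.Finite.mem_toFinset] at hσ
    exact hσ.1
  exact le_self_pow₀ (hf1 σ) (Nat.one_le_iff_ne_zero.mp
    (Xn_order_pos ((Xn_zero_iff hR _).mpr ⟨σ, hσO, Or.inl rfl⟩)))

end Pool.Agent.Helper61.XL
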