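import Mathlib

set_option autoImplicit false

/-!
# Comparison of products over interlacing sets

`hasProd_of_lim`: take `z = 1`; the ordered partial products of `1 + 1 / σ ^ 2` are monotone in `R` and converge, so
they are bounded by `(F 1).re`, hence so are the finite sums of `1 / σ ^ 2` (a product of numbers `1 + x` with
`0 ≤ x` is at least the sum of the `x`), so `1 / σ ^ 2` is summable over `S`; then
`Complex.multipliable_one_add_of_summable` and uniqueness of limits along the finite sets `S ∩ Iio R`.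

`prod_mono`: the floor map sends `s ∈ S` to the largest `s' ∈ S'` with `s' ≤ s` (it exists by `h2` and `hfin`); it is
injective by `h1`; a finite product over `S` is at most the product over the image, which is at most the whole
product over `S'` (all factors are at least one).
-/

namespace Pool.Agent.Helper61.XL

open Complex Filter Topology Set

namespace PM

lemma sum_le_prod {ι : Type*} (U : Finset ι) (f : ι → ℝ) (hf : ∀ i, 0 ≤ f i) :
    1 + ∑ i ∈ U, f i ≤ ∏ i ∈ U, (1 + f i) := by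
  classical
  induction U using Finset.induction_on with
  | empty => simp
  | insert a U ha ih =>
    rw [Finset.sum_insert ha, Finset.prod_insert ha]
    have h1 : 0 ≤ ∑ i ∈ U, f i := Finset.sum_nonneg fun i _ => hf i
    have h2 := hf a
    nlinarith [mul_le_mul_of_nonneg_left ih (by linarith : 0 ≤ 1 + f a), mul_nonneg h2 h1]

lemma prod_mono_aux {ι : Type*} {U V : Finset ι} (f : ι → ℝ) (hf : ∀ i, 1 ≤ f i) (h : U ⊆ V) :
    ∏ i ∈ U, f i ≤ ∏ i ∈ V, f i := by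
  classical
  rw [← Finset.prod_sdiff h]
  have h1 : 1 ≤ ∏ i ∈ V \ U, f i :=
    calc (1 : ℝ) = ∏ i ∈ V \ U, (1 : ℝ) := by simp
      _ ≤ _ := Finset.prod_le_prod (fun _ _ => zero_le_one) fun s _ => hf s
  have h2 : 0 ≤ ∏ i ∈ U, f i := Finset.prod_nonneg fun i _ => by linarith [hf i]
  nlinarith

end PM

open PM

theorem hasProd_of_lim {S : Set ℝ} (hS : ∀ s ∈ S, 0 < s) (hfin : ∀ R : ℝ, (S ∩ Set.Iio R).Finite) {F : ℂ → ℂ}
    (hlim : ∀ z : ℂ, Tendsto (fun R : ℝ => ∏ σ ∈ (hfin R).toFinset, (1 + z ^ 2 / (σ : ℂ) ^ 2)) atTop (𝓝 (F z)))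
    (z : ℂ) : HasProd (fun s : S => 1 + z ^ 2 / (((s : ℝ) : ℂ)) ^ 2) (F z) := by
  classical
  set f : ℝ → ℝ := fun R => ∏ σ ∈ (hfin R).toFinset, (1 + 1 / σ ^ 2) with hf
  have hmono : Monotone f := by
    intro R R' hRR
    refine prod_mono_aux (fun σ => 1 + 1 / σ ^ 2) (fun σ => ?_) ?_
    · have : 0 ≤ 1 / σ ^ 2 := by positivity
      linarith
    · intro x hx
      rw [Set.Finite.mem_toFinset] at hx ⊢
      exact ⟨hx.1, lt_of_lt_of_le hx.2 hRR⟩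
  have hflim : Tendsto f atTop (𝓝 (F 1).re) := by
    have h1 := (Complex.continuous_re.tendsto _).comp (hlim 1)
    refine h1.congr fun R => ?_
    show (∏ σ ∈ (hfin R).toFinset, (1 + (1:ℂ) ^ 2 / (σ : ℂ) ^ 2)).re = ∏ σ ∈ (hfin R).toFinset, (1 + 1 / σ ^ 2)
    rw [← Complex.ofReal_re (∏ σ ∈ (hfin R).toFinset, (1 + 1 / σ ^ 2))]
    congr 1
    push_cast
    simp
  have hfle : ∀ R, f R ≤ (F 1).re := fun R => hmono.ge_of_tendsto hflim R
  have hsum1 : Summable fun s : S => 1 / (s : ℝ) ^ 2 := by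
    refine summable_of_sum_le (c := (F 1).re) (fun s => by positivity) fun U => ?_
    obtain ⟨R, hR⟩ : ∃ R : ℝ, ∀ s ∈ U, (s : ℝ) < R := by
      obtain ⟨M, hM⟩ := (U.finite_toSet.image (fun s : S => (s : ℝ))).bddAbove
      refine ⟨M + 1, fun s hs => ?_⟩
      have := hM (Set.mem_image_of_mem (fun s : S => (s : ℝ)) hs)
      linarith
    have h1 := sum_le_prod U (fun s : S => 1 / (s : ℝ) ^ 2) (fun s => by positivity)
    have h2 : ∏ s ∈ U, (1 + 1 / (s : ℝ) ^ 2) ≤ f R := by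
      have h3 : ∏ s ∈ U, (1 + 1 / (s : ℝ) ^ 2) = ∏ σ ∈ U.map (Function.Embedding.subtype _), (1 + 1 / σ ^ 2) := by
        rw [Finset.prod_map]
        rfl
      rw [h3]
      refine prod_mono_aux (fun σ => 1 + 1 / σ ^ 2) (fun σ => ?_) ?_
      · have : 0 ≤ 1 / σ ^ 2 := by positivity
        linarith
      · intro x hx
        obtain ⟨y, hy, rfl⟩ := Finset.mem_map.1 hx
        rw [Set.Finite.mem_toFinset]
        exact ⟨y.2, hR y hy⟩
    have := hfle R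
    linarith
  have hsum : Summable fun s : S => ‖z ^ 2 / (((s : ℝ) : ℂ)) ^ 2‖ := by
    refine (hsum1.mul_left (‖z‖ ^ 2)).congr fun s => ?_
    rw [norm_div, norm_pow, norm_pow, Complex.norm_real, Real.norm_of_nonneg (hS _ s.2).le]
    ring
  have hm : Multipliable fun s : S => 1 + z ^ 2 / (((s : ℝ) : ℂ)) ^ 2 :=
    Complex.multipliable_one_add_of_summable hsum.of_norm
  have hp := hm.hasProd
  set T : ℝ → Finset S := fun R => (hfin R).toFinset.subtype (· ∈ S) with hT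
  have hTt : Tendsto T atTop atTop := by
    apply tendsto_atTop_finset_of_monotone
    · intro R R' hRR x hx
      rw [hT, Finset.mem_subtype, Set.Finite.mem_toFinset] at hx ⊢
      exact ⟨hx.1, lt_of_lt_of_le hx.2 hRR⟩
    · intro x
      refine ⟨(x : ℝ) + 1, ?_⟩
      rw [hT, Finset.mem_subtype, Set.Finite.mem_toFinset]
      exact ⟨x.2, by show (x : ℝ) < x + 1; linarith⟩
  have h1 : Tendsto (fun R => ∏ s ∈ T R, (1 + z ^ 2 / (((s : ℝ) : ℂ)) ^ 2)) atTop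
      (𝓝 (∏' s : S, (1 + z ^ 2 / (((s : ℝ) : ℂ)) ^ 2))) := by
    have h2 : Tendsto (fun U : Finset S => ∏ s ∈ U, (1 + z ^ 2 / (((s : ℝ) : ℂ)) ^ 2)) atTop
      (𝓝 (∏' s : S, (1 + z ^ 2 / (((s : ℝ) : ℂ)) ^ 2))) := by
      simpa [HasProd] using hp
    exact h2.comp hTt
  have h2 : ∀ R, ∏ s ∈ T R, (1 + z ^ 2 / (((s : ℝ) : ℂ)) ^ 2) = ∏ σ ∈ (hfin R).toFinset, (1 + z ^ 2 / (σ : ℂ) ^ 2) := by
    intro R
    rw [hT]
    exact Finset.prod_subtype_of_mem (fun σ : ℝ => 1 + z ^ 2 / (σ : ℂ) ^ 2) fun x hx => by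
      rw [Set.Finite.mem_toFinset] at hx
      exact hx.1
  rw [funext h2] at h1
  have h3 := tendsto_nhds_unique h1 (hlim z)
  rw [h3] at hp
  exact hp

theorem prod_mono {S S' : Set ℝ} (hS : ∀ s ∈ S, 0 < s) (hS' : ∀ s ∈ S', 0 < s)
    (hfin : ∀ R : ℝ, (S' ∩ Set.Iio R).Finite)
    (h1 : ∀ s ∈ S, ∀ t ∈ S, s < t → ∃ s' ∈ S', s < s' ∧ s' < t) (h2 : ∀ s ∈ S, ∃ s' ∈ S', s' < s) {x : ℝ} {F F' : ℂ}
    (hF : HasProd (fun s : S => 1 + (x : ℂ) ^ 2 / (((s : ℝ) : ℂ)) ^ 2) F)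
    (hF' : HasProd (fun s : S' => 1 + (x : ℂ) ^ 2 / (((s : ℝ) : ℂ)) ^ 2) F') :
    F.im = 0 ∧ 1 ≤ F.re ∧ F.re ≤ F'.re := by
  classical
  -- the floor map
  have hex : ∀ s : S, ∃ s' : S', (s' : ℝ) ≤ s ∧ ∀ t' : S', (t' : ℝ) ≤ s → (t' : ℝ) ≤ s' := by
    intro s
    have hf : (S' ∩ Set.Iic (s : ℝ)).Finite := (hfin ((s : ℝ) + 1)).subset fun y hy =>
      ⟨hy.1, lt_of_le_of_lt hy.2 (by show (s : ℝ) < s + 1; linarith)⟩
    obtain ⟨s₁, hs₁, hlt⟩ := h2 s s.2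
    obtain ⟨m, hm, hmax⟩ := Set.exists_max_image _ id hf ⟨s₁, hs₁, hlt.le⟩
    exact ⟨⟨m, hm.1⟩, hm.2, fun t' ht' => hmax t' ⟨t'.2, ht'⟩⟩
  choose τ hτ1 hτ2 using hex
  have hinj : Function.Injective τ := by
    have key : ∀ s t : S, τ s = τ t → ¬ (s : ℝ) < t := by
      intro s t hst hlt
      obtain ⟨s', hs', h3, h4⟩ := h1 s s.2 t t.2 hlt
      have h5 := hτ2 t ⟨s', hs'⟩ h4.le
      have h6 := hτ1 s
      rw [hst] at h6
      simp only at h5
      linarith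
    intro s t hst
    exact Subtype.ext (le_antisymm (not_lt.1 (key t s hst.symm)) (not_lt.1 (key s t hst)))
  have t1 : Tendsto (fun U : Finset S => ∏ s ∈ U, (1 + (x : ℂ) ^ 2 / (((s : ℝ) : ℂ)) ^ 2)) atTop (𝓝 F) := by
    simpa [HasProd] using hF
  have t2 : Tendsto (fun U : Finset S' => ∏ s ∈ U, (1 + (x : ℂ) ^ 2 / (((s : ℝ) : ℂ)) ^ 2)) atTop (𝓝 F') := by
    simpa [HasProd] using hF'
  have e1 : ∀ U : Finset S, ∏ s ∈ U, (1 + (x : ℂ) ^ 2 / (((s : ℝ) : ℂ)) ^ 2) =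
      ((∏ s ∈ U, (1 + x ^ 2 / (s : ℝ) ^ 2) : ℝ) : ℂ) := fun U => by push_cast; rfl
  have e2 : ∀ U : Finset S', ∏ s ∈ U, (1 + (x : ℂ) ^ 2 / (((s : ℝ) : ℂ)) ^ 2) =
      ((∏ s ∈ U, (1 + x ^ 2 / (s : ℝ) ^ 2) : ℝ) : ℂ) := fun U => by push_cast; rfl
  simp only [e1] at t1
  simp only [e2] at t2
  have t3 : Tendsto (fun U : Finset S => ∏ s ∈ U, (1 + x ^ 2 / (s : ℝ) ^ 2)) atTop (𝓝 F.re) :=
    ((Complex.continuous_re.tendsto _).comp t1).congr fun U => Complex.ofReal_re _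
  have t4 : Tendsto (fun U : Finset S' => ∏ s ∈ U, (1 + x ^ 2 / (s : ℝ) ^ 2)) atTop (𝓝 F'.re) :=
    ((Complex.continuous_re.tendsto _).comp t2).congr fun U => Complex.ofReal_re _
  have g1 : ∀ s : S, 1 ≤ 1 + x ^ 2 / (s : ℝ) ^ 2 := fun s => by
    have : 0 ≤ x ^ 2 / (s : ℝ) ^ 2 := by positivity
    linarith
  have g2 : ∀ s : S', 1 ≤ 1 + x ^ 2 / (s : ℝ) ^ 2 := fun s => by
    have : 0 ≤ x ^ 2 / (s : ℝ) ^ 2 := by positivity
    linarith
  have m2 : Monotone (fun U : Finset S' => ∏ s ∈ U, (1 + x ^ 2 / (s : ℝ) ^ 2)) := by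
    intro U V hUV
    exact prod_mono_aux _ g2 hUV
  refine ⟨?_, ?_, ?_⟩
  · have h3 := (Complex.continuous_im.tendsto _).comp t1
    exact tendsto_nhds_unique h3 (tendsto_const_nhds.congr fun U => (Complex.ofReal_im _).symm)
  · refine ge_of_tendsto' t3 fun U => ?_
    calc (1 : ℝ) = ∏ s ∈ U, (1 : ℝ) := by simp
      _ ≤ _ := Finset.prod_le_prod (fun _ _ => zero_le_one) fun s _ => g1 s
  · refine le_of_tendsto' t3 fun U => ?_
    have h3 : ∏ s ∈ U, (1 + x ^ 2 / (s : ℝ) ^ 2) ≤ ∏ s ∈ U, (1 + x ^ 2 / (τ s : ℝ) ^ 2) := by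
      refine Finset.prod_le_prod (fun s _ => by linarith [g1 s]) fun s _ => ?_
      have h4 : 0 < (τ s : ℝ) := hS' _ (τ s).2
      have h5 := hτ1 s
      gcongr
    have h6 : ∏ s ∈ U, (1 + x ^ 2 / (τ s : ℝ) ^ 2) = ∏ s ∈ U.map ⟨τ, hinj⟩, (1 + x ^ 2 / (s : ℝ) ^ 2) := by
      rw [Finset.prod_map]
      rfl
    rw [h6] at h3
    exact h3.trans (m2.ge_of_tendsto t4 _)

end Pool.Agent.Helper61.XL
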