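import Pool.Agent.Helper61.XL.Qx
import Pool.Agent.Helper61.XL.Pm

set_option autoImplicit false

/-!
# The extremal functions of two intervals
-/

namespace Pool.Agent.Helper61.XL

open Complex Filter Topology Set MeasureTheory
open Pool.Agent.Helper61.W Pool.Agent.Helper61.W.GS Pool.Agent.Helper61.GA
open scoped ComplexConjugate ContDiff Polynomial

variable {D : Dat} {a b : ℝ}

/-- the inclusion of the test functions -/
def up (h : a ≤ b) (g : Ts a) : Ts b := ⟨g, Ts.mono h g.2⟩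

lemma toL_up (h : a ≤ b) (g : Ts a) : toL b (up h g) = toL a g := rfl

/-- the transform of a limit of test functions does not depend on the interval -/
lemma ev_up (h : a ≤ b) {G : ℕ → Ts a} {φ : HL} (hG : Tendsto (fun n => toL a (G n)) atTop (𝓝 φ)) (z : ℂ) :
    ev b z φ = ev a z φ := by
  have h1 := ((ev a z).continuous.tendsto φ).comp hG
  have h2 := ((ev b z).continuous.tendsto φ).comp hG
  refine tendsto_nhds_unique h2 (h1.congr fun n => ?_)
  have e1 : ev b z (toL b (up h (G n))) = W.LT (up h (G n)) z := ev_toL _ _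
  have e2 : ev a z (toL a (G n)) = W.LT (G n) z := ev_toL _ _
  show ev a z (toL a (G n)) = ev b z (toL b (up h (G n)))
  rw [e1, e2]
  rfl

lemma xt_ev_up (h : a ≤ b) {φ : HL} (hφ : Xt D a φ) (z : ℂ) : ev b z φ = ev a z φ := by
  obtain ⟨G, _, hlim⟩ := hφ
  exact ev_up h hlim z

variable (ha : 0 < a) (hab : a < b) (hl : 0 < D.low b)

include ha hab hl

lemma low_a : 0 < D.low a := hl.trans_le (GA.low_anti (D := D) ha hab.le)

lemma ival_anti : ival D b ≤ ival D a := by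
  apply csInf_le_csInf (vals_bdd (ha.trans hab) hl) (vals_nonempty ha)
  rintro r ⟨g, hg, h1, h2⟩
  exact ⟨g, Ts.mono hab.le hg, h1, h2⟩

/-- the minimum is strictly decreasing -/
theorem ival_lt : ival D b < ival D a := by
  have hb := ha.trans hab
  refine lt_of_le_of_ne (ival_anti ha hab hl) fun heq => ?_
  obtain ⟨φ, G, hG, hlim⟩ := exists_xt ha (low_a ha hab hl)
  have hM1 : Mins D b fun n => up hab.le (G n) := ⟨hG.1, by rw [heq]; exact hG.2⟩
  have hv : a + |b - a| ≤ b := by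
    rw [abs_of_pos (sub_pos.mpr hab)]
    linarith
  have hM2 : Mins D b fun n => tls (b - a) hv (G n) := by
    refine ⟨fun n => ?_, ?_⟩
    · show W.LT (tl (G n) (b - a)) 0 = 1
      rw [LT_tl, hG.1]
      simp
    · rw [heq]
      refine hG.2.congr fun n => ?_
      show (D.Wf (G n) (G n)).re = (D.Wf (tl (G n) (b - a)) (tl (G n) (b - a))).re
      rw [Wf_tl (D := D)]
  have h1 := mins_limit hb hl hM1 hM2 (φ := φ) hlim
  have h2 : ∀ z, ev b z φ = cexp (-z * ((b - a : ℝ) : ℂ)) * ev b z φ := by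
    intro z
    have h3 := ((ev b z).continuous.tendsto φ).comp h1
    have h4 := (((ev b z).continuous.tendsto φ).comp hlim).const_mul (cexp (-z * ((b - a : ℝ) : ℂ)))
    refine tendsto_nhds_unique h3 (h4.congr fun n => ?_)
    show cexp (-z * ((b - a : ℝ) : ℂ)) * ev b z (toL b (up hab.le (G n))) = ev b z (toL b (tls (b - a) hv (G n)))
    rw [ev_toL, ev_toL]
    exact (LT_tl _ _ _).symm
  have h5 : ev b 0 φ = 1 := by
    rw [ev_up hab.le hlim]
    exact xt_zero ⟨G, hG, hlim⟩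
  have hcont : ContinuousAt (fun t : ℝ => ev b (t : ℂ) φ) 0 := by
    have : Continuous fun t : ℝ => ev b (t : ℂ) φ := (ev_cont φ).comp (by fun_prop)
    exact this.continuousAt
  have hev : ∀ᶠ t : ℝ in 𝓝 0, ev b (t : ℂ) φ ≠ 0 := hcont.eventually_ne (by
    rw [Complex.ofReal_zero, h5]
    exact one_ne_zero)
  obtain ⟨t, ht, htp⟩ := ((hev.filter_mono nhdsWithin_le_nhds).and self_mem_nhdsWithin :
    ∀ᶠ t : ℝ in 𝓝[>] 0, ev b (t : ℂ) φ ≠ 0 ∧ t ∈ Ioi (0 : ℝ)).exists
  have h6 := h2 (t : ℂ)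
  have h7 : cexp (-(t : ℂ) * ((b - a : ℝ) : ℂ)) = 1 := by
    have h8 : 1 * ev b (t : ℂ) φ = cexp (-(t : ℂ) * ((b - a : ℝ) : ℂ)) * ev b (t : ℂ) φ := by rw [one_mul]; exact h6
    exact (mul_right_cancel₀ ht h8).symm
  have h9 : cexp (-(t : ℂ) * ((b - a : ℝ) : ℂ)) = ((Real.exp (-t * (b - a)) : ℝ) : ℂ) := by
    push_cast
    rfl
  rw [h9] at h7
  have h10 : Real.exp (-t * (b - a)) = 1 := by exact_mod_cast h7
  rw [Real.exp_eq_one_iff] at h10
  have h11 : 0 < t * (b - a) := mul_pos htp (sub_pos.mpr hab)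
  linarith

/-- if the first extremal element vanishes at all zeros of the second one then the minima agree -/
lemma van_eq {φ ψ : HL} (hφ : Xt D a φ) (hψ : Xt D b ψ) (h : ∀ w, ev b w ψ = 0 → ev a w φ = 0) :
    ival D a ≤ ival D b := by
  have hb := ha.trans hab
  have hla := low_a ha hab hl
  obtain ⟨ν, hν, hsum⟩ := quadrature hb hl hψ
  obtain ⟨G, hG, hlim⟩ := hφ
  have hq : ∀ g : Ts b, HasSum (fun w : {w : ℂ // ev b w ψ = 0} => ν w * ‖W.LT g w‖ ^ 2)
      ((D.Wf g g).re - ival D b * ‖W.LT g 0‖ ^ 2) := by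
    intro g
    have h1 := Complex.hasSum_re (hsum g g)
    rw [Complex.mul_conj, Complex.normSq_eq_norm_sq, ← Complex.ofReal_mul, Complex.sub_re, Complex.ofReal_re] at h1
    refine h1.congr_fun fun w => ?_
    rw [Complex.mul_conj, Complex.normSq_eq_norm_sq, ← Complex.ofReal_mul, Complex.ofReal_re]
  have hnn : ∀ (g : Ts b) (w : {w : ℂ // ev b w ψ = 0}), 0 ≤ ν w * ‖W.LT g w‖ ^ 2 := fun g w =>
    mul_nonneg (hν w w.2).le (sq_nonneg _)
  have key : ∀ n, (D.Wf (G n) (G n)).re - ival D b ≤ 2 * ((D.Wf (G n) (G n)).re - ival D a) := by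
    intro n
    have h1 := hq (up hab.le (G n))
    have e1 : (D.Wf (up hab.le (G n)) (up hab.le (G n))).re - ival D b * ‖W.LT (up hab.le (G n)) 0‖ ^ 2 =
        (D.Wf (G n) (G n)).re - ival D b := by
      show (D.Wf (G n) (G n)).re - ival D b * ‖W.LT (G n) 0‖ ^ 2 = _
      rw [hG.1 n, norm_one, one_pow, mul_one]
    rw [e1] at h1
    rw [← h1.tsum_eq]
    apply Real.tsum_le_of_sum_le (hnn _)
    intro S
    have h2 : ∀ m, ∑ w ∈ S, ν w * ‖ev a (w : ℂ) (toL a (G n)) - ev a (w : ℂ) (toL a (G m))‖ ^ 2 ≤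
        2 * ((D.Wf (G n) (G n)).re - ival D a) + 2 * ((D.Wf (G m) (G m)).re - ival D a) := by
      intro m
      have h3 := diff_bound ha hla (G n) (G m) (hG.1 n) (hG.1 m)
      rw [(qf ha hla).bn_sq (G n), (qf ha hla).bn_sq (G m)] at h3
      refine le_trans ?_ h3
      rw [(qf ha hla).bn_sq]
      show _ ≤ (D.Wf ((G n - G m : Ts a) : ℝ → ℂ) ((G n - G m : Ts a) : ℝ → ℂ)).re
      have h4 := hq (up hab.le (G n - G m))
      have e2 : (D.Wf (up hab.le (G n - G m)) (up hab.le (G n - G m))).re -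
          ival D b * ‖W.LT (up hab.le (G n - G m)) 0‖ ^ 2 =
          (D.Wf ((G n - G m : Ts a) : ℝ → ℂ) ((G n - G m : Ts a) : ℝ → ℂ)).re := by
        have e3 : W.LT (up hab.le (G n - G m) : Ts b) 0 = 0 := by
          show W.LT (G n - G m : Ts a) 0 = 0
          rw [LT_sub', hG.1, hG.1, sub_self]
        rw [e3, norm_zero]
        show (D.Wf ((G n - G m : Ts a) : ℝ → ℂ) ((G n - G m : Ts a) : ℝ → ℂ)).re - _ = _
        ring
      rw [e2] at h4
      have h5 := sum_le_hasSum S (fun w _ => hnn _ w) h4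
      refine le_trans (le_of_eq (Finset.sum_congr rfl fun w _ => ?_)) h5
      show _ = ν w * ‖W.LT (G n - G m : Ts a) w‖ ^ 2
      rw [ev_toL, ev_toL, LT_sub']
    have h3 : Tendsto (fun m => ∑ w ∈ S, ν w * ‖ev a (w : ℂ) (toL a (G n)) - ev a (w : ℂ) (toL a (G m))‖ ^ 2)
        atTop (𝓝 (∑ w ∈ S, ν w * ‖ev a (w : ℂ) (toL a (G n)) - ev a (w : ℂ) φ‖ ^ 2)) := by
      apply tendsto_finsetSum
      intro w _
      exact (((((ev a (w : ℂ)).continuous.tendsto φ).comp hlim).const_sub _).norm.pow 2).const_mul _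
    have h4 : Tendsto (fun m => 2 * ((D.Wf (G n) (G n)).re - ival D a) + 2 * ((D.Wf (G m) (G m)).re - ival D a))
        atTop (𝓝 (2 * ((D.Wf (G n) (G n)).re - ival D a))) := by
      have := ((hG.2.sub_const (ival D a)).const_mul 2).const_add (2 * ((D.Wf (G n) (G n)).re - ival D a))
      rwa [sub_self, mul_zero, add_zero] at this
    have h5 := le_of_tendsto_of_tendsto' h3 h4 h2
    refine le_trans (le_of_eq (Finset.sum_congr rfl fun w _ => ?_)) h5
    rw [h w w.2, sub_zero, ev_toL]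
    rfl
  have h1 := hG.2.sub_const (ival D b)
  have h2 := (hG.2.sub_const (ival D a)).const_mul 2
  rw [sub_self, mul_zero] at h2
  have h3 := le_of_tendsto_of_tendsto' h1 h2 key
  linarith

/-- between two zeros of the first extremal element there is a zero of the second one -/
theorem gapM {φ ψ : HL} (hφ : Xt D a φ) (hψ : Xt D b ψ) {s t : ℝ} (hst : s < t)
    (hs : ev a ((s : ℂ) * I) φ = 0) (ht : ev a ((t : ℂ) * I) φ = 0) :
    ∃ y : ℝ, ev b ((y : ℂ) * I) ψ = 0 ∧ s < y ∧ y < t := by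
  have hb := ha.trans hab
  have hla := low_a ha hab hl
  by_contra hcon
  push Not at hcon
  have hz : ∀ w, ev b w ψ = 0 → w = (w.im : ℂ) * I := by
    intro w hw
    apply Complex.ext
    · simp [(xt_zeros hb hl hψ hw).1]
    · simp
  have hpos : ∀ w, ev b w ψ = 0 → 0 ≤ (w.im - s) * (w.im - t) := by
    intro w hw
    have hw' : ev b ((w.im : ℂ) * I) ψ = 0 := by
      rw [← hz w hw]
      exact hw
    rcases le_or_gt w.im s with h | h
    · nlinarith
    · have := hcon w.im hw' h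
      nlinarith
  obtain ⟨L, χ, hχ, hev, hlim⟩ := two_zeros ha hla hφ (w1 := (s : ℂ) * I) (w2 := (t : ℂ) * I) hs (fun ψ' hψ' => by
    have h1 := hψ' ((t : ℂ) * I)
    rw [ht] at h1
    refine (mul_eq_zero.mp h1.symm).resolve_left ?_
    intro h2
    have h3 := congrArg Complex.im h2
    simp at h3
    linarith)
  obtain ⟨ν, hν, hsum⟩ := quadrature hb hl hψ
  have hterm : ∀ (n : ℕ) (w : {w : ℂ // ev b w ψ = 0}),
      (ν w : ℂ) * (W.LT (up hab.le (Ao a ((s : ℂ) * I) (Ao a ((t : ℂ) * I) (L n)))) w *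
        conj (W.LT (up hab.le (Ao a 0 (Ao a 0 (L n)))) w)) =
      ((ν w * (((w : ℂ).im - s) * ((w : ℂ).im - t) * (w : ℂ).im ^ 2 * ‖W.LT (L n) w‖ ^ 2) : ℝ) : ℂ) := by
    intro n w
    show (ν w : ℂ) * (W.LT (Ao a ((s : ℂ) * I) (Ao a ((t : ℂ) * I) (L n))) w *
      conj (W.LT (Ao a 0 (Ao a 0 (L n))) w)) = _
    rw [LT_Ao, LT_Ao, LT_Ao, LT_Ao]
    have e4 := hz w w.2
    have e3 : W.LT (L n) w * conj (W.LT (L n) w) = ((‖W.LT (L n) w‖ ^ 2 : ℝ) : ℂ) := by
      rw [Complex.mul_conj, Complex.normSq_eq_norm_sq]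
    have e2 : conj (w : ℂ) = -(((w : ℂ).im : ℂ) * I) := by
      conv_lhs => rw [e4]
      rw [map_mul, Complex.conj_ofReal, Complex.conj_I]
      ring
    simp only [map_mul, map_sub, map_zero, e2]
    set y : ℝ := (w : ℂ).im with hy
    generalize W.LT (L n) w = l at e3 ⊢
    generalize ν w = m
    rw [e4]
    push_cast at e3 ⊢
    have hI : I ^ 2 = -1 := Complex.I_sq
    linear_combination ((m : ℂ) * (((y : ℂ) - s) * ((y : ℂ) - t) * (y : ℂ) ^ 2)) * e3 +
      ((m : ℂ) * (((y : ℂ) - s) * ((y : ℂ) - t) * (y : ℂ) ^ 2) * (l * conj l)) * (I ^ 2 - 1) * hI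
  have hwf : ∀ n, HasSum (fun w : {w : ℂ // ev b w ψ = 0} =>
      ν w * (((w : ℂ).im - s) * ((w : ℂ).im - t) * (w : ℂ).im ^ 2 * ‖W.LT (L n) w‖ ^ 2))
      (D.Wf (Ao a ((s : ℂ) * I) (Ao a ((t : ℂ) * I) (L n))) (Ao a 0 (Ao a 0 (L n)))).re := by
    intro n
    have h1 := hsum (up hab.le (Ao a ((s : ℂ) * I) (Ao a ((t : ℂ) * I) (L n)))) (up hab.le (Ao a 0 (Ao a 0 (L n))))
    have e1 : W.LT (up hab.le (Ao a 0 (Ao a 0 (L n))) : Ts b) 0 = 0 := by
      show W.LT (Ao a 0 (Ao a 0 (L n))) 0 = 0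
      rw [LT_Ao]
      simp
    rw [e1, map_zero, mul_zero, mul_zero, sub_zero] at h1
    have h2 := Complex.hasSum_re h1
    refine h2.congr_fun fun w => ?_
    rw [hterm n w, Complex.ofReal_re]
  have hnn : ∀ (n : ℕ) (w : {w : ℂ // ev b w ψ = 0}),
      0 ≤ ν w * (((w : ℂ).im - s) * ((w : ℂ).im - t) * (w : ℂ).im ^ 2 * ‖W.LT (L n) w‖ ^ 2) := fun n w =>
    mul_nonneg (hν w w.2).le (mul_nonneg (mul_nonneg (hpos w w.2) (sq_nonneg _)) (sq_nonneg _))
  have hvan : ∀ w, ev b w ψ = 0 → ev a w φ = 0 := by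
    intro w hw
    have h1 : ∀ n, ν w * ((w.im - s) * (w.im - t) * w.im ^ 2 * ‖W.LT (L n) w‖ ^ 2) ≤
        ‖D.Wf (Ao a ((s : ℂ) * I) (Ao a ((t : ℂ) * I) (L n))) (Ao a 0 (Ao a 0 (L n)))‖ := fun n =>
      (le_hasSum (hwf n) (⟨w, hw⟩ : {w : ℂ // ev b w ψ = 0}) fun j _ => hnn n j).trans (Complex.re_le_norm _)
    have hl1 : Tendsto (fun n => W.LT (L n) w) atTop (𝓝 (ev a w χ)) := by
      refine (((ev a w).continuous.tendsto χ).comp hχ).congr fun n => ?_
      exact ev_toL _ _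
    have hl2 := ((hl1.norm.pow 2).const_mul ((w.im - s) * (w.im - t) * w.im ^ 2)).const_mul (ν w)
    have hl3 := hlim.norm
    rw [norm_zero] at hl3
    have hle := le_of_tendsto_of_tendsto' hl2 hl3 h1
    have hνw := hν w hw
    have him : w.im ≠ 0 := by
      intro h
      have h2 := hz w hw
      rw [h, Complex.ofReal_zero, zero_mul] at h2
      rw [h2, xt_zero hψ] at hw
      exact one_ne_zero hw
    have him2 : 0 < w.im ^ 2 := by positivity
    have hge : 0 ≤ (w.im - s) * (w.im - t) * w.im ^ 2 * ‖ev a w χ‖ ^ 2 :=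
      mul_nonneg (mul_nonneg (hpos w hw) (sq_nonneg _)) (sq_nonneg _)
    have h2 : (w.im - s) * (w.im - t) * w.im ^ 2 * ‖ev a w χ‖ ^ 2 = 0 := by
      apply le_antisymm _ hge
      by_contra hlt
      push Not at hlt
      have := mul_pos hνw hlt
      linarith
    rw [hev w]
    rcases mul_eq_zero.mp h2 with h3 | h3
    · rcases mul_eq_zero.mp h3 with h4 | h4
      · rcases mul_eq_zero.mp h4 with h5 | h5
        · have : w - (s : ℂ) * I = 0 := by
            rw [hz w hw, ← sub_mul, ← Complex.ofReal_sub, h5]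
            simp
          rw [this, zero_mul]
        · have : w - (t : ℂ) * I = 0 := by
            rw [hz w hw, ← sub_mul, ← Complex.ofReal_sub, h5]
            simp
          rw [this, zero_mul, mul_zero]
      · exact absurd h4 him2.ne'
    · have : ev a w χ = 0 := by
        have := pow_eq_zero_iff (n := 2) (by norm_num) |>.mp h3
        exact norm_eq_zero.mp this
      rw [this, mul_zero, mul_zero]
  have h1 := van_eq ha hab hl hφ hψ hvan
  have h2 := ival_lt ha hab hl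
  linarith

end Pool.Agent.Helper61.XL
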