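import Pool.Agent.Helper61.GA.Nl

set_option autoImplicit false

/-!
# Under the Riemann hypothesis the lowest eigenvalue is positive
-/

namespace Pool.Agent.Helper61.XL

open Complex Filter Topology Set MeasureTheory
open Pool.Agent.Helper61.W Pool.Agent.Helper61.W.GS Pool.Agent.Helper61.GA
open scoped ComplexConjugate ContDiff Polynomial

variable {D : Dat} {a : ℝ}

/-- the form when its lower bound is positive -/
noncomputable def qf (ha : 0 < a) (hl : 0 < D.low a) : PF (Ts a) where
  B f g := D.Wf f g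
  add_left x y z := Wf_add_left (D := D) (Ts.tf x.2) (Ts.tf y.2) (Ts.tf z.2)
  smul_left c x z := Wf_smul_left (D := D) (f := (x : ℝ → ℂ)) (h := (z : ℝ → ℂ)) c
  symm _ _ := Wf_symm (D := D)
  nonneg x := (mul_nonneg hl.le (sq_nonneg _)).trans (GA.low_le (D := D) ha x)

/-- `tl` as an element of the larger space -/
noncomputable def tls {b : ℝ} (v : ℝ) (h : a + |v| ≤ b) (f : Ts a) : Ts b := ⟨tl f v, Ts.mono h (tl_mem f.2 v)⟩

lemma toL_tls_sub {b : ℝ} (v : ℝ) (h : a + |v| ≤ b) (f g : Ts a) :
    ‖toL b (tls v h f) - toL b (tls v h g)‖ = ‖toL a f - toL a g‖ := by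
  rw [← map_sub, ← map_sub]
  have h1 : ‖toL b (tls v h f - tls v h g)‖ ^ 2 = ‖toL a (f - g)‖ ^ 2 := by
    rw [norm_toL, norm_toL]
    have e : ((tls v h f - tls v h g : Ts b) : ℝ → ℂ) = tl ((f - g : Ts a) : ℝ → ℂ) v := rfl
    rw [e]
    exact norm_tl _ _
  exact (pow_left_inj₀ (norm_nonneg _) (norm_nonneg _) (by norm_num)).mp h1

/-- translates of a ground state are ground states for larger intervals with the same lowest eigenvalue -/
lemma tl_ground (ha : 0 < a) {b : ℝ} (hb : 0 < b) (h0a : D.low a = 0) (h0b : D.low b = 0) {φ : HL} (hφ : φ ∈ D.E ha)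
    {v : ℝ} (h : a + |v| ≤ b) : ∃ χ ∈ D.E hb, ∀ z, ev b z χ = cexp (-z * v) * ev a z φ := by
  obtain ⟨G, hG1, hG2⟩ := hφ
  have hc : CauchySeq fun n => toL b (tls v h (G n)) := by
    have h1 := hG1.cauchySeq
    rw [Metric.cauchySeq_iff] at h1 ⊢
    intro ε hε
    obtain ⟨N, hN⟩ := h1 ε hε
    refine ⟨N, fun m hm n hn => ?_⟩
    have := hN m hm n hn
    rw [dist_eq_norm] at this ⊢
    rw [toL_tls_sub]
    exact this
  obtain ⟨χ, hχ⟩ := cauchySeq_tendsto_of_complete hc
  refine ⟨χ, ⟨fun n => tls v h (G n), hχ, ?_⟩, fun z => ?_⟩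
  · refine hG2.congr fun n => ?_
    have h1 : (D.form hb).bn (tls v h (G n)) ^ 2 = (D.form ha).bn (G n) ^ 2 := by
      rw [(D.form hb).bn_sq, (D.form ha).bn_sq, GA.form_self, GA.form_self, h0a, h0b]
      have : D.Wf (tls v h (G n) : ℝ → ℂ) (tls v h (G n) : ℝ → ℂ) = D.Wf (G n) (G n) := Wf_tl (D := D) _ _ v
      rw [this]
      ring
    exact ((pow_left_inj₀ ((D.form hb).bn_nonneg _) ((D.form ha).bn_nonneg _) (by norm_num)).mp h1).symm
  · have h1 := ((ev b z).continuous.tendsto χ).comp hχ
    have h2 := (((ev a z).continuous.tendsto φ).comp hG1).const_mul (cexp (-z * v))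
    refine tendsto_nhds_unique h1 (h2.congr fun n => ?_)
    show cexp (-z * v) * ev a z (toL a (G n)) = ev b z (toL b (tls v h (G n)))
    rw [ev_toL, ev_toL]
    exact (LT_tl _ _ _).symm

/-- under the Riemann hypothesis the lowest eigenvalue is positive -/
theorem low_pos (hR : ∀ ρ : D.ι, (D.z ρ).re = 0) (ha : 0 < a) : 0 < D.low a := by
  have hn := low_nonneg hR ha
  rcases hn.lt_or_eq with h | h
  · exact h
  exfalso
  have h0a : D.low a = 0 := h.symm
  have hb : 0 < a + 1 := by linarith
  have h0b : D.low (a + 1) = 0 := by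
    apply le_antisymm _ (low_nonneg hR hb)
    rw [← h0a]
    exact low_anti (D := D) ha (by linarith)
  obtain ⟨φ, hφ, hφ1⟩ := exists_ground (D := D) ha
  have hne : φ ≠ 0 := by
    rintro rfl
    simp at hφ1
  obtain ⟨z0, hz0⟩ : ∃ z0, ev a z0 φ ≠ 0 := by
    by_contra hcon
    push Not at hcon
    exact hne (E_zero (D := D) ha hφ hcon)
  set d := Module.finrank ℂ (D.E hb) with hd
  set δ : ℝ := 1 / ((d : ℝ) + 1) with hδ
  have hδp : 0 < δ := by positivity
  have h1 : ∀ j : Fin (d + 1), ∃ χ : D.E hb, ∀ z, ev (a + 1) z (χ : HL) = cexp (-z * δ) ^ (j : ℕ) * ev a z φ := by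
    intro j
    have hv : a + |(j : ℕ) * δ| ≤ a + 1 := by
      rw [abs_of_nonneg (by positivity), hδ, ← mul_div_assoc, mul_one]
      have hj : ((j : ℕ) : ℝ) ≤ (d : ℝ) + 1 := by
        have := j.2
        exact_mod_cast this.le
      have : ((j : ℕ) : ℝ) / ((d : ℝ) + 1) ≤ 1 := by
        rw [div_le_one (by positivity)]
        exact hj
      linarith
    obtain ⟨χ, hχ, h2⟩ := tl_ground (D := D) ha hb h0a h0b hφ hv
    refine ⟨⟨χ, hχ⟩, fun z => ?_⟩
    rw [h2, ← Complex.exp_nat_mul]
    congr 2
    push_cast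
    ring
  choose χ hχ using h1
  have hli : LinearIndependent ℂ χ := by
    rw [Fintype.linearIndependent_iff]
    intro g hg i
    set p : Polynomial ℂ := ∑ j : Fin (d + 1), Polynomial.C (g j) * Polynomial.X ^ (j : ℕ) with hp
    have hroot : ∀ z, ev a z φ ≠ 0 → p.eval (cexp (-z * δ)) = 0 := by
      intro z hz
      have h2 : ev (a + 1) z ((∑ j, g j • χ j : D.E hb) : HL) = 0 := by rw [hg]; simp
      have h3 : ev (a + 1) z ((∑ j, g j • χ j : D.E hb) : HL) = p.eval (cexp (-z * δ)) * ev a z φ := by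
        rw [hp, Polynomial.eval_finsetSum, Finset.sum_mul, AddSubmonoidClass.coe_finsetSum, map_sum]
        refine Finset.sum_congr rfl fun j _ => ?_
        rw [Submodule.coe_smul, map_smul, hχ]
        simp [mul_assoc]
      rw [h2] at h3
      exact (mul_eq_zero.mp h3.symm).resolve_right hz
    have hinf : {x : ℂ | p.IsRoot x}.Infinite := by
      -- real translates of `z0`
      have hcont : ContinuousAt (fun t : ℝ => ev a (z0 + t) φ) 0 := by
        have : Continuous fun t : ℝ => ev a (z0 + t) φ := (ev_cont φ).comp (by fun_prop)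
        exact this.continuousAt
      have hev : ∀ᶠ t : ℝ in 𝓝 0, ev a (z0 + t) φ ≠ 0 := hcont.eventually_ne (by simpa using hz0)
      have hinj : Function.Injective fun t : ℝ => cexp (-(z0 + t) * δ) := by
        intro t t' htt
        have h4 := congrArg (fun w => ‖w‖) htt
        simp only [Complex.norm_exp] at h4
        have h5 := Real.exp_injective h4
        simp only [neg_mul, Complex.neg_re, Complex.mul_re, Complex.add_re, Complex.ofReal_re, Complex.ofReal_im,
          mul_zero, sub_zero] at h5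
        have h6 : (z0.re + t) * δ = (z0.re + t') * δ := by linarith
        have h7 := mul_right_cancel₀ hδp.ne' h6
        linarith
      have h3 := (infinite_of_mem_nhds (0 : ℝ) hev).image (f := fun t : ℝ => cexp (-(z0 + t) * δ)) hinj.injOn
      refine h3.mono ?_
      rintro _ ⟨t, ht, rfl⟩
      exact hroot _ ht
    have hp0 : p = 0 := Polynomial.eq_zero_of_infinite_isRoot p hinf
    have h5 : p.coeff i = g i := by
      rw [hp, Polynomial.finsetSum_coeff]
      rw [Finset.sum_eq_single i]
      · simp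
      · intro j _ hj
        rw [Polynomial.coeff_C_mul_X_pow, if_neg]
        intro heq
        exact hj (Fin.ext heq.symm)
      · simp
    rw [← h5, hp0, Polynomial.coeff_zero]
  have h6 := hli.fintype_card_le_finrank
  rw [Fintype.card_fin, ← hd] at h6
  omega

end Pool.Agent.Helper61.XL
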