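import Pool.Agent.Helper61.XL.Qc
import Pool.Agent.Helper61.GA.Ez

set_option autoImplicit false

/-!
# The form is a sum of squares over the zeros of a ground state
-/

namespace Pool.Agent.Helper61.XL

open Complex Filter Topology Set MeasureTheory
open Pool.Agent.Helper61.W Pool.Agent.Helper61.W.GS Pool.Agent.Helper61.GA
open scoped ComplexConjugate ContDiff Polynomial

variable {a : ℝ}

lemma Ph_lin (F : NF a) (f g p : Ts a) (c : ℂ) (w : ℂ) :
    Ph F (f - c • g) p w = Ph F f p w - c • Ph F g p w := by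
  have h : Ao a w (kq F.pos f p w - c • kq F.pos g p w) = LT p w • (f - c • g) - LT (f - c • g : Ts a) w • p := by
    rw [Ao_sub, Ao_smul, kq_spec, kq_spec]
    have e : LT (f - c • g : Ts a) w = LT f w - c * LT g w := by
      have := LT_lin 1 c f g w
      simpa using this
    rw [e]
    module
  rw [Ph_of F h, map_sub, map_smul]
  rfl

/-- the data of an approximated ground state -/
structure Ap {a : ℝ} (F : NF a) (ψ : HL) (G : ℕ → Ts a) : Prop where
  lim : Tendsto (fun n => toL a (G n)) atTop (𝓝 ψ)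
  bn : Tendsto (fun n => F.P.bn (G n)) atTop (𝓝 0)

variable {F : NF a} {ψ : HL} {G : ℕ → Ts a}

lemma Ap.LT (A : Ap F ψ G) (w : ℂ) : Tendsto (fun n => LT (G n) w) atTop (𝓝 (ev a w ψ)) := by
  refine (((ev a w).continuous.tendsto ψ).comp A.lim).congr fun n => ?_
  show ev a w (toL a (G n)) = _
  rw [ev_toL]

lemma Ap.cauchy (A : Ap F ψ G) (f : Ts a) {R : ℝ} (hR : 0 < R) :
    ∃ b : ℕ → ℝ, Tendsto b atTop (𝓝 0) ∧ ∀ n m : ℕ, ∀ w : ℂ, |w.re| < R →
      ‖Ph F f (G n) w - Ph F f (G m) w‖ ≤ b n + b m := by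
  set K : ℝ := Real.sqrt (2 * a) * Real.exp (R * a) with hK
  have hK0 : 0 ≤ K := by positivity
  refine ⟨fun n => 2 / R * (K * ‖toL a (G n) - ψ‖ * F.P.bn f + K * ‖toL a f‖ * F.P.bn (G n)),
    ?_, ?_⟩
  · have h1 := tendsto_iff_norm_sub_tendsto_zero.mp A.lim
    have h2 := (((h1.const_mul K).mul_const (F.P.bn f)).add (A.bn.const_mul (K * ‖toL a f‖))).const_mul (2 / R)
    simpa using h2
  · intro n m w hw
    rw [← Ph_sub]
    refine (Ph_strip F f _ hR hw).trans ?_
    have h1 : ‖toL a (G n - G m)‖ ≤ ‖toL a (G n) - ψ‖ + ‖toL a (G m) - ψ‖ := by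
      have e : toL a (G n - G m) = (toL a (G n) - ψ) - (toL a (G m) - ψ) := by rw [map_sub]; abel
      rw [e]
      exact norm_sub_le _ _
    have h2 := F.P.bn_sub (G n) (G m)
    have hbf := F.P.bn_nonneg f
    have hf := norm_nonneg (toL a f)
    calc 2 / R * (K * ‖toL a (G n - G m)‖ * F.P.bn f + K * ‖toL a f‖ * F.P.bn (G n - G m))
        ≤ 2 / R * (K * (‖toL a (G n) - ψ‖ + ‖toL a (G m) - ψ‖) * F.P.bn f +
          K * ‖toL a f‖ * (F.P.bn (G n) + F.P.bn (G m))) := by gcongr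
      _ = _ := by ring

lemma Ap.exists_lim (A : Ap F ψ G) (f : Ts a) : ∃ L : ℂ → HH F, Differentiable ℂ L ∧
    ∀ w, Tendsto (fun n => Ph F f (G n) w) atTop (𝓝 (L w)) := by
  have hex : ∀ w : ℂ, ∃ x : HH F, Tendsto (fun n => Ph F f (G n) w) atTop (𝓝 x) := by
    intro w
    obtain ⟨b, hb, hc⟩ := A.cauchy f (R := |w.re| + 1) (by positivity)
    apply cauchySeq_tendsto_of_complete
    rw [Metric.cauchySeq_iff']
    intro ε hε
    have h1 := hb.eventually_lt_const (show (0 : ℝ) < ε / 2 by positivity)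
    obtain ⟨N, hN⟩ := eventually_atTop.mp h1
    refine ⟨N, fun n hn => ?_⟩
    rw [dist_eq_norm]
    have h2 := hc n N w (by linarith)
    have h3 := hN n hn
    have h4 := hN N le_rfl
    linarith
  choose L hL using hex
  refine ⟨L, ?_, hL⟩
  intro w0
  obtain ⟨b, hb, hc⟩ := A.cauchy f (R := |w0.re| + 1) (by positivity)
  set U : Set ℂ := {w : ℂ | |w.re| < |w0.re| + 1} with hU
  have hUo : IsOpen U := isOpen_lt (Complex.continuous_re.abs) continuous_const
  have hunif : TendstoUniformlyOn (fun n w => Ph F f (G n) w) L atTop U := by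
    rw [Metric.tendstoUniformlyOn_iff]
    intro ε hε
    filter_upwards [hb.eventually_lt_const hε] with n hn w hw
    have h1 : ‖Ph F f (G n) w - L w‖ ≤ b n + 0 := by
      refine le_of_tendsto_of_tendsto ((tendsto_const_nhds.sub (hL w)).norm) (hb.const_add (b n)) ?_
      exact Eventually.of_forall fun m => hc n m w hw
    rw [dist_comm, dist_eq_norm]
    linarith
  have h1 := hunif.tendstoLocallyUniformlyOn.differentiableOn
    (Eventually.of_forall fun n => (Ph_diff F f (G n)).differentiableOn) hUo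
  exact (h1 w0 (by simp [hU])).differentiableAt (hUo.mem_nhds (by simp [hU]))

/-- the limit of the quotients -/
noncomputable def Ap.L (A : Ap F ψ G) (f : Ts a) : ℂ → HH F := (A.exists_lim f).choose

lemma Ap.L_diff (A : Ap F ψ G) (f : Ts a) : Differentiable ℂ (A.L f) := (A.exists_lim f).choose_spec.1

lemma Ap.L_lim (A : Ap F ψ G) (f : Ts a) (w : ℂ) :
    Tendsto (fun n => Ph F f (G n) w) atTop (𝓝 (A.L f w)) := (A.exists_lim f).choose_spec.2 w

lemma Ap.L_bound (A : Ap F ψ G) (f : Ts a) (w : ℂ) :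
    |w.re| * ‖A.L f w‖ ≤ ‖ev a w ψ‖ * F.P.bn f := by
  have h1 := (A.L_lim f w).norm.const_mul |w.re|
  have h2 := ((A.LT w).norm.mul_const (F.P.bn f)).add (A.bn.const_mul ‖W.LT f w‖)
  rw [mul_zero, add_zero] at h2
  exact le_of_tendsto_of_tendsto' h1 h2 fun n => Ph_bound F f (G n) w

lemma Ap.L_mul (A : Ap F ψ G) (f : Ts a) (w : ℂ) :
    A.L (Ao a 0 f) w = ev a w ψ • em F f + w • A.L f w := by
  have h1 := A.L_lim (Ao a 0 f) w
  have h2 := ((A.LT w).smul_const (em F f)).add ((A.L_lim f w).const_smul w)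
  refine tendsto_nhds_unique h1 (h2.congr fun n => ?_)
  rw [Ph_mul]

lemma Ap.L_zero (A : Ap F ψ G) {f : Ts a} {w : ℂ} (hψ : ev a w ψ = 0) (hf : W.LT f w = 0) :
    A.L f w = 0 := by
  obtain ⟨h, hh⟩ := exists_div F.pos f hf
  have h1 : ∀ n, Ph F f (G n) w = W.LT (G n) w • em F h := by
    intro n
    rw [← map_smul]
    apply Ph_of F
    rw [Ao_smul, hh, hf, zero_smul, sub_zero]
  have h2 := A.L_lim f w
  simp_rw [h1] at h2
  have h3 := (A.LT w).smul_const (em F h)
  rw [hψ, zero_smul] at h3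
  exact tendsto_nhds_unique h2 h3

lemma Ap.L_lin (A : Ap F ψ G) (f g : Ts a) (c w : ℂ) : A.L (f - c • g) w = A.L f w - c • A.L g w := by
  have h1 := A.L_lim (f - c • g) w
  have h2 := (A.L_lim f w).sub ((A.L_lim g w).const_smul c)
  refine tendsto_nhds_unique h1 (h2.congr fun n => ?_)
  rw [Ph_lin]

/-- a test function with transform `1` at `w` -/
noncomputable def et (F : NF a) (w : ℂ) : Ts a := (exists_eta F.pos w).choose

lemma et_spec (F : NF a) (w : ℂ) : W.LT (et F w) w = 1 := (exists_eta F.pos w).choose_spec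

lemma LT_et (F : NF a) (f : Ts a) (w : ℂ) : W.LT (f - W.LT f w • et F w : Ts a) w = 0 := by
  have := LT_lin 1 (W.LT f w) f (et F w) w
  rw [one_smul, et_spec] at this
  rw [this]
  ring

/-- the vector of a zero -/
noncomputable def Ap.κ (A : Ap F ψ G) (w : ℂ) : HH F := A.L (et F w) w

lemma Ap.L_eval (A : Ap F ψ G) (f : Ts a) {w : ℂ} (hψ : ev a w ψ = 0) : A.L f w = W.LT f w • A.κ w := by
  have h1 := A.L_zero hψ (LT_et F f w)
  rw [A.L_lin] at h1
  exact sub_eq_zero.mp h1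

lemma Ap.κ_perp (A : Ap F ψ G) {w : ℂ} (hw : w.re = 0) (hψ : ev a w ψ = 0) {f : Ts a} (hf : W.LT f w = 0) :
    inner ℂ (A.κ w) (em F f) = 0 := by
  obtain ⟨h, hh⟩ := exists_div F.pos f hf
  have hwc : -conj w = w := by
    apply Complex.ext
    · simp [hw]
    · simp
  have h1 : Tendsto (fun n => inner ℂ (Ph F (et F w) (G n) w) (em F f)) atTop
      (𝓝 (inner ℂ (A.κ w) (em F f))) := (A.L_lim (et F w) w).inner tendsto_const_nhds
  have h2 : Tendsto (fun n => inner ℂ (Ph F (et F w) (G n) w) (em F f)) atTop (𝓝 0) := by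
    have h3 : Tendsto (fun n => F.P.bn h * (‖W.LT (G n) w‖ * F.P.bn (et F w) +
        F.P.bn (G n))) atTop (𝓝 0) := by
      have h4 := (((A.LT w).norm.mul_const (F.P.bn (et F w))).add A.bn).const_mul (F.P.bn h)
      rw [hψ, norm_zero, zero_mul, add_zero, mul_zero] at h4
      exact h4
    refine squeeze_zero_norm (fun n => ?_) h3
    unfold Ph
    rw [inner_em, ← hh]
    have e : F.P.B (Ao a w h) (kq F.pos (et F w) (G n) w) =
        -F.P.B h (W.LT (G n) w • et F w - W.LT (et F w) w • G n) := by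
      rw [F.adj, hwc, kq_spec]
    rw [e, norm_neg]
    refine (F.P.norm_le _ _).trans (mul_le_mul_of_nonneg_left ?_ (F.P.bn_nonneg _))
    refine (F.P.bn_sub _ _).trans ?_
    rw [F.P.bn_smul, F.P.bn_smul, et_spec, norm_one, one_mul]
  exact tendsto_nhds_unique h1 h2

lemma Ap.κ_inner (A : Ap F ψ G) {w : ℂ} (hw : w.re = 0) (hψ : ev a w ψ = 0) (f : Ts a) :
    inner ℂ (A.κ w) (em F f) = W.LT f w * inner ℂ (A.κ w) (em F (et F w)) := by
  have h1 := A.κ_perp hw hψ (LT_et F f w)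
  rw [map_sub, map_smul, inner_sub_right, inner_smul_right] at h1
  exact sub_eq_zero.mp h1

lemma Ap.κ_orth (A : Ap F ψ G) {w v : ℂ} (hw : w.re = 0) (hψw : ev a w ψ = 0)
    (hψv : ev a v ψ = 0) (hne : w ≠ v) : inner ℂ (A.κ w) (A.κ v) = 0 := by
  have h1 : Tendsto (fun n => inner ℂ (A.κ w) (Ph F (et F v) (G n) v)) atTop
      (𝓝 (inner ℂ (A.κ w) (A.κ v))) := tendsto_const_nhds.inner (A.L_lim (et F v) v)
  have h2 : Tendsto (fun n => inner ℂ (A.κ w) (Ph F (et F v) (G n) v)) atTop (𝓝 0) := by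
    have h3 : ∀ n, inner ℂ (A.κ w) (Ph F (et F v) (G n) v) =
        ((W.LT (G n) v * W.LT (et F v) w - W.LT (et F v) v * W.LT (G n) w) / (w - v)) *
          inner ℂ (A.κ w) (em F (et F w)) := by
      intro n
      unfold Ph
      rw [A.κ_inner hw hψw]
      congr 1
      rw [eq_div_iff (sub_ne_zero.mpr hne), ← LT_lin, ← kq_spec F.pos, LT_Ao]
      ring
    simp_rw [h3]
    have h4 := ((((A.LT v).mul_const (W.LT (et F v) w)).sub
      ((A.LT w).const_mul (W.LT (et F v) v))).div_const (w - v)).mul_const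
        (inner ℂ (A.κ w) (em F (et F w)))
    rw [hψw, hψv] at h4
    simpa using h4
  exact tendsto_nhds_unique h1 h2

end Pool.Agent.Helper61.XL
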