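import Pool.Agent.Helper61.XL.Qt

set_option autoImplicit false

/-!
# The form is a sum of squares over the zeros of a ground state: completeness
-/

namespace Pool.Agent.Helper61.XL

open Complex Filter Topology Set MeasureTheory
open Pool.Agent.Helper61.W Pool.Agent.Helper61.W.GS Pool.Agent.Helper61.GA
open scoped ComplexConjugate ContDiff Polynomial

variable {a : ℝ} {F : NF a} {ψ : HL} {G : ℕ → Ts a}

/-- a generator of the null space of the form -/
structure Gen (F : NF a) (ψ : HL) : Prop where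
  simple : ∀ z, ev a z ψ = 0 → z.re = 0 ∧ deriv (fun z => ev a z ψ) z ≠ 0
  all : ∀ (K : ℕ → Ts a) (χ : HL), Tendsto (fun n => toL a (K n)) atTop (𝓝 χ) →
    Tendsto (fun n => F.P.bn (K n)) atTop (𝓝 0) → ∃ p : ℂ[X], ∀ z, ev a z χ = p.eval z * ev a z ψ
  ne : ∃ z, ev a z ψ ≠ 0

lemma evd (φ : HL) : Differentiable ℂ (fun z => ev a z φ) := ev_differentiable φ

lemma Ap.κ_ne (A : Ap F ψ G) (hg : Gen F ψ) {w : ℂ} (hψ : ev a w ψ = 0) : A.κ w ≠ 0 := by
  intro h0
  obtain ⟨hw, hd⟩ := hg.simple w hψ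
  set G' : ℕ → Ts a := fun n => W.LT (G n) w • et F w - (1 : ℂ) • G n with hG'
  have h1 : ∀ n, Ao a w (kq F.pos (et F w) (G n) w) = G' n := by
    intro n
    rw [kq_spec, et_spec]
  have h2 : ∀ n, W.LT (G' n) w = 0 := by
    intro n
    rw [hG', LT_lin, et_spec]
    ring
  have h3 : Tendsto (fun n => toL a (G' n)) atTop (𝓝 (-ψ)) := by
    have h4 := ((A.LT w).smul_const (toL a (et F w))).sub (A.lim.const_smul (1 : ℂ))
    rw [hψ, zero_smul, zero_sub, one_smul] at h4
    refine h4.congr fun n => ?_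
    simp only [hG', map_sub, map_smul]
  obtain ⟨K, χ, hK, hχ, hev⟩ := div_seq F.pos h3 h2
  have h5 : Tendsto (fun n => F.P.bn (K n)) atTop (𝓝 0) := by
    have h6 := (A.L_lim (et F w) w).norm
    have h7 : A.L (et F w) w = 0 := h0
    rw [h7, norm_zero] at h6
    refine h6.congr fun n => ?_
    unfold Ph
    rw [← norm_em]
    congr 1
    exact em_eq F ((h1 n).trans (hK n).symm)
  obtain ⟨p, hp⟩ := hg.all K χ hχ h5
  apply hd
  have h9 : (fun z => ev a z ψ) = fun z => (z - w) * (-(p.eval z * ev a z ψ)) := by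
    funext z
    have h10 := hev z
    rw [map_neg, hp z] at h10
    linear_combination -h10
  have h11 : HasDerivAt (fun z => (z - w) * (-(p.eval z * ev a z ψ))) (0 : ℂ) w := by
    have hd1 : DifferentiableAt ℂ (fun z => -(p.eval z * ev a z ψ)) w :=
      ((p.differentiable w).mul (evd (a := a) ψ w)).neg
    have h12 := ((hasDerivAt_id w).sub_const w).mul hd1.hasDerivAt
    refine h12.congr_deriv ?_
    rw [hψ]
    simp
  rw [h9]
  exact h11.deriv

lemma Ap.total (A : Ap F ψ G) (hg : Gen F ψ) {h : HH F}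
    (h0 : ∀ w, ev a w ψ = 0 → inner ℂ h (A.κ w) = 0) : h = 0 := by
  have h1 : ∀ f : Ts a, ∀ z : ℂ, inner ℂ h (A.L f z) = 0 := by
    intro f
    refine quot_zero (s := fun z => ev a z ψ) (C := ‖h‖ * F.P.bn f) ?_ (evd ψ) ?_ ?_
    · have h2 : (fun z => inner ℂ h (A.L f z)) = fun z => innerSL ℂ h (A.L f z) := by
        funext z
        rw [innerSL_apply_apply]
      rw [h2]
      exact (innerSL ℂ h).differentiable.comp (A.L_diff f)
    · intro z hz
      refine ⟨?_, (hg.simple z hz).2⟩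
      rw [A.L_eval f hz, inner_smul_right, h0 z hz, mul_zero]
    · intro z
      have h3 := norm_inner_le_norm (𝕜 := ℂ) h (A.L f z)
      have h4 := A.L_bound f z
      calc |z.re| * ‖inner ℂ h (A.L f z)‖ ≤ |z.re| * (‖h‖ * ‖A.L f z‖) :=
            mul_le_mul_of_nonneg_left h3 (abs_nonneg _)
        _ = ‖h‖ * (|z.re| * ‖A.L f z‖) := by ring
        _ ≤ ‖h‖ * (‖ev a z ψ‖ * F.P.bn f) := mul_le_mul_of_nonneg_left h4 (norm_nonneg _)
        _ = _ := by ring
  obtain ⟨z, hz⟩ := hg.ne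
  have h2 : ∀ f : Ts a, inner ℂ h (em F f) = 0 := by
    intro f
    have h3 := h1 (Ao a 0 f) z
    rw [A.L_mul, inner_add_right, inner_smul_right, inner_smul_right, h1 f z, mul_zero, add_zero] at h3
    exact (mul_eq_zero.mp h3).resolve_left hz
  have h3 : ∀ x : HH F, inner ℂ h x = 0 := by
    intro x
    have hc : Continuous fun x : HH F => inner ℂ h x := continuous_const.inner continuous_id
    have hcl : IsClosed {x : HH F | inner ℂ h x = 0} := isClosed_eq hc continuous_const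
    have hsub : range (fun f : Ts a => em F f) ⊆ {x : HH F | inner ℂ h x = 0} := by
      rintro _ ⟨f, rfl⟩
      exact h2 f
    have := closure_minimal hsub hcl
    rw [(em_dense F).closure_eq] at this
    exact this (mem_univ x)
  exact inner_self_eq_zero.mp (h3 h)

/-- the weights -/
noncomputable def Ap.ν (A : Ap F ψ G) (w : ℂ) : ℝ := ‖inner ℂ (A.κ w) (em F (et F w))‖ ^ 2 / ‖A.κ w‖ ^ 2

lemma Ap.ν_pos (A : Ap F ψ G) (hg : Gen F ψ) {w : ℂ} (hψ : ev a w ψ = 0) : 0 < A.ν w := by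
  have h1 : A.κ w ≠ 0 := A.κ_ne hg hψ
  have h2 : inner ℂ (A.κ w) (em F (et F w)) ≠ 0 := by
    intro h3
    apply h1
    have h4 : ∀ f : Ts a, inner ℂ (A.κ w) (em F f) = 0 := by
      intro f
      rw [A.κ_inner (hg.simple w hψ).1 hψ, h3, mul_zero]
    have hc : Continuous fun x : HH F => inner ℂ (A.κ w) x := continuous_const.inner continuous_id
    have hcl : IsClosed {x : HH F | inner ℂ (A.κ w) x = 0} := isClosed_eq hc continuous_const
    have hsub : range (fun f : Ts a => em F f) ⊆ {x : HH F | inner ℂ (A.κ w) x = 0} := by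
      rintro _ ⟨f, rfl⟩
      exact h4 f
    have := closure_minimal hsub hcl
    rw [(em_dense F).closure_eq] at this
    exact inner_self_eq_zero.mp (this (mem_univ (A.κ w)))
  unfold Ap.ν
  have h3 := norm_pos_iff.mpr h1
  have h4 := norm_pos_iff.mpr h2
  positivity

theorem Ap.parseval (A : Ap F ψ G) (hg : Gen F ψ) (f g : Ts a) :
    HasSum (fun w : {w : ℂ // ev a w ψ = 0} => (A.ν w : ℂ) * (W.LT f w * conj (W.LT g w))) (F.P.B f g) := by
  set v : {w : ℂ // ev a w ψ = 0} → HH F := fun w => ((‖A.κ w‖⁻¹ : ℝ) : ℂ) • A.κ w with hv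
  have hn : ∀ w : {w : ℂ // ev a w ψ = 0}, ‖A.κ w‖ ≠ 0 := fun w => norm_ne_zero_iff.mpr (A.κ_ne hg w.2)
  have hon : Orthonormal ℂ v := by
    refine ⟨fun w => ?_, fun w u hne => ?_⟩
    · simp only [hv]
      rw [norm_smul, Complex.norm_real, norm_inv, norm_norm, inv_mul_cancel₀ (hn w)]
    · simp only [hv]
      rw [inner_smul_left, inner_smul_right,
        A.κ_orth (hg.simple w w.2).1 w.2 u.2 (fun h => hne (Subtype.ext h)), mul_zero, mul_zero]
  have hbot : (Submodule.span ℂ (Set.range v))ᗮ = ⊥ := by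
    rw [Submodule.eq_bot_iff]
    intro x hx
    apply A.total hg
    intro w hw
    have h1 : inner ℂ (v ⟨w, hw⟩) x = 0 :=
      (Submodule.mem_orthogonal _ _).mp hx _ (Submodule.subset_span ⟨⟨w, hw⟩, rfl⟩)
    simp only [hv] at h1
    rw [inner_smul_left] at h1
    have h2 : inner ℂ (A.κ w) x = 0 := by
      refine (mul_eq_zero.mp h1).resolve_left ?_
      rw [Complex.conj_ofReal]
      exact_mod_cast inv_ne_zero (hn ⟨w, hw⟩)
    rw [← inner_conj_symm, h2, map_zero]
  have h1 := (HilbertBasis.mkOfOrthogonalEqBot hon hbot).hasSum_inner_mul_inner (em F g) (em F f)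
  rw [inner_em] at h1
  have e : ∀ w : {w : ℂ // ev a w ψ = 0}, inner ℂ (em F g) ((HilbertBasis.mkOfOrthogonalEqBot hon hbot) w) *
      inner ℂ ((HilbertBasis.mkOfOrthogonalEqBot hon hbot) w) (em F f) =
      (A.ν w : ℂ) * (W.LT f w * conj (W.LT g w)) := by
    intro w
    rw [HilbertBasis.coe_mkOfOrthogonalEqBot]
    simp only [hv]
    rw [← inner_conj_symm (em F g), inner_smul_left, inner_smul_left, A.κ_inner (hg.simple w w.2).1 w.2 f,
      A.κ_inner (hg.simple w w.2).1 w.2 g]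
    set t := inner ℂ (A.κ w) (em F (et F w)) with ht
    have h2 : (A.ν w : ℂ) = (‖A.κ w‖⁻¹ : ℝ) * (‖A.κ w‖⁻¹ : ℝ) * (t * conj t) := by
      rw [Complex.mul_conj, Complex.normSq_eq_norm_sq]
      unfold Ap.ν
      rw [← ht]
      push_cast
      have h3 : (‖A.κ w‖ : ℂ) ≠ 0 := by exact_mod_cast hn w
      field_simp
    rw [h2]
    simp only [map_mul, Complex.conj_ofReal]
    ring
  rw [← funext e]
  exact h1

/-- the form is a positive sum of squares over the zeros -/
theorem quad {ψ : HL} (hψ : ∃ G : ℕ → Ts a, Ap F ψ G) (hg : Gen F ψ) :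
    ∃ ν : ℂ → ℝ, (∀ w, ev a w ψ = 0 → 0 < ν w) ∧ ∀ f g : Ts a,
      HasSum (fun w : {w : ℂ // ev a w ψ = 0} => (ν w : ℂ) * (W.LT f w * conj (W.LT g w))) (F.P.B f g) := by
  obtain ⟨G, A⟩ := hψ
  exact ⟨A.ν, fun w hw => A.ν_pos hg hw, fun f g => A.parseval hg f g⟩

end Pool.Agent.Helper61.XL
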