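import Pool.Agent.Helper61.XL.Iv

set_option autoImplicit false

/-!
# Uniform approximation of the zeros
-/

namespace Pool.Agent.Helper61.XL

open Complex Filter Topology Set MeasureTheory
open Pool.Agent.Helper61.W Pool.Agent.Helper61.W.GS Pool.Agent.Helper61.GA
open scoped ComplexConjugate ContDiff Polynomial
open Pool.Agent.V11271.LI (Zr mm cfg_zeta zz mm_one_le reflE zz_refl mm_refl zeta_anal Zr.im_ne)

variable {D : Dat} {a : ℝ}

/-- the lower bound for a factor, with an exponent -/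
lemma factor_low_p {p : ℝ} (hp1 : 0 ≤ p) (hp2 : p ≤ 2) {g ε s : ℝ} (hg : 0 < g) (hε : 0 < ε) (hs : 0 < s)
    (h : ε ≤ |s - g|) :
    Real.exp (-((|Real.log (ε / (4 * g))| + 1) * (2 * g) ^ p * (1 / s ^ p))) ≤ |1 - g ^ 2 / s ^ 2| := by
  set c : ℝ := ε / (4 * g) with hc
  have hc0 : 0 < c := by positivity
  have hq : (2 * g) ^ p * (1 / s ^ p) = (2 * g / s) ^ p := by
    rw [Real.div_rpow (by positivity) hs.le]
    ring
  rw [mul_assoc, hq]
  have hL : 0 ≤ |Real.log c| := abs_nonneg _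
  rcases le_or_gt (2 * g) s with h1 | h1
  · set t : ℝ := 2 * g / s with ht
    have ht0 : 0 < t := by positivity
    have ht1 : t ≤ 1 := by
      rw [ht, div_le_one hs]
      exact h1
    have hu : g ^ 2 / s ^ 2 = t ^ 2 / 4 := by
      rw [ht]
      field_simp
      ring
    have ht2 : t ^ 2 ≤ t ^ p := by
      have := Real.rpow_le_rpow_of_exponent_ge ht0 ht1 hp2
      rwa [Real.rpow_two] at this
    have ht3 : t ^ 2 ≤ 1 := pow_le_one₀ ht0.le ht1
    have h2 : Real.exp (-(t ^ 2 / 2)) ≤ 1 - t ^ 2 / 4 := by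
      have h3 := Real.add_one_le_exp (t ^ 2 / 2)
      rw [Real.exp_neg, inv_le_comm₀ (Real.exp_pos _) (by linarith)]
      refine le_trans ?_ h3
      rw [inv_le_iff_one_le_mul₀ (by linarith)]
      nlinarith [sq_nonneg t]
    rw [hu, abs_of_nonneg (show 0 ≤ 1 - t ^ 2 / 4 by linarith)]
    refine le_trans (Real.exp_le_exp.mpr ?_) h2
    have h4 : 0 ≤ |Real.log c| * t ^ p := by positivity
    have h5 : 0 ≤ t ^ p := by positivity
    nlinarith
  · have h2 : c ≤ |1 - g ^ 2 / s ^ 2| := by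
      have e : 1 - g ^ 2 / s ^ 2 = (s - g) * (s + g) / s ^ 2 := by
        field_simp
        ring
      rw [e, abs_div, abs_mul, abs_of_pos (by positivity : 0 < s + g), abs_of_pos (by positivity : 0 < s ^ 2), hc,
        div_le_div_iff₀ (by positivity) (by positivity)]
      calc ε * s ^ 2 ≤ |s - g| * s ^ 2 := mul_le_mul_of_nonneg_right h (sq_nonneg _)
        _ ≤ |s - g| * ((s + g) * (4 * g)) := by
          apply mul_le_mul_of_nonneg_left _ (abs_nonneg _)
          nlinarith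
        _ = _ := by ring
    refine le_trans ?_ h2
    rw [← Real.exp_log hc0]
    apply Real.exp_le_exp.mpr
    rw [Real.log_exp]
    have h3 : 1 ≤ (2 * g / s) ^ p := by
      apply Real.one_le_rpow _ hp1
      rw [one_le_div hs]
      exact h1.le
    have h5 := neg_abs_le (Real.log c)
    nlinarith

variable (Y : Sy D) {p : ℝ} (hsum : Summable fun ρ : D.ι => D.m ρ / (1 + |(D.z ρ).im|) ^ p)

/-- the sum over the ordinates -/
noncomputable def Bp (D : Dat) (p : ℝ) : ℝ := ∑' ρ : Pz D, 1 / gm ρ ^ p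

include hsum in
lemma summable_p (hp : 0 ≤ p) : Summable fun ρ : Pz D => 1 / gm ρ ^ p := by
  obtain ⟨δ, hδ, hlb⟩ := exists_lb (D := D)
  have h1 := (hsum.subtype {ρ : D.ι | 0 < (D.z ρ).im}).mul_left ((1 + 1 / δ) ^ p)
  refine Summable.of_nonneg_of_le (fun ρ => ?_) (fun ρ => ?_) h1
  · have := gm_pos ρ
    positivity
  have hg := gm_pos ρ
  show 1 / gm ρ ^ p ≤ (1 + 1 / δ) ^ p * (D.m ρ / (1 + |(D.z ρ).im|) ^ p)
  rw [abs_of_pos ρ.2]
  have h3 : 1 + gm ρ ≤ (1 + 1 / δ) * gm ρ := by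
    have : 1 ≤ 1 / δ * gm ρ := by
      rw [one_div, ← div_eq_inv_mul, one_le_div hδ]
      exact hlb ρ
    linarith
  have h4 : (1 + gm ρ) ^ p ≤ (1 + 1 / δ) ^ p * gm ρ ^ p := by
    rw [← Real.mul_rpow (by positivity) hg.le]
    exact Real.rpow_le_rpow (by positivity) h3 hp
  have hq : 0 < gm ρ ^ p := Real.rpow_pos_of_pos hg p
  have hq2 : 0 < (1 + gm ρ) ^ p := Real.rpow_pos_of_pos (by positivity) p
  have e : (1 + (D.z ρ).im) ^ p = (1 + gm ρ) ^ p := rfl
  rw [e, ← mul_div_assoc, div_le_div_iff₀ hq hq2]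
  have h5 := D.one_le ρ
  have h6 : 0 ≤ (1 + 1 / δ) ^ p := by positivity
  calc 1 * (1 + gm ρ) ^ p ≤ (1 + 1 / δ) ^ p * gm ρ ^ p := by rw [one_mul]; exact h4
    _ ≤ ((1 + 1 / δ) ^ p * D.m ρ) * gm ρ ^ p := by
      apply mul_le_mul_of_nonneg_right _ hq.le
      exact le_mul_of_one_le_right h6 h5

include hsum Y in
lemma sum_s_le_p (hp : 0 ≤ p) (ha : 0 < a) {φ : HL} (hφ : Xt D a φ) (U : Finset (Sz a φ)) :
    ∑ s ∈ U, 1 / (s : ℝ) ^ p ≤ Bp D p := by
  classical
  have h0 : ∀ ρ : Pz D, 0 ≤ 1 / gm ρ ^ p := fun ρ => by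
    have := gm_pos ρ
    positivity
  calc ∑ s ∈ U, 1 / (s : ℝ) ^ p ≤ ∑ s ∈ U, 1 / gm (tau Y ha hφ s) ^ p := by
        apply Finset.sum_le_sum
        intro s _
        have h1 := (tau_spec Y ha hφ s).1
        have h2 := gm_pos (tau Y ha hφ s)
        exact one_div_le_one_div_of_le (Real.rpow_pos_of_pos h2 p) (Real.rpow_le_rpow h2.le h1 hp)
    _ = ∑ ρ ∈ U.map ⟨tau Y ha hφ, tau_inj Y ha hφ⟩, 1 / gm ρ ^ p := by
        rw [Finset.sum_map]
        rfl
    _ ≤ _ := (summable_p hsum hp).sum_le_tsum _ fun ρ _ => h0 ρ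

include hsum Y in
/-- an extremal element without a zero near `g` is not small at `g` -/
lemma lower_p (hp1 : 0 ≤ p) (hp2 : p ≤ 2) {g ε : ℝ} (hg : 0 < g) (hε : 0 < ε) (ha : 0 < a) {φ : HL} (hφ : Xt D a φ)
    (h : ∀ s ∈ Sz a φ, ε ≤ |s - g|) :
    Real.exp (-((|Real.log (ε / (4 * g))| + 1) * (2 * g) ^ p * Bp D p)) ≤ ‖ev a ((g : ℂ) * I) φ‖ := by
  set κ : ℝ := (|Real.log (ε / (4 * g))| + 1) * (2 * g) ^ p with hκ
  have hκ0 : 0 ≤ κ := by positivity
  have h1 : Tendsto (fun U : Finset (Sz a φ) => ∏ s ∈ U, (1 + ((g : ℂ) * I) ^ 2 / (((s : ℝ) : ℂ)) ^ 2)) atTop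
      (𝓝 (ev a ((g : ℂ) * I) φ)) := by
    have := sz_prod Y ha hφ ((g : ℂ) * I)
    unfold HasProd at this
    simpa only [SummationFilter.unconditional_filter] using this
  refine ge_of_tendsto' h1.norm fun U => ?_
  rw [norm_prod]
  have h2 : ∀ s : Sz a φ, Real.exp (-(κ * (1 / (s : ℝ) ^ p))) ≤ ‖1 + ((g : ℂ) * I) ^ 2 / (((s : ℝ) : ℂ)) ^ 2‖ := by
    intro s
    have e : 1 + ((g : ℂ) * I) ^ 2 / (((s : ℝ) : ℂ)) ^ 2 = ((1 - g ^ 2 / (s : ℝ) ^ 2 : ℝ) : ℂ) := by
      rw [mul_pow, Complex.I_sq]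
      push_cast
      ring
    rw [e, Complex.norm_real]
    exact factor_low_p hp1 hp2 hg hε s.2.1 (h s s.2)
  calc Real.exp (-(κ * Bp D p)) ≤ Real.exp (∑ s ∈ U, -(κ * (1 / (s : ℝ) ^ p))) := by
        apply Real.exp_le_exp.mpr
        rw [Finset.sum_neg_distrib, ← Finset.mul_sum]
        exact neg_le_neg (mul_le_mul_of_nonneg_left (sum_s_le_p Y hsum hp1 ha hφ U) hκ0)
    _ = ∏ s ∈ U, Real.exp (-(κ * (1 / (s : ℝ) ^ p))) := Real.exp_sum _ _
    _ ≤ _ := Finset.prod_le_prod (fun s _ => (Real.exp_pos _).le) fun s _ => h2 s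

include hsum Y in
/-- a criterion for a zero near an ordinate -/
lemma near_p (hp1 : 0 ≤ p) (hp2 : p ≤ 2) (ρ0 : Pz D) {ε : ℝ} (hε : 0 < ε) (ha : 0 < a) {φ : HL} (hφ : Xt D a φ)
    (h : ival D a < Real.exp (-(2 * ((|Real.log (ε / (4 * gm ρ0))| + 1) * (2 * gm ρ0) ^ p * Bp D p)))) :
    ∃ s ∈ Sz a φ, |s - gm ρ0| < ε := by
  by_contra hcon
  push Not at hcon
  have h1 := lower_p Y hsum hp1 hp2 (gm_pos ρ0) hε ha hφ hcon
  have h2 := xt_bound ha (low_pos Y.hR ha) Y.hR hφ (ρ0 : D.ι)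
  have h3 : ev a (D.z ρ0) φ = ev a ((gm ρ0 : ℂ) * I) φ := by
    rw [z_eq Y ρ0]
    rfl
  rw [h3] at h2
  set κ : ℝ := (|Real.log (ε / (4 * gm ρ0))| + 1) * (2 * gm ρ0) ^ p * Bp D p with hκ
  have h4 : Real.exp (-(2 * κ)) = Real.exp (-κ) ^ 2 := by
    rw [← Real.exp_nat_mul]
    congr 1
    push_cast
    ring
  rw [h4] at h
  have h5 : Real.exp (-κ) ^ 2 ≤ ival D a := by
    refine le_trans ?_ h2
    calc Real.exp (-κ) ^ 2 ≤ ‖ev a ((gm ρ0 : ℂ) * I) φ‖ ^ 2 := pow_le_pow_left₀ (Real.exp_pos _).le h1 2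
      _ ≤ _ := le_mul_of_one_le_left (sq_nonneg _) (D.one_le ρ0)
  linarith

/-- all zeros up to height `exp ((2 - η) a)` are approximated -/
theorem uniform (hR : ∀ ρ : Zr, (zz ρ).re = 0) {η : ℝ} (hη : 0 < η) (hη2 : η ≤ 2) : ∃ A : ℝ, ∀ a : ℝ, A ≤ a →
    ∀ (_ : 0 < a) (φ : HL), Xt zetaDat a φ → ∀ ρ : Zr, |(zz ρ).im| ≤ Real.exp ((2 - η) * a) →
      ∃ z : ℂ, ‖z - zz ρ‖ < Real.exp (-Real.exp (η / 2 * a)) ∧ ev a z φ = 0 := by
  have Y := zSy hR
  set p : ℝ := 1 + η / 8 with hp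
  have hp1 : 0 ≤ p := by positivity
  have hp2 : p ≤ 2 := by linarith
  have hsum : Summable fun ρ : zetaDat.ι => zetaDat.m ρ / (1 + |(zetaDat.z ρ).im|) ^ p :=
    cfg_zeta.sum p (by rw [hp]; linarith)
  obtain ⟨c, A0, hc, hsmall⟩ := ival_small hR
  obtain ⟨δ, hδ, hlb⟩ := exists_lb (D := zetaDat)
  have hB0 : 0 ≤ Bp zetaDat p := tsum_nonneg fun ρ => by
    have := gm_pos ρ
    positivity
  set B : ℝ := Bp zetaDat p with hB
  set C1 : ℝ := Real.log 4 + |Real.log δ| with hC1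
  have hlog4 : 0 ≤ Real.log 4 := Real.log_nonneg (by norm_num)
  have hC10 : 0 ≤ C1 := by positivity
  -- asymptotics
  have ht1 : Tendsto (fun a : ℝ => (C1 + 2 * a + 1) * Real.exp (-(η / 2 * a))) atTop (𝓝 0) := by
    have h1 : Tendsto (fun a : ℝ => η / 2 * a) atTop atTop := tendsto_id.const_mul_atTop (by positivity)
    have h2 := (Real.tendsto_pow_mul_exp_neg_atTop_nhds_zero 1).comp h1
    have h3 := (Real.tendsto_pow_mul_exp_neg_atTop_nhds_zero 0).comp h1
    have h4 := (h3.const_mul (C1 + 1)).add (h2.const_mul (4 / η))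
    rw [mul_zero, mul_zero, add_zero] at h4
    refine h4.congr fun a => ?_
    simp only [Function.comp, pow_zero, pow_one]
    field_simp
    ring
  have ht2 : Tendsto (fun a : ℝ => 16 * B * Real.exp (-(η / 4 * a))) atTop (𝓝 0) := by
    have h1 : Tendsto (fun a : ℝ => η / 4 * a) atTop atTop := tendsto_id.const_mul_atTop (by positivity)
    have h2 := ((Real.tendsto_exp_neg_atTop_nhds_zero).comp h1).const_mul (16 * B)
    rwa [mul_zero] at h2
  have hev := (ht1.eventually_lt_const (one_pos)).and (ht2.eventually_lt_const hc)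
  obtain ⟨A1, hA1⟩ := eventually_atTop.mp hev
  refine ⟨max A0 A1, fun a haA ha φ hφ ρ hρ => ?_⟩
  obtain ⟨hx1, hx2⟩ := hA1 a ((le_max_right _ _).trans haA)
  have hx3 := hsmall a ((le_max_left _ _).trans haA) ha
  -- the positive case
  have key : ∀ ρ' : Pz zetaDat, gm ρ' ≤ Real.exp ((2 - η) * a) →
      ∃ s ∈ Sz a φ, |s - gm ρ'| < Real.exp (-Real.exp (η / 2 * a)) := by
    intro ρ' hρ'
    set g : ℝ := gm ρ' with hg
    have hgp : 0 < g := gm_pos ρ'
    set ε : ℝ := Real.exp (-Real.exp (η / 2 * a)) with hε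
    have hεp : 0 < ε := Real.exp_pos _
    apply near_p Y hsum hp1 hp2 ρ' hεp ha hφ
    refine lt_of_le_of_lt hx3 (Real.exp_lt_exp.mpr ?_)
    rw [neg_lt_neg_iff]
    -- the logarithm
    have hlog : |Real.log (ε / (4 * g))| ≤ Real.exp (η / 2 * a) + (C1 + 2 * a) := by
      rw [Real.log_div hεp.ne' (by positivity), hε, Real.log_exp, Real.log_mul (by norm_num) hgp.ne']
      have h1 : |Real.log g| ≤ |Real.log δ| + 2 * a := by
        rw [abs_le]
        constructor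
        · have h2 := Real.log_le_log hδ (hlb ρ')
          have h3 := neg_abs_le (Real.log δ)
          linarith
        · have h2 := Real.log_le_log hgp hρ'
          rw [Real.log_exp] at h2
          have h3 : 0 ≤ |Real.log δ| := abs_nonneg _
          nlinarith
      have h2 : |-Real.exp (η / 2 * a) - (Real.log 4 + Real.log g)| ≤
          Real.exp (η / 2 * a) + (Real.log 4 + |Real.log g|) := by
        refine (abs_sub _ _).trans (add_le_add ?_ ?_)
        · rw [abs_neg, abs_of_pos (Real.exp_pos _)]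
        · refine (abs_add_le _ _).trans ?_
          rw [abs_of_nonneg hlog4]
      refine h2.trans ?_
      rw [hC1]
      linarith
    -- the power
    have hpow : (2 * g) ^ p ≤ 4 * Real.exp ((2 - η) * p * a) := by
      rw [Real.mul_rpow (by norm_num) hgp.le]
      have h1 : (2 : ℝ) ^ p ≤ 4 := by
        have := Real.rpow_le_rpow_of_exponent_le (by norm_num : (1 : ℝ) ≤ 2) hp2
        rw [Real.rpow_two] at this
        linarith
      have h2 : g ^ p ≤ Real.exp ((2 - η) * p * a) := by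
        have h3 := Real.rpow_le_rpow hgp.le hρ' hp1
        rw [← Real.exp_mul] at h3
        refine h3.trans (le_of_eq ?_)
        congr 1
        ring
      have h3 : 0 ≤ g ^ p := by positivity
      nlinarith [Real.exp_pos ((2 - η) * p * a)]
    have hE1 : C1 + 2 * a + 1 < Real.exp (η / 2 * a) := by
      rw [Real.exp_neg, ← div_eq_mul_inv, div_lt_one (Real.exp_pos _)] at hx1
      exact hx1
    have hE2 : 16 * B < c * Real.exp (η / 4 * a) := by
      rw [Real.exp_neg, ← div_eq_mul_inv, div_lt_iff₀ (Real.exp_pos _)] at hx2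
      exact hx2
    have hexp : Real.exp (η / 2 * a) * Real.exp ((2 - η) * p * a) * Real.exp (η / 4 * a) ≤ Real.exp (2 * a) := by
      rw [← Real.exp_add, ← Real.exp_add]
      apply Real.exp_le_exp.mpr
      have e : η / 2 * a + (2 - η) * p * a + η / 4 * a = (2 - η ^ 2 / 8) * a := by
        rw [hp]
        ring
      rw [e]
      nlinarith [sq_nonneg η]
    set E1 : ℝ := Real.exp (η / 2 * a) with hE1'
    set E2 : ℝ := Real.exp ((2 - η) * p * a) with hE2'
    set E4 : ℝ := Real.exp (η / 4 * a) with hE4'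
    have hE1p : 0 < E1 := Real.exp_pos _
    have hE2p : 0 < E2 := Real.exp_pos _
    have hE4p : 0 < E4 := Real.exp_pos _
    have hL1 : |Real.log (ε / (4 * g))| + 1 ≤ 2 * E1 := by linarith
    have hfin : 2 * ((|Real.log (ε / (4 * g))| + 1) * (2 * g) ^ p * B) ≤ 16 * B * (E1 * E2) := by
      have h1 : (|Real.log (ε / (4 * g))| + 1) * (2 * g) ^ p ≤ 2 * E1 * (4 * E2) :=
        mul_le_mul hL1 hpow (by positivity) (by positivity)
      have h2 := mul_le_mul_of_nonneg_right h1 hB0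
      calc 2 * ((|Real.log (ε / (4 * g))| + 1) * (2 * g) ^ p * B) ≤ 2 * (2 * E1 * (4 * E2) * B) := by linarith
        _ = _ := by ring
    refine lt_of_le_of_lt hfin ?_
    calc 16 * B * (E1 * E2) < c * E4 * (E1 * E2) := mul_lt_mul_of_pos_right hE2 (by positivity)
      _ = c * (E1 * E2 * E4) := by ring
      _ ≤ c * Real.exp (2 * a) := mul_le_mul_of_nonneg_left hexp hc.le
  have hne : (zz ρ).im ≠ 0 := by
    rw [Pool.Agent.V11271.LI.zz_im]
    exact Zr.im_ne ρ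
  have hzρ : zz ρ = ((zz ρ).im : ℂ) * I := z_eq Y ρ
  rcases lt_or_gt_of_ne hne with h | h
  · have hp' : 0 < (zetaDat.z (sgE ρ)).im := by
      show 0 < (zz (sgE ρ)).im
      rw [zz_sg, Complex.neg_im]
      linarith
    have hgm : gm (⟨sgE ρ, hp'⟩ : Pz zetaDat) = -(zz ρ).im := by
      show (zz (sgE ρ)).im = _
      rw [zz_sg, Complex.neg_im]
    obtain ⟨s, hs, h1⟩ := key ⟨sgE ρ, hp'⟩ (by
      rw [hgm]
      rw [abs_of_neg h] at hρ
      exact hρ)
    rw [hgm] at h1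
    refine ⟨-((s : ℂ) * I), ?_, (sz_iff Y ha hφ _).mpr ⟨s, hs, Or.inr rfl⟩⟩
    have e : -((s : ℂ) * I) - zz ρ = -(((s - -(zz ρ).im : ℝ) : ℂ) * I) := by
      conv_lhs => rw [hzρ]
      push_cast
      ring
    rw [e, norm_neg, norm_mul, Complex.norm_I, mul_one, Complex.norm_real]
    exact h1
  · obtain ⟨s, hs, h1⟩ := key ⟨ρ, h⟩ (by
      rw [abs_of_pos h] at hρ
      exact hρ)
    refine ⟨(s : ℂ) * I, ?_, hs.2⟩
    have e : (s : ℂ) * I - zz ρ = (((s - (zz ρ).im : ℝ) : ℂ) * I) := by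
      conv_lhs => rw [hzρ]
      push_cast
      ring
    rw [e, norm_mul, Complex.norm_I, mul_one, Complex.norm_real]
    exact h1

end Pool.Agent.Helper61.XL
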