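import Pool.Agent.Helper61.XL.Xs

set_option autoImplicit false

/-!
# A multiple zero is seen by the limit at every real point
-/

namespace Pool.Agent.Helper61.XL

open Complex Filter Topology Set MeasureTheory
open Pool.Agent.Helper61.W Pool.Agent.Helper61.W.GS Pool.Agent.Helper61.GA
open scoped ComplexConjugate ContDiff Polynomial
open Pool.Agent.V11271.LI (Zr mm cfg_zeta zz mm_one_le reflE zz_refl mm_refl zeta_anal Zr.im_ne)

lemma Xn_order_ne_top (w : ℂ) : analyticOrderAt Xn w ≠ ⊤ := by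
  have ha : AnalyticOnNhd ℂ Xn univ := fun z _ => Xn_diff.analyticAt z
  have h0 : analyticOrderAt Xn 0 ≠ ⊤ := by
    rw [((Xn_diff.analyticAt 0).analyticOrderAt_eq_zero).mpr (by rw [Xn_zero]; exact one_ne_zero)]
    exact ENat.zero_ne_top
  exact ha.analyticOrderAt_ne_top_of_isPreconnected isPreconnected_univ (mem_univ 0) (mem_univ w) h0

lemma Xn_order_pos {w : ℂ} (h : Xn w = 0) : 1 ≤ analyticOrderNatAt Xn w := by
  have h1 : analyticOrderAt Xn w ≠ 0 := by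
    rw [(Xn_diff.analyticAt w).analyticOrderAt_ne_zero]
    exact h
  have h2 := Nat.cast_analyticOrderNatAt (Xn_order_ne_top w)
  rw [Nat.one_le_iff_ne_zero]
  intro h3
  apply h1
  rw [← h2, h3]
  rfl

lemma Xn_order_two {w : ℂ} (h : Xn w = 0) (hd : deriv Xn w = 0) : 2 ≤ analyticOrderNatAt Xn w := by
  have h1 := (Xn_diff.analyticAt w).analyticOrderAt_deriv_add_one
  have e : (fun z => Xn z - Xn w) = Xn := by
    funext z
    rw [h, sub_zero]
  rw [e] at h1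
  have h2 : analyticOrderAt (deriv Xn) w ≠ 0 := by
    rw [(Xn_diff.analyticAt w).deriv.analyticOrderAt_ne_zero]
    exact hd
  have h3 := Nat.cast_analyticOrderNatAt (Xn_order_ne_top w)
  have h4 : (1 : ℕ∞) ≤ analyticOrderAt (deriv Xn) w := Order.one_le_iff_ne_zero.mpr h2
  have h5 : (2 : ℕ∞) ≤ (analyticOrderNatAt Xn w : ℕ∞) := by
    rw [h3, ← h1]
    calc (2 : ℕ∞) = 1 + 1 := by norm_num
      _ ≤ _ := by gcongr
  exact_mod_cast h5

lemma Xn_deriv_neg (w : ℂ) : deriv Xn (-w) = -deriv Xn w := by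
  have h1 : HasDerivAt (fun z => Xn (-z)) (-deriv Xn (-w)) w := by
    have h2 : HasDerivAt Xn (deriv Xn (-w)) (-w) := (Xn_diff (-w)).hasDerivAt
    have h3 : HasDerivAt (fun z : ℂ => -z) (-1) w := (hasDerivAt_id w).neg
    have h4 := HasDerivAt.comp w h2 h3
    refine h4.congr_deriv ?_
    ring
  have h2 : (fun z => Xn (-z)) = Xn := funext Xn_even
  rw [h2] at h1
  rw [h1.deriv, neg_neg]

lemma Xn_deriv_of {ρ : Zr} (h : deriv riemannZeta (ρ : ℂ) = 0) : deriv Xn (zz ρ) = 0 := by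
  have e : 1 / 2 + zz ρ = (ρ : ℂ) := by
    unfold zz
    ring
  have h0 : (ρ : ℂ) ≠ 0 := by
    intro h
    have := ρ.2.2.1
    rw [h] at this
    simp at this
  have h1 : (ρ : ℂ) ≠ 1 := ρ.ne_one
  have hev : Xi =ᶠ[𝓝 (ρ : ℂ)] fun z => z * (z - 1) * Gammaℝ z * riemannZeta z := by
    have e1 : ∀ᶠ z in 𝓝 (ρ : ℂ), z ≠ 0 := isOpen_ne.mem_nhds h0
    have e2 : ∀ᶠ z in 𝓝 (ρ : ℂ), z ≠ 1 := isOpen_ne.mem_nhds h1
    have e3 : ∀ᶠ z : ℂ in 𝓝 (ρ : ℂ), 0 < z.re := (isOpen_lt continuous_const continuous_re).mem_nhds ρ.2.2.1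
    filter_upwards [e1, e2, e3] with z hz1 hz2 hz3
    exact Xi_eq hz1 hz2 (Gammaℝ_ne_zero_of_re_pos hz3)
  have d1 : DifferentiableAt ℂ (fun z : ℂ => z * (z - 1) * Gammaℝ z) (ρ : ℂ) := by
    have := (analyticAt_Gammaℝ ρ.2.2.1).differentiableAt
    fun_prop
  have d2 : HasDerivAt (fun z : ℂ => z * (z - 1) * Gammaℝ z * riemannZeta z)
      (deriv (fun z : ℂ => z * (z - 1) * Gammaℝ z) (ρ : ℂ) * riemannZeta (ρ : ℂ) +
        ((ρ : ℂ) * ((ρ : ℂ) - 1) * Gammaℝ (ρ : ℂ)) * deriv riemannZeta (ρ : ℂ)) (ρ : ℂ) :=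
    d1.hasDerivAt.mul (differentiableAt_riemannZeta h1).hasDerivAt
  have d3 : deriv Xi (ρ : ℂ) = 0 := by
    rw [hev.deriv_eq, d2.deriv, ρ.2.1, mul_zero, zero_add, h, mul_zero]
  have d4 : HasDerivAt Xn (deriv Xi (ρ : ℂ) / Xi (1 / 2)) (zz ρ) := by
    have h5 : HasDerivAt (fun z : ℂ => Xi (1 / 2 + z)) (deriv Xi (1 / 2 + zz ρ)) (zz ρ) :=
      HasDerivAt.comp_const_add (1 / 2) (zz ρ) (Xi_diff _).hasDerivAt
    rw [e] at h5
    exact h5.div_const _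
  rw [d4.deriv, d3, zero_div]

/-- a multiple zero changes the value of the limit at every real point -/
theorem pr_ne (hR : ∀ ρ : Zr, (zz ρ).re = 0) (hs : ∃ ρ : Zr, deriv riemannZeta (ρ : ℂ) = 0) {x : ℝ} (hx : x ≠ 0) :
    Pr zetaDat x ≠ Xn x := by
  classical
  intro heq
  obtain ⟨C, hC⟩ := Xn_growth
  obtain ⟨hfin, hlim⟩ := even_product_mult Xn_diff Xn_zero Xn_even hC Or_pos (Xn_zero_iff hR)
  obtain ⟨ρ0, hρ0⟩ := hs
  -- the multiple zero
  have hz0 : Xn (zz ρ0) = 0 := (Xn_zero_iff' _).mpr ⟨ρ0, rfl⟩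
  have hd0 := Xn_deriv_of hρ0
  obtain ⟨σ0, hσ0, hor⟩ := (Xn_zero_iff hR (zz ρ0)).mp hz0
  have hσpos := Or_pos σ0 hσ0
  have hdσ : deriv Xn ((σ0 : ℂ) * I) = 0 := by
    rcases hor with h | h
    · rw [← h]
      exact hd0
    · have h1 := Xn_deriv_neg ((σ0 : ℂ) * I)
      rw [← h, hd0] at h1
      exact (neg_eq_zero.mp h1.symm)
  have hzero : ∀ σ ∈ Or, Xn ((σ : ℂ) * I) = 0 := fun σ hσ => (Xn_zero_iff hR _).mpr ⟨σ, hσ, Or.inl rfl⟩
  have h2 := Xn_order_two (hzero σ0 hσ0) hdσ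
  -- the factors
  set f : ℝ → ℝ := fun σ => 1 + x ^ 2 / σ ^ 2 with hf
  have hf1 : ∀ σ, 1 ≤ f σ := fun σ => by
    simp only [hf]
    have : 0 ≤ x ^ 2 / σ ^ 2 := by positivity
    linarith
  have hfc : ∀ σ : ℝ, (1 + (x : ℂ) ^ 2 / (σ : ℂ) ^ 2) = ((f σ : ℝ) : ℂ) := fun σ => by
    simp only [hf]
    push_cast
    rfl
  have hl1 := (pr_lim hR hfin (x : ℂ)).norm
  have hl2 := (hlim (x : ℂ)).norm
  simp only [hfc] at hl1 hl2
  have hn1 : ∀ R, ‖∏ σ ∈ (hfin R).toFinset, ((f σ : ℝ) : ℂ)‖ = ∏ σ ∈ (hfin R).toFinset, f σ := by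
    intro R
    rw [norm_prod]
    refine Finset.prod_congr rfl fun σ _ => ?_
    rw [Complex.norm_real, Real.norm_of_nonneg (by linarith [hf1 σ])]
  have hn2 : ∀ R, ‖∏ σ ∈ (hfin R).toFinset, ((f σ : ℝ) : ℂ) ^ analyticOrderNatAt Xn ((σ : ℂ) * I)‖ =
      ∏ σ ∈ (hfin R).toFinset, f σ ^ analyticOrderNatAt Xn ((σ : ℂ) * I) := by
    intro R
    rw [norm_prod]
    refine Finset.prod_congr rfl fun σ _ => ?_
    rw [norm_pow, Complex.norm_real, Real.norm_of_nonneg (by linarith [hf1 σ])]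
  simp only [hn1] at hl1
  simp only [hn2] at hl2
  have hge1 : 1 ≤ ‖Pr zetaDat (x : ℂ)‖ := by
    refine ge_of_tendsto' hl1 fun R => ?_
    calc (1 : ℝ) = ∏ σ ∈ (hfin R).toFinset, (1 : ℝ) := by simp
      _ ≤ _ := Finset.prod_le_prod (fun _ _ => zero_le_one) fun σ _ => hf1 σ
  have hcmp : f σ0 * ‖Pr zetaDat (x : ℂ)‖ ≤ ‖Xn (x : ℂ)‖ := by
    refine le_of_tendsto_of_tendsto (hl1.const_mul (f σ0)) hl2 ?_
    filter_upwards [eventually_gt_atTop σ0] with R hR'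
    have hmem : σ0 ∈ (hfin R).toFinset := by
      rw [Set.Finite.mem_toFinset]
      exact ⟨hσ0, hR'⟩
    rw [← Finset.mul_prod_erase _ f hmem,
      ← Finset.mul_prod_erase _ (fun σ => f σ ^ analyticOrderNatAt Xn ((σ : ℂ) * I)) hmem, ← mul_assoc]
    apply mul_le_mul
    · rw [← pow_two]
      exact pow_le_pow_right₀ (hf1 σ0) h2
    · apply Finset.prod_le_prod (fun σ _ => by linarith [hf1 σ])
      intro σ hσ
      have hσO : σ ∈ Or := by
        have := Finset.mem_of_mem_erase hσ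
        rw [Set.Finite.mem_toFinset] at this
        exact this.1
      exact le_self_pow₀ (hf1 σ) (Nat.one_le_iff_ne_zero.mp (Xn_order_pos (hzero σ hσO)))
    · exact Finset.prod_nonneg fun σ _ => by linarith [hf1 σ]
    · exact pow_nonneg (by linarith [hf1 σ0]) _
  have hgt : 1 < f σ0 := by
    simp only [hf]
    have : 0 < x ^ 2 / σ0 ^ 2 := by positivity
    linarith
  rw [← heq] at hcmp
  nlinarith

end Pool.Agent.Helper61.XL
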