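import Pool.Agent.Helper61.XL.Ex

set_option autoImplicit false

/-!
# The zeros of extremal functions
-/

namespace Pool.Agent.Helper61.XL

open Complex Filter Topology Set MeasureTheory
open Pool.Agent.Helper61.W Pool.Agent.Helper61.W.GS Pool.Agent.Helper61.GA
open scoped ComplexConjugate ContDiff Polynomial

variable {D : Dat} {a : ℝ} (ha : 0 < a) (hl : 0 < D.low a)

include ha hl

omit ha hl in
lemma Ao_sub' (w : ℂ) (x y : Ts a) : Ao a w (x - y) = Ao a w x - Ao a w y := by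
  apply Subtype.ext
  funext t
  have hx := (Ts.tf x.2).hasDerivAt t
  have hy := (Ts.tf y.2).hasDerivAt t
  have hd : deriv (fun t => (x : ℝ → ℂ) t - (y : ℝ → ℂ) t) t = deriv x t - deriv y t := (hx.sub hy).deriv
  show -(deriv (fun t => (x : ℝ → ℂ) t - (y : ℝ → ℂ) t) t + w * ((x : ℝ → ℂ) t - (y : ℝ → ℂ) t)) =
    -(deriv x t + w * (x : ℝ → ℂ) t) - -(deriv y t + w * (y : ℝ → ℂ) t)
  rw [hd]
  ring

omit ha hl in
lemma Ao_smul' (w c : ℂ) (x : Ts a) : Ao a w (c • x) = c • Ao a w x := by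
  apply Subtype.ext
  funext t
  have hx := (Ts.tf x.2).hasDerivAt t
  have hd : deriv (fun t => c * (x : ℝ → ℂ) t) t = c * deriv x t := (hx.const_mul c).deriv
  show -(deriv (fun t => c * (x : ℝ → ℂ) t) t + w * (c * (x : ℝ → ℂ) t)) =
    c * -(deriv x t + w * (x : ℝ → ℂ) t)
  rw [hd]
  ring

omit ha hl in
lemma Ao_add' (w : ℂ) (x y : Ts a) : Ao a w (x + y) = Ao a w x + Ao a w y := by
  apply Subtype.ext
  funext t
  have hx := (Ts.tf x.2).hasDerivAt t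
  have hy := (Ts.tf y.2).hasDerivAt t
  have hd : deriv (fun t => (x : ℝ → ℂ) t + (y : ℝ → ℂ) t) t = deriv x t + deriv y t := (hx.add hy).deriv
  show -(deriv (fun t => (x : ℝ → ℂ) t + (y : ℝ → ℂ) t) t + w * ((x : ℝ → ℂ) t + (y : ℝ → ℂ) t)) =
    -(deriv x t + w * (x : ℝ → ℂ) t) + -(deriv y t + w * (y : ℝ → ℂ) t)
  rw [hd]
  ring

omit ha hl in
lemma tendsto_bounded {G : ℕ → Ts a} {φ : HL} (h : Tendsto (fun n => toL a (G n)) atTop (𝓝 φ)) :
    ∃ M : ℝ, ∀ n, ‖toL a (G n)‖ ≤ M := by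
  obtain ⟨M, hM⟩ := h.norm.bddAbove_range
  exact ⟨M, fun n => hM ⟨n, rfl⟩⟩

omit ha hl in
lemma summable_sq (hR : ∀ ρ : D.ι, (D.z ρ).re = 0) (g : Ts a) : Summable fun ρ : D.ι => D.m ρ * ‖W.LT g (D.z ρ)‖ ^ 2 := by
  have h2 := (GA.summable_wt (D := D) (Ts.tf g.2) (Ts.tf g.2)).congr (wt_self hR g)
  exact Complex.summable_ofReal.mp h2

/-- dividing out two zeros -/
lemma two_zeros {φ : HL} (hφ : Xt D a φ) {w1 w2 : ℂ} (h1 : ev a w1 φ = 0)
    (h2 : ∀ ψ : HL, (∀ z, ev a z φ = (z - w1) * ev a z ψ) → ev a w2 ψ = 0) :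
    ∃ (L : ℕ → Ts a) (χ : HL), Tendsto (fun n => toL a (L n)) atTop (𝓝 χ) ∧
      (∀ z, ev a z φ = (z - w1) * ((z - w2) * ev a z χ)) ∧
      Tendsto (fun n => D.Wf (Ao a w1 (Ao a w2 (L n))) (Ao a 0 (Ao a 0 (L n)))) atTop (𝓝 0) := by
  obtain ⟨G, hG, hlim⟩ := hφ
  obtain ⟨M, hM⟩ := mins_bounded ha hl hG
  obtain ⟨c, η, hc, hz, hlm⟩ := adjust ha hlim h1
  obtain ⟨M1, hM1⟩ := adjust_bounded ha hl hM hc η
  obtain ⟨K, ψ, hK, hψ, hev⟩ := div_seq ha hlm hz
  obtain ⟨d, θ, hd, hz', hl'⟩ := adjust ha hψ (h2 ψ hev)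
  obtain ⟨L, χ, hL, hχ, hev'⟩ := div_seq ha hl' hz'
  refine ⟨L, χ, hχ, fun z => by rw [hev, hev'], ?_⟩
  have hA : ∀ n, Ao a w1 (Ao a w2 (L n)) = (G n - c n • η) - d n • Ao a w1 θ := by
    intro n
    rw [hL n, Ao_sub', Ao_smul', hK n]
  obtain ⟨M2, hM2⟩ := adjust_bounded ha hl hM1 hd (Ao a w1 θ)
  have horth := orth_adjust ha hl (orth_adjust ha hl (mins_orth ha hl hG) hc η) hd (Ao a w1 θ)
  obtain ⟨e, he, hb⟩ := horth
  -- the pieces are bounded
  obtain ⟨C1, hC1, h1'⟩ := qn_h1 ha hl w2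
  obtain ⟨C2, hC2, h2'⟩ := qn_h1 ha hl w1
  have hlimK : Tendsto (fun n => toL a (Ao a w1 (Ao a w2 (L n)))) atTop (𝓝 φ) := by
    have h3 := hlm.sub (hd.smul_const (toL a (Ao a w1 θ)))
    rw [zero_smul, sub_zero] at h3
    refine h3.congr fun n => ?_
    rw [hA]
    simp only [map_sub, map_smul]
  obtain ⟨N1, hN1⟩ := tendsto_bounded hlimK
  obtain ⟨N2, hN2⟩ := tendsto_bounded hl'
  have b1 : ∀ n, (qf ha hl).bn (L n) ≤ C1 * N2 := fun n => by
    refine (h1' (L n)).trans (mul_le_mul_of_nonneg_left ?_ hC1)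
    rw [hL n]
    exact hN2 n
  have b2 : ∀ n, (qf ha hl).bn (Ao a w2 (L n)) ≤ C2 * N1 := fun n =>
    (h2' _).trans (mul_le_mul_of_nonneg_left (hN1 n) hC2)
  have b3 : ∀ n, (qf ha hl).bn (Ao a w1 (Ao a w2 (L n))) ≤ M2 := fun n => by
    rw [hA n]
    exact hM2 n
  have hexp : ∀ n, Ao a 0 (Ao a 0 (L n)) = Ao a w1 (Ao a w2 (L n)) + (w2 + w1) • Ao a w2 (L n) +
      (w2 * w2) • L n := by
    intro n
    have e1 : Ao a 0 (L n) = Ao a w2 (L n) + w2 • L n := by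
      rw [Ao_eq 0 w2 (L n), sub_zero]
    have e2 : Ao a 0 (Ao a w2 (L n)) = Ao a w1 (Ao a w2 (L n)) + w1 • Ao a w2 (L n) := by
      rw [Ao_eq 0 w1 (Ao a w2 (L n)), sub_zero]
    rw [e1, Ao_add', Ao_smul', e2, e1, smul_add, add_smul, mul_smul]
    abel
  set B : ℝ := M2 + ‖w2 + w1‖ * (C2 * N1) + ‖w2 * w2‖ * (C1 * N2) with hB
  have b4 : ∀ n, (qf ha hl).bn (Ao a 0 (Ao a 0 (L n))) ≤ B := by
    intro n
    rw [hexp n]
    refine ((qf ha hl).bn_add _ _).trans ?_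
    refine add_le_add (((qf ha hl).bn_add _ _).trans (add_le_add (b3 n) ?_)) ?_
    · rw [(qf ha hl).bn_smul]
      exact mul_le_mul_of_nonneg_left (b2 n) (norm_nonneg _)
    · rw [(qf ha hl).bn_smul]
      exact mul_le_mul_of_nonneg_left (b1 n) (norm_nonneg _)
  have h5 : Tendsto (fun n => |e n| * B) atTop (𝓝 0) := by
    have := he.abs.mul_const B
    rwa [abs_zero, zero_mul] at this
  refine squeeze_zero_norm (fun n => ?_) h5
  rw [hA n]
  refine (hb n _ ?_).trans ?_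
  · rw [LT_Ao]
    simp
  · exact mul_le_mul (le_abs_self _) (b4 n) ((qf ha hl).bn_nonneg _) (abs_nonneg _)

/-- a zero and its reflection cannot both be zeros -/
lemma no_pair {φ : HL} (hφ : Xt D a φ) {w : ℂ} (h1 : ev a w φ = 0)
    (h2 : ∀ ψ : HL, (∀ z, ev a z φ = (z - w) * ev a z ψ) → ev a (-conj w) ψ = 0) : False := by
  obtain ⟨L, χ, hχ, hev, hlim⟩ := two_zeros ha hl hφ h1 h2
  have e1 : ∀ n, D.Wf (Ao a w (Ao a (-conj w) (L n))) (Ao a 0 (Ao a 0 (L n))) =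
      D.Wf (Ao a 0 (Ao a w (L n))) (Ao a 0 (Ao a w (L n))) := by
    intro n
    unfold Dat.Wf
    congr 1
    funext ρ
    unfold Dat.wt
    rw [LT_Ao, LT_Ao, LT_Ao, LT_Ao, LT_Ao, LT_Ao, LT_Ao, LT_Ao]
    simp only [map_mul, map_sub, map_zero, map_neg, Complex.conj_conj]
    ring
  have h3 : Tendsto (fun n => (qf ha hl).bn (Ao a 0 (Ao a w (L n))) ^ 2) atTop (𝓝 0) := by
    have h4 := hlim.norm
    rw [norm_zero] at h4
    refine squeeze_zero (fun n => sq_nonneg _) (fun n => ?_) h4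
    rw [e1, (qf ha hl).bn_sq]
    exact Complex.re_le_norm _
  have h4 := norm_tendsto ha hl h3
  obtain ⟨C1, hC1, h1'⟩ := inv_bound ha w
  obtain ⟨C2, hC2, h2'⟩ := inv_bound ha 0
  have h5 : Tendsto (fun n => toL a (L n)) atTop (𝓝 0) := by
    have h6 := h4.norm.const_mul (C1 * C2)
    rw [norm_zero, mul_zero] at h6
    refine squeeze_zero_norm (fun n => ?_) h6
    calc ‖toL a (L n)‖ ≤ C1 * ‖toL a (Ao a w (L n))‖ := h1' _
      _ ≤ C1 * (C2 * ‖toL a (Ao a 0 (Ao a w (L n)))‖) := mul_le_mul_of_nonneg_left (h2' _) hC1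
      _ = _ := by ring
  have h6 : χ = 0 := tendsto_nhds_unique hχ h5
  have h7 := xt_zero hφ
  rw [hev 0, h6, map_zero, mul_zero, mul_zero] at h7
  exact zero_ne_one h7

/-- symmetric minimising sequences have the same limit -/
lemma sym_star {φ : HL} (hφ : Xt D a φ) (z : ℂ) : ev a z φ = conj (ev a (-conj z) φ) := by
  obtain ⟨G, hG, hlim⟩ := hφ
  have hm : ∀ n, star' (G n) ∈ Ts a := fun n =>
    ⟨((Ts.tf (G n).2).star').smooth, fun x hx => by
      unfold star'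
      rw [(G n).2.2 (-x) (by rwa [abs_neg]), map_zero]⟩
  have hLT : ∀ n z, W.LT (star' (G n)) z = conj (W.LT (G n) (-conj z)) := fun n z => LT_star (Ts.tf (G n).2) z
  have hH : Mins D a fun n => ⟨star' (G n), hm n⟩ := by
    refine ⟨fun n => ?_, hG.2.congr fun n => ?_⟩
    · show W.LT (star' (G n)) 0 = 1
      rw [hLT, map_zero, neg_zero, hG.1, map_one]
    · apply congrArg Complex.re
      show D.Wf (G n) (G n) = D.Wf (star' (G n)) (star' (G n))
      unfold Dat.Wf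
      refine tsum_congr fun ρ => ?_
      unfold Dat.wt
      rw [hLT, hLT]
      simp only [map_neg, Complex.conj_conj, neg_neg]
      ring
  have h1 := mins_limit ha hl hG hH hlim
  have h2 := ((ev a z).continuous.tendsto φ).comp h1
  have h3 := (Complex.continuous_conj.tendsto _).comp (((ev a (-conj z)).continuous.tendsto φ).comp hlim)
  refine tendsto_nhds_unique h2 (h3.congr fun n => ?_)
  show conj (ev a (-conj z) (toL a (G n))) = ev a z (toL a ⟨star' (G n), hm n⟩)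
  rw [ev_toL, ev_toL]
  exact (hLT n z).symm

omit ha hl in
lemma LT_neg_arg (g : ℝ → ℂ) (z : ℂ) : W.LT (fun x => g (-x)) z = W.LT g (-z) := by
  unfold W.LT
  rw [← integral_neg_eq_self]
  congr 1
  funext u
  simp

/-- the transform of an extremal element is even -/
lemma sym_even (σ : D.ι ≃ D.ι) (hσ : ∀ ρ, D.z (σ ρ) = -D.z ρ) (hm : ∀ ρ, D.m (σ ρ) = D.m ρ)
    {φ : HL} (hφ : Xt D a φ) (z : ℂ) : ev a (-z) φ = ev a z φ := by
  obtain ⟨G, hG, hlim⟩ := hφ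
  have hmem : ∀ n, (fun x : ℝ => (G n : ℝ → ℂ) (-x)) ∈ Ts a := fun n =>
    ⟨(G n).2.1.comp contDiff_neg, fun x hx => (G n).2.2 (-x) (by rwa [abs_neg])⟩
  have hLT : ∀ n z, W.LT (fun x => (G n : ℝ → ℂ) (-x)) z = W.LT (G n) (-z) := fun n z => LT_neg_arg _ z
  have hH : Mins D a fun n => ⟨fun x : ℝ => (G n : ℝ → ℂ) (-x), hmem n⟩ := by
    refine ⟨fun n => ?_, hG.2.congr fun n => ?_⟩
    · show W.LT (fun x => (G n : ℝ → ℂ) (-x)) 0 = 1
      rw [hLT, neg_zero, hG.1]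
    · apply congrArg Complex.re
      show D.Wf (G n) (G n) = D.Wf (fun x : ℝ => (G n : ℝ → ℂ) (-x)) (fun x : ℝ => (G n : ℝ → ℂ) (-x))
      unfold Dat.Wf
      rw [← σ.tsum_eq (D.wt (G n) (G n))]
      refine tsum_congr fun ρ => ?_
      unfold Dat.wt
      rw [hLT, hLT, hσ, hm, map_neg]
  have h1 := mins_limit ha hl hG hH hlim
  have h2 := ((ev a z).continuous.tendsto φ).comp h1
  have h3 := (((ev a (-z)).continuous.tendsto φ).comp hlim)
  refine (tendsto_nhds_unique h2 (h3.congr fun n => ?_)).symm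
  show ev a (-z) (toL a (G n)) = ev a z (toL a ⟨fun x : ℝ => (G n : ℝ → ℂ) (-x), hmem n⟩)
  rw [ev_toL, ev_toL]
  exact (hLT n z).symm

/-- the zeros of an extremal element are simple and on the line -/
theorem xt_zeros {φ : HL} (hφ : Xt D a φ) {w : ℂ} (h : ev a w φ = 0) :
    w.re = 0 ∧ deriv (fun z => ev a z φ) w ≠ 0 := by
  have h0 : ev a (-conj w) φ = 0 := by
    have h1 := sym_star ha hl hφ (-conj w)
    rw [map_neg, Complex.conj_conj, neg_neg, h, map_zero] at h1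
    exact h1
  by_cases hre : w.re = 0
  · refine ⟨hre, fun hd => ?_⟩
    have hw : -conj w = w := by
      apply Complex.ext
      · simp [hre]
      · simp
    refine no_pair ha hl hφ h fun ψ hψ => ?_
    rw [hw]
    have e : (fun z => ev a z φ) = fun z => (z - w) * ev a z ψ := funext hψ
    rw [e] at hd
    have h3 : HasDerivAt (fun z => (z - w) * ev a z ψ)
        (1 * ev a w ψ + (w - w) * deriv (fun z => ev a z ψ) w) w :=
      ((hasDerivAt_id w).sub_const w).mul ((ev_differentiable ψ) w).hasDerivAt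
    rw [h3.deriv] at hd
    simpa using hd
  · exfalso
    refine no_pair ha hl hφ h fun ψ hψ => ?_
    have h1 := hψ (-conj w)
    rw [h0] at h1
    refine (mul_eq_zero.mp h1.symm).resolve_left ?_
    intro h2
    have h3 := congrArg Complex.re h2
    simp at h3
    apply hre
    linarith

/-- one term of the form -/
lemma term_le (hR : ∀ ρ : D.ι, (D.z ρ).re = 0) (g : Ts a) (ρ : D.ι) : D.m ρ * ‖W.LT g (D.z ρ)‖ ^ 2 ≤ (qf ha hl).bn g ^ 2 := by
  rw [(qf ha hl).bn_sq]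
  show _ ≤ (D.Wf g g).re
  rw [Wf_self_eq hR, Complex.ofReal_re]
  refine (summable_sq hR g).le_tsum ρ fun j _ => mul_nonneg (D.m_nonneg j) (sq_nonneg _)

lemma xt_bound (hR : ∀ ρ : D.ι, (D.z ρ).re = 0) {φ : HL} (hφ : Xt D a φ) (ρ : D.ι) : D.m ρ * ‖ev a (D.z ρ) φ‖ ^ 2 ≤ ival D a := by
  obtain ⟨G, hG, hlim⟩ := hφ
  have h1 := (((((ev a (D.z ρ)).continuous.tendsto φ).comp hlim).norm).pow 2).const_mul (D.m ρ)
  refine le_of_tendsto_of_tendsto' h1 hG.2 fun n => ?_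
  show D.m ρ * ‖ev a (D.z ρ) (toL a (G n))‖ ^ 2 ≤ _
  rw [ev_toL]
  have := term_le ha hl hR (G n) ρ
  rwa [(qf ha hl).bn_sq] at this

/-- an extremal element does not vanish at all the zeros -/
lemma xt_not_all (hR : ∀ ρ : D.ι, (D.z ρ).re = 0) {φ : HL} (hφ : Xt D a φ) (h : ∀ ρ : D.ι, ev a (D.z ρ) φ = 0) : False := by
  have hφ0 := hφ
  obtain ⟨G, hG, hlim⟩ := hφ
  have key : ∀ n, (qf ha hl).bn (G n) ^ 2 ≤ 2 * ((D.Wf (G n) (G n)).re - ival D a) := by
    intro n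
    rw [(qf ha hl).bn_sq]
    show (D.Wf (G n) (G n)).re ≤ _
    conv_lhs => rw [Wf_self_eq hR, Complex.ofReal_re]
    apply Real.tsum_le_of_sum_le (fun ρ => mul_nonneg (D.m_nonneg ρ) (sq_nonneg _))
    intro S
    have h1 : ∀ m, ∑ ρ ∈ S, D.m ρ * ‖ev a (D.z ρ) (toL a (G n)) - ev a (D.z ρ) (toL a (G m))‖ ^ 2 ≤
        2 * ((D.Wf (G n) (G n)).re - ival D a) + 2 * ((D.Wf (G m) (G m)).re - ival D a) := by
      intro m
      have h2 := diff_bound ha hl (G n) (G m) (hG.1 n) (hG.1 m)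
      rw [(qf ha hl).bn_sq (G n), (qf ha hl).bn_sq (G m)] at h2
      refine le_trans ?_ h2
      rw [(qf ha hl).bn_sq]
      show _ ≤ (D.Wf ((G n - G m : Ts a) : ℝ → ℂ) ((G n - G m : Ts a) : ℝ → ℂ)).re
      rw [Wf_self_eq hR, Complex.ofReal_re]
      have h3 := (summable_sq hR (G n - G m)).sum_le_tsum S fun j _ => mul_nonneg (D.m_nonneg j) (sq_nonneg _)
      refine le_trans (le_of_eq (Finset.sum_congr rfl fun ρ _ => ?_)) h3
      rw [ev_toL, ev_toL, LT_sub']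
    have h2 : Tendsto (fun m => ∑ ρ ∈ S, D.m ρ * ‖ev a (D.z ρ) (toL a (G n)) - ev a (D.z ρ) (toL a (G m))‖ ^ 2)
        atTop (𝓝 (∑ ρ ∈ S, D.m ρ * ‖ev a (D.z ρ) (toL a (G n)) - ev a (D.z ρ) φ‖ ^ 2)) := by
      apply tendsto_finsetSum
      intro ρ _
      exact (((((ev a (D.z ρ)).continuous.tendsto φ).comp hlim).const_sub _).norm.pow 2).const_mul _
    have h3 : Tendsto (fun m => 2 * ((D.Wf (G n) (G n)).re - ival D a) + 2 * ((D.Wf (G m) (G m)).re - ival D a))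
        atTop (𝓝 (2 * ((D.Wf (G n) (G n)).re - ival D a))) := by
      have := ((hG.2.sub_const (ival D a)).const_mul 2).const_add (2 * ((D.Wf (G n) (G n)).re - ival D a))
      rwa [sub_self, mul_zero, add_zero] at this
    have h4 := le_of_tendsto_of_tendsto' h2 h3 h1
    refine le_trans (le_of_eq (Finset.sum_congr rfl fun ρ _ => ?_)) h4
    rw [h ρ, sub_zero, ev_toL]
  have h5 : Tendsto (fun n => (qf ha hl).bn (G n) ^ 2) atTop (𝓝 0) := by
    have := (hG.2.sub_const (ival D a)).const_mul 2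
    rw [sub_self, mul_zero] at this
    exact squeeze_zero (fun n => sq_nonneg _) key this
  have h6 := tendsto_nhds_unique hlim (norm_tendsto ha hl h5)
  have h7 := xt_zero hφ0
  rw [h6, map_zero] at h7
  exact zero_ne_one h7

/-- between two zeros of an extremal element there is a zero of the configuration -/
theorem gap (hR : ∀ ρ : D.ι, (D.z ρ).re = 0) (h0 : ∀ ρ : D.ι, D.z ρ ≠ 0) {φ : HL} (hφ : Xt D a φ) {s t : ℝ} (hst : s < t)
    (hs : ev a ((s : ℂ) * I) φ = 0) (ht : ev a ((t : ℂ) * I) φ = 0) :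
    ∃ ρ : D.ι, s < (D.z ρ).im ∧ (D.z ρ).im < t := by
  by_contra hcon
  push Not at hcon
  have hpos : ∀ ρ : D.ι, 0 ≤ ((D.z ρ).im - s) * ((D.z ρ).im - t) := by
    intro ρ
    rcases le_or_gt (D.z ρ).im s with h | h
    · nlinarith
    · have := hcon ρ h
      nlinarith
  obtain ⟨L, χ, hχ, hev, hlim⟩ := two_zeros ha hl hφ (w1 := (s : ℂ) * I) (w2 := (t : ℂ) * I) hs (fun ψ hψ => by
    have h1 := hψ ((t : ℂ) * I)
    rw [ht] at h1
    refine (mul_eq_zero.mp h1.symm).resolve_left ?_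
    intro h2
    have h3 := congrArg Complex.im h2
    simp at h3
    linarith)
  have hz : ∀ ρ : D.ι, D.z ρ = ((D.z ρ).im : ℂ) * I := by
    intro ρ
    apply Complex.ext
    · simp [hR ρ]
    · simp
  have hwt : ∀ (n : ℕ) (ρ : D.ι), D.wt (Ao a ((s : ℂ) * I) (Ao a ((t : ℂ) * I) (L n))) (Ao a 0 (Ao a 0 (L n))) ρ =
      ((D.m ρ * (((D.z ρ).im - s) * ((D.z ρ).im - t) * (D.z ρ).im ^ 2 * ‖W.LT (L n) (D.z ρ)‖ ^ 2) : ℝ) : ℂ) := by
    intro n ρ
    unfold Dat.wt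
    rw [rh_conj hR, LT_Ao, LT_Ao, LT_Ao, LT_Ao]
    have e2 : conj (D.z ρ) = -D.z ρ := by
      have := rh_conj hR ρ
      linear_combination -this
    have e3 : W.LT (L n) (D.z ρ) * conj (W.LT (L n) (D.z ρ)) = ((‖W.LT (L n) (D.z ρ)‖ ^ 2 : ℝ) : ℂ) := by
      rw [Complex.mul_conj, Complex.normSq_eq_norm_sq]
    simp only [map_mul, map_sub, map_zero, e2]
    have e4 := hz ρ
    set y : ℝ := (D.z ρ).im with hy
    generalize W.LT (L n) (D.z ρ) = l at e3 ⊢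
    rw [e4]
    push_cast at e3 ⊢
    have hI : I ^ 2 = -1 := Complex.I_sq
    linear_combination ((D.m ρ : ℂ) * (((y : ℂ) - s) * ((y : ℂ) - t) * (y : ℂ) ^ 2)) * e3 +
      ((D.m ρ : ℂ) * (((y : ℂ) - s) * ((y : ℂ) - t) * (y : ℂ) ^ 2) * (l * conj l)) * (I ^ 2 - 1) * hI
  have hfin : ∀ ρ : D.ι, ev a (D.z ρ) φ = 0 := by
    intro ρ
    have hterm : ∀ n, D.m ρ * (((D.z ρ).im - s) * ((D.z ρ).im - t) * (D.z ρ).im ^ 2 * ‖W.LT (L n) (D.z ρ)‖ ^ 2) ≤
        ‖D.Wf (Ao a ((s : ℂ) * I) (Ao a ((t : ℂ) * I) (L n))) (Ao a 0 (Ao a 0 (L n)))‖ := by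
      intro n
      have hsum := GA.summable_wt (D := D) (Ts.tf (Ao a ((s : ℂ) * I) (Ao a ((t : ℂ) * I) (L n))).2)
        (Ts.tf (Ao a 0 (Ao a 0 (L n))).2)
      have hsum' : Summable fun ρ : D.ι => D.m ρ * (((D.z ρ).im - s) * ((D.z ρ).im - t) * (D.z ρ).im ^ 2 *
          ‖W.LT (L n) (D.z ρ)‖ ^ 2) := by
        have h2 := hsum.congr (hwt n)
        exact Complex.summable_ofReal.mp h2
      have hnn : ∀ ρ : D.ι, 0 ≤ D.m ρ * (((D.z ρ).im - s) * ((D.z ρ).im - t) * (D.z ρ).im ^ 2 *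
          ‖W.LT (L n) (D.z ρ)‖ ^ 2) := fun ρ =>
        mul_nonneg (D.m_nonneg ρ) (mul_nonneg (mul_nonneg (hpos ρ) (sq_nonneg _)) (sq_nonneg _))
      have e : D.Wf (Ao a ((s : ℂ) * I) (Ao a ((t : ℂ) * I) (L n))) (Ao a 0 (Ao a 0 (L n))) =
          ((∑' ρ : D.ι, D.m ρ * (((D.z ρ).im - s) * ((D.z ρ).im - t) * (D.z ρ).im ^ 2 *
            ‖W.LT (L n) (D.z ρ)‖ ^ 2) : ℝ) : ℂ) := by
        unfold Dat.Wf
        rw [Complex.ofReal_tsum]
        exact tsum_congr (hwt n)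
      rw [e, Complex.norm_real]
      exact (hsum'.le_tsum ρ fun j _ => hnn j).trans (le_abs_self _)
    have hl1 : Tendsto (fun n => W.LT (L n) (D.z ρ)) atTop (𝓝 (ev a (D.z ρ) χ)) := by
      refine (((ev a (D.z ρ)).continuous.tendsto χ).comp hχ).congr fun n => ?_
      exact ev_toL _ _
    have hl2 := ((hl1.norm.pow 2).const_mul (((D.z ρ).im - s) * ((D.z ρ).im - t) * (D.z ρ).im ^ 2)).const_mul (D.m ρ)
    have hl3 := hlim.norm
    rw [norm_zero] at hl3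
    have hle := le_of_tendsto_of_tendsto' hl2 hl3 hterm
    have hm := D.one_le ρ
    have him : (D.z ρ).im ≠ 0 := by
      intro h
      apply h0 ρ
      rw [hz ρ, h]
      simp
    have him2 : 0 < (D.z ρ).im ^ 2 := by positivity
    have hge : 0 ≤ ((D.z ρ).im - s) * ((D.z ρ).im - t) * (D.z ρ).im ^ 2 * ‖ev a (D.z ρ) χ‖ ^ 2 :=
      mul_nonneg (mul_nonneg (hpos ρ) (sq_nonneg _)) (sq_nonneg _)
    have h2 : ((D.z ρ).im - s) * ((D.z ρ).im - t) * (D.z ρ).im ^ 2 * ‖ev a (D.z ρ) χ‖ ^ 2 = 0 := by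
      apply le_antisymm _ hge
      by_contra hlt
      push Not at hlt
      have := mul_pos (by linarith : 0 < D.m ρ) hlt
      linarith
    rw [hev (D.z ρ)]
    rcases mul_eq_zero.mp h2 with h3 | h3
    · rcases mul_eq_zero.mp h3 with h4 | h4
      · rcases mul_eq_zero.mp h4 with h5 | h5
        · have : D.z ρ - (s : ℂ) * I = 0 := by
            rw [hz ρ, ← sub_mul, ← Complex.ofReal_sub, h5]
            simp
          rw [this, zero_mul]
        · have : D.z ρ - (t : ℂ) * I = 0 := by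
            rw [hz ρ, ← sub_mul, ← Complex.ofReal_sub, h5]
            simp
          rw [this, zero_mul, mul_zero]
      · exact absurd h4 him2.ne'
    · have h4 : ‖ev a (D.z ρ) χ‖ = 0 := by
        rcases pow_eq_zero_iff (n := 2) (by norm_num) |>.mp h3 with h5
        exact h5
      rw [norm_eq_zero.mp h4, mul_zero, mul_zero]
  exact xt_not_all ha hl hR hφ hfin

end Pool.Agent.Helper61.XL
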